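import Pool.Agent.Lib.MP_fabde4_an.SpecB
import Pool.Agent.Lib.MP_fabde4_an.SpecF
import Pool.Agent.Lib.MP_fabde4_an.M.Lop

section
/-!
MP_fabde4_an, toolbox B, module NEU (helper4): solvability of the Neumann problem, assembly of the
regularity modules.
-/
set_option autoImplicit false
open MeasureTheory Set Filter Topology

namespace MPfab

namespace Neu

lemma isOpen_D {ρ : E → ℝ} (h : Dom ρ) : IsOpen (D ρ) :=
  isOpen_lt h.smooth.continuous continuous_const

lemma measurableSet_D {ρ : E → ℝ} (h : Dom ρ) : MeasurableSet (D ρ) := (isOpen_D h).measurableSet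

lemma volume_D_lt {ρ : E → ℝ} (h : Dom ρ) : volume (D ρ) < ⊤ := h.bdd.measure_lt_top

lemma finite_D {ρ : E → ℝ} (h : Dom ρ) : IsFiniteMeasure (volume.restrict (D ρ)) :=
  ⟨by rw [Measure.restrict_apply_univ]; exact volume_D_lt h⟩

/-- a continuous function is bounded on a bounded set -/
lemma bdd_of_cont {F : Type*} [NormedAddCommGroup F] {f : E → F} (hf : Continuous f) {S : Set E}
    (hS : Bornology.IsBounded S) : ∃ C, ∀ x ∈ S, ‖f x‖ ≤ C := by
  have hc : IsCompact (closure S) := hS.isCompact_closure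
  obtain ⟨C, hC⟩ := hc.exists_bound_of_continuousOn hf.continuousOn
  exact ⟨C, fun x hx => hC x (subset_closure hx)⟩

lemma memLp {F : Type*} [NormedAddCommGroup F] [SecondCountableTopology F] {ρ : E → ℝ}
    (h : Dom ρ) {f : E → F} (hf : Continuous f) : MemLp f 2 (volume.restrict (D ρ)) := by
  have := finite_D h
  obtain ⟨C, hC⟩ := bdd_of_cont hf h.bdd
  refine MemLp.of_bound hf.aestronglyMeasurable C ?_
  rw [ae_restrict_iff' (measurableSet_D h)]
  exact Eventually.of_forall hC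

lemma exists_class {ρ : E → ℝ} (h : Dom ρ) {G : E → E} (hG : Sm G) :
    ∃ w : L2 ρ, (w : E → E) =ᵐ[volume.restrict (D ρ)] G :=
  ⟨(memLp h hG.continuous).toLp G, MemLp.coeFn_toLp _⟩

lemma pds_append {F : Type*} [NormedAddCommGroup F] [NormedSpace ℝ F] (β α : List (Fin 3))
    (f : E → F) : pds (β ++ α) f = pds β (pds α f) := by
  induction β with
  | nil => rfl
  | cons i β ih => simp [pds, ih]

lemma contDiffOn_pd {F : Type*} [NormedAddCommGroup F] [NormedSpace ℝ F] {S : Set E}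
    (hS : IsOpen S) {f : E → F} (hf : ContDiffOn ℝ ((⊤ : ENat) : WithTop ENat) f S) (i : Fin 3) :
    ContDiffOn ℝ ((⊤ : ENat) : WithTop ENat) (pd i f) S := by
  have h1 : ContDiffOn ℝ ((⊤ : ENat) : WithTop ENat) (fderiv ℝ f) S :=
    hf.fderiv_of_isOpen hS (by simp)
  exact h1.clm_apply contDiffOn_const

lemma contDiffOn_pds {F : Type*} [NormedAddCommGroup F] [NormedSpace ℝ F] {S : Set E}
    (hS : IsOpen S) {f : E → F} (hf : ContDiffOn ℝ ((⊤ : ENat) : WithTop ENat) f S)
    (α : List (Fin 3)) : ContDiffOn ℝ ((⊤ : ENat) : WithTop ENat) (pds α f) S := by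
  induction α with
  | nil => exact hf
  | cons i α ih => exact contDiffOn_pd hS ih i

lemma differentiableAt_of {F : Type*} [NormedAddCommGroup F] [NormedSpace ℝ F] {S : Set E}
    (hS : IsOpen S) {f : E → F} (hf : ContDiffOn ℝ ((⊤ : ENat) : WithTop ENat) f S) {x : E}
    (hx : x ∈ S) : DifferentiableAt ℝ f x :=
  (hf.contDiffAt (hS.mem_nhds hx)).differentiableAt (by simp)

lemma pd_congr {F : Type*} [NormedAddCommGroup F] [NormedSpace ℝ F] {S : Set E}
    (hS : IsOpen S) {f g : E → F} (h : ∀ x ∈ S, f x = g x) (i : Fin 3) {x : E} (hx : x ∈ S) :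
    pd i f x = pd i g x := by
  unfold pd
  have h1 : f =ᶠ[𝓝 x] g := by
    filter_upwards [hS.mem_nhds hx] with y hy using h y hy
  rw [h1.fderiv_eq]

lemma pds_congr {F : Type*} [NormedAddCommGroup F] [NormedSpace ℝ F] {S : Set E}
    (hS : IsOpen S) {f g : E → F} (h : ∀ x ∈ S, f x = g x) (α : List (Fin 3)) :
    ∀ x ∈ S, pds α f x = pds α g x := by
  induction α with
  | nil => exact h
  | cons i α ih => exact fun x hx => pd_congr hS ih i hx

lemma pds_comp {S : Set E} (hS : IsOpen S) {w : E → E}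
    (hw : ContDiffOn ℝ ((⊤ : ENat) : WithTop ENat) w S) (j : Fin 3) (α : List (Fin 3)) :
    ∀ x ∈ S, pds α (fun y => w y j) x = pds α w x j := by
  induction α with
  | nil => exact fun x _ => rfl
  | cons i α ih =>
    intro x hx
    have h1 : pds (i :: α) (fun y => w y j) x = pd i (fun y => pds α w y j) x :=
      pd_congr hS ih i hx
    rw [h1]
    exact (pd_apply (differentiableAt_of hS (contDiffOn_pds hS hw α) hx) i j).symm

lemma contDiffOn_comp {S : Set E} {w : E → E}
    (hw : ContDiffOn ℝ ((⊤ : ENat) : WithTop ENat) w S) (j : Fin 3) :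
    ContDiffOn ℝ ((⊤ : ENat) : WithTop ENat) (fun y => w y j) S :=
  contDiffOn_euclidean.mp hw j

lemma memLp_comp {μ : Measure E} {w : E → E} (hw : MemLp w 2 μ) (j : Fin 3) :
    MemLp (fun y => w y j) 2 μ := by
  have h1 : (fun y => w y j) = fun y => (EuclideanSpace.proj j : E →L[ℝ] ℝ) (w y) := by
    funext y
    rfl
  rw [h1]
  exact (EuclideanSpace.proj j : E →L[ℝ] ℝ).comp_memLp' hw

lemma dk_smooth {ρ : E → ℝ} (hρ : DomN ρ) {U : TF ρ → ℝ → L2 ρ →L[ℝ] L2 ρ}
    (h : ∀ (T : TF ρ) (G : E → E) (w w' : L2 ρ), Sm G →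
      (w : E → E) =ᵐ[volume.restrict (D ρ)] G →
      (w' : E → E) =ᵐ[volume.restrict (D ρ)] lie T.1 G → HasDerivAt (fun s => U T s w) w' 0)
    (k : ℕ) : ∀ (G : E → E) (w : L2 ρ), Sm G → (w : E → E) =ᵐ[volume.restrict (D ρ)] G →
      Dk U k w := by
  induction k with
  | zero => intro G w _ _; trivial
  | succ k ih =>
    intro G w hG hw T
    obtain ⟨R, hR⟩ := T.2.1
    have hs : Sm (lie T.1 G) := hR.smooth.lie hG
    obtain ⟨w', hw'⟩ := exists_class hρ.toDom hs
    exact ⟨w', h T G w w' hG hw hw', ih _ w' hs hw'⟩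

lemma class_mem {ρ : E → ℝ} {φ : E → ℝ} (hφ : Sm φ) {w : L2 ρ}
    (hw : (w : E → E) =ᵐ[volume.restrict (D ρ)] gr φ) : w ∈ HG ρ :=
  Submodule.le_topologicalClosure _ (Submodule.subset_span ⟨φ, hφ, hw⟩)

end Neu

open Neu

theorem specNeu (hAbs : SpecAbs) (hP1 : SpecPull1) (hP2 : SpecPull2) (hP3 : SpecPull3)
    (hL : SpecLiec) (hI : SpecIntr) (hN : SpecNormd) (hS : SpecSobd) (hE : SpecExtb)
    (hPot : SpecPot) (hW : SpecWtan) : SpecNeu := by
  intro ρ G hρ hc hG
  have hDom : Dom ρ := hρ.toDom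
  obtain ⟨U, hU, hb⟩ := hP1 ρ hρ
  obtain ⟨hU0, hUc, hUK, hUs, hUd⟩ := hP2 ρ U hρ hU hb
  obtain ⟨⟨M, M', hM0, hMd, hMm, hMi⟩, hmul⟩ := hP3 ρ U hρ hU
  obtain ⟨G0, hG0⟩ := exists_class hDom hG
  have hclosed : IsClosed (HG ρ : Set (L2 ρ)) := Submodule.isClosed_topologicalClosure _
  have : CompleteSpace (HG ρ) := hclosed.completeSpace_coe
  set g : L2 ρ := (HG ρ).starProjection G0 with hgdef
  have hgm : g ∈ HG ρ := Submodule.starProjection_apply_mem _ _
  have horth : ∀ h ∈ HG ρ, inner ℝ (G0 - g) h = 0 := by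
    intro h hh
    have h1 : G0 - g ∈ (HG ρ)ᗮ := Submodule.sub_starProjection_mem_orthogonal _
    rw [real_inner_comm]
    exact (Submodule.mem_orthogonal _ _).mp h1 h hh
  have hDk : ∀ k, Dk U k g :=
    hAbs (L2 ρ) (HG ρ) (TF ρ) U M M' (MulOps ρ) hclosed hU0 hUc hUK hUs hM0 hMd hMi hMm hmul
      G0 g (fun k => dk_smooth hρ hUd k G G0 hG hG0) hgm horth
  have hPi : IsPi ρ G g := by
    refine ⟨hgm, fun φ hφ => ?_⟩
    obtain ⟨w, hw⟩ := exists_class hDom hφ.gr
    have h1 := horth w (class_mem hφ hw)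
    rw [L2.inner_def] at h1
    rw [← h1]
    refine integral_congr_ae ?_
    filter_upwards [Lp.coeFn_sub G0 g, hG0, hw] with x hx1 hx2 hx3
    rw [hx1, Pi.sub_apply, hx2, hx3]
  obtain ⟨g', hg's, hgg', hcurl, hdv⟩ := hI ρ G g hDom hG hPi
  have hQL : ∀ k, QL ρ k g' := hL ρ U g g' hρ hU hg's hgg' hDk
  have hmem := hN ρ G g' hρ hG hg's hcurl hdv hQL
  have hopen := isOpen_D hDom
  -- components
  have hcomp : ∀ j : Fin 3, ∃ f' : E → ℝ, Sm f' ∧ ∀ x ∈ D ρ, f' x = g' x j := by
    intro j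
    refine hE ρ (fun y => g' y j) hρ (contDiffOn_comp hg's j) fun α => ?_
    obtain ⟨C, hC⟩ := hS ρ hDom
    set f : E → ℝ := pds α (fun y => g' y j) with hf
    have hfs : ContDiffOn ℝ ((⊤ : ENat) : WithTop ENat) f (D ρ) :=
      contDiffOn_pds hopen (contDiffOn_comp hg's j) α
    have h1 : ∀ β : List (Fin 3), β.length ≤ 3 → MemLp (pds β f) 2 (volume.restrict (D ρ)) := by
      intro β _
      have h2 : ∀ x ∈ D ρ, pds (β ++ α) (fun y => g' y j) x = pds (β ++ α) g' x j :=
        pds_comp hopen hg's j (β ++ α)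
      have h3 := memLp_comp (hmem (β ++ α)) j
      refine (memLp_congr_ae ?_).mp h3
      rw [EventuallyEq, ae_restrict_iff' (measurableSet_D hDom)]
      refine Eventually.of_forall fun x hx => ?_
      rw [← h2 x hx, hf, pds_append]
    refine ⟨√(C * hs (D ρ) 3 f), fun x hx => ?_⟩
    exact Real.abs_le_sqrt (hC f hfs h1 x hx)
  choose f' hf's hf'e using hcomp
  set gt : E → E := fun x => WithLp.toLp 2 fun j => f' j x with hgt
  have hgts : Sm gt := by
    rw [sm_iff]
    exact hf's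
  have hgte : ∀ x ∈ D ρ, gt x = g' x := by
    intro x hx
    ext j
    exact hf'e j x hx
  have hgt_ae : (g : E → E) =ᵐ[volume.restrict (D ρ)] gt := by
    have h1 : ∀ᵐ x ∂(volume.restrict (D ρ)), gt x = g' x := by
      rw [ae_restrict_iff' (measurableSet_D hDom)]
      exact Eventually.of_forall hgte
    filter_upwards [hgg', h1] with x hx1 hx2
    rw [hx1, hx2]
  obtain ⟨q, hq, hqe⟩ := hPot ρ gt g hρ hc hgts hgt_ae hgm
  refine ⟨q, hq, hW ρ _ hρ (hG.sub hq.gr) fun φ hφ => ?_⟩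
  rw [← hPi.orth φ hφ]
  refine integral_congr_ae ?_
  have h1 : ∀ᵐ x ∂(volume.restrict (D ρ)), gr q x = gt x := by
    rw [ae_restrict_iff' (measurableSet_D hDom)]
    exact Eventually.of_forall fun x hx => hqe x (le_of_lt hx)
  filter_upwards [hgt_ae, h1] with x hx1 hx2
  rw [hx1, hx2]

end MPfab
end

section
/-!
MP_fabde4_an, toolbox B, module EXTB (helper4): extension of functions which are smooth with bounded
derivatives in the open domain.
-/
set_option autoImplicit false
open MeasureTheory Set Filter Topology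

namespace MPfab

namespace Extb

open Neu

lemma pd_add_on {F : Type*} [NormedAddCommGroup F] [NormedSpace ℝ F] {S : Set E} (hS : IsOpen S)
    {f g : E → F} (hf : ContDiffOn ℝ ((⊤ : ENat) : WithTop ENat) f S)
    (hg : ContDiffOn ℝ ((⊤ : ENat) : WithTop ENat) g S) (i : Fin 3) {x : E} (hx : x ∈ S) :
    pd i (fun y => f y + g y) x = pd i f x + pd i g x := by
  unfold pd
  rw [fderiv_fun_add (differentiableAt_of hS hf hx) (differentiableAt_of hS hg hx)]
  rfl

lemma pds_add_on {F : Type*} [NormedAddCommGroup F] [NormedSpace ℝ F] {S : Set E} (hS : IsOpen S)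
    {f g : E → F} (hf : ContDiffOn ℝ ((⊤ : ENat) : WithTop ENat) f S)
    (hg : ContDiffOn ℝ ((⊤ : ENat) : WithTop ENat) g S) (α : List (Fin 3)) :
    ∀ x ∈ S, pds α (fun y => f y + g y) x = pds α f x + pds α g x := by
  induction α with
  | nil => exact fun x _ => rfl
  | cons i α ih =>
    intro x hx
    have h1 : pds (i :: α) (fun y => f y + g y) x = pd i (fun y => pds α f y + pds α g y) x :=
      pd_congr hS ih i hx
    rw [h1, pd_add_on hS (contDiffOn_pds hS hf α) (contDiffOn_pds hS hg α) i hx]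
    rfl

/-- functions smooth in the open set with bounded derivatives -/
structure Kls (S : Set E) (k : E → ℝ) : Prop where
  smooth : ContDiffOn ℝ ((⊤ : ENat) : WithTop ENat) k S
  bd : ∀ α : List (Fin 3), ∃ C : ℝ, ∀ x ∈ S, |pds α k x| ≤ C

lemma Kls.pd {S : Set E} (hS : IsOpen S) {k : E → ℝ} (h : Kls S k) (i : Fin 3) :
    Kls S (pd i k) := by
  refine ⟨contDiffOn_pd hS h.smooth i, fun α => ?_⟩
  obtain ⟨C, hC⟩ := h.bd (α ++ [i])
  refine ⟨C, fun x hx => ?_⟩
  have := hC x hx
  rw [pds_append] at this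
  exact this

/-- a continuous function on `ℝ × E` is bounded on `[0,s₀] × S` -/
lemma bdd_slab {F : Type*} [NormedAddCommGroup F] {a : ℝ × E → F} (ha : Continuous a) {S : Set E}
    (hS : Bornology.IsBounded S) (s0 : ℝ) :
    ∃ C, 0 ≤ C ∧ ∀ s ∈ Icc (0 : ℝ) s0, ∀ x ∈ S, ‖a (s, x)‖ ≤ C := by
  have hc : IsCompact (Icc (0 : ℝ) s0 ×ˢ closure S) := isCompact_Icc.prod hS.isCompact_closure
  obtain ⟨C, hC⟩ := hc.exists_bound_of_continuousOn ha.continuousOn
  exact ⟨|C|, abs_nonneg _, fun s hs x hx =>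
    (hC (s, x) ⟨hs, subset_closure hx⟩).trans (le_abs_self _)⟩

/-- the data -/
structure Dat (ρ : E → ℝ) (s0 : ℝ) (N : E → E) (Y : ℝ × E → E) : Prop where
  dom : Dom ρ
  inN : ∃ R, In R N
  flow : IsFlow (fun x => -N x) Y
  maps : ∀ s ∈ Icc (0 : ℝ) s0, ∀ x ∈ D ρ, Y (s, x) ∈ D ρ

variable {ρ : E → ℝ} {s0 : ℝ} {N : E → E} {Y : ℝ × E → E}

lemma Dat.sl_smooth (h : Dat ρ s0 N Y) (s : ℝ) : Sm fun y => Y (s, y) :=
  h.flow.smooth.comp (contDiff_const.prodMk contDiff_id)

lemma Dat.comp_smooth (h : Dat ρ s0 N Y) {k : E → ℝ} (hk : Kls (D ρ) k) {a : ℝ × E → ℝ}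
    (ha : Sm a) {s : ℝ} (hs : s ∈ Icc (0 : ℝ) s0) :
    ContDiffOn ℝ ((⊤ : ENat) : WithTop ENat) (fun y => a (s, y) * k (Y (s, y))) (D ρ) := by
  have h1 : ContDiffOn ℝ ((⊤ : ENat) : WithTop ENat) (fun y => k (Y (s, y))) (D ρ) :=
    hk.smooth.comp (h.sl_smooth s).contDiffOn (fun y hy => h.maps s hs y hy)
  have h2 : Sm fun y => a (s, y) := ha.comp (contDiff_const.prodMk contDiff_id)
  exact h2.contDiffOn.mul h1

lemma Dat.base (h : Dat ρ s0 N Y) (hP : SpecPDC) {k : E → ℝ} (hk : Kls (D ρ) k) {a : ℝ × E → ℝ}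
    (ha : Sm a) : ∃ C, ∀ s ∈ Icc (0 : ℝ) s0, ∀ s' ∈ Icc (0 : ℝ) s0, ∀ x ∈ D ρ,
      |a (s, x) * k (Y (s, x)) - a (s', x) * k (Y (s', x))| ≤ C * |s - s'| := by
  have hD := isOpen_D h.dom
  obtain ⟨Ca, hCa0, hCa⟩ := bdd_slab ha.continuous h.dom.bdd s0
  obtain ⟨Cb, hCb0, hCb⟩ := bdd_slab (hP.dt_smooth ℝ a ha).continuous h.dom.bdd s0
  obtain ⟨Ck, hCk⟩ := hk.bd []
  have hCk' : ∀ x ∈ D ρ, |k x| ≤ |Ck| := fun x hx => (hCk x hx).trans (le_abs_self _)
  choose Cj hCj using fun j => (hk.bd [j])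
  obtain ⟨R, hR⟩ := h.inN
  obtain ⟨CN, hCN0, hCN⟩ : ∃ C, 0 ≤ C ∧ ∀ x, ‖N x‖ ≤ C := by
    have h1 : HasCompactSupport N := by
      refine HasCompactSupport.intro (isCompact_closedBall (0 : E) R) fun x hx => ?_
      rw [mem_closedBall_zero_iff, not_le] at hx
      exact hR.supp x hx.le
    obtain ⟨C, hC⟩ := h1.exists_bound_of_continuous hR.smooth.continuous
    exact ⟨|C|, abs_nonneg _, fun x => (hC x).trans (le_abs_self _)⟩
  refine ⟨Cb * |Ck| + Ca * (CN * ∑ j, |Cj j|), fun s hs s' hs' x hx => ?_⟩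
  -- derivative along the segment
  have hder : ∀ t ∈ Icc (0 : ℝ) s0, HasDerivAt (fun t => a (t, x) * k (Y (t, x)))
      (dt a (t, x) * k (Y (t, x)) + a (t, x) * fderiv ℝ k (Y (t, x)) (-N (Y (t, x)))) t := by
    intro t ht
    have h1 : HasDerivAt (fun t => a (t, x)) (dt a (t, x)) t := by
      have h2 := hP.dt_pds ℝ a ha [] t x
      exact h2
    have h2 : HasFDerivAt k (fderiv ℝ k (Y (t, x))) (Y (t, x)) :=
      (differentiableAt_of hD hk.smooth (h.maps t ht x hx)).hasFDerivAt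
    have h3 : HasDerivAt (fun t => k (Y (t, x))) (fderiv ℝ k (Y (t, x)) (-N (Y (t, x)))) t :=
      h2.comp_hasDerivAt t (h.flow.deriv t x)
    exact h1.mul h3
  have hbd : ∀ t ∈ Icc (0 : ℝ) s0,
      ‖dt a (t, x) * k (Y (t, x)) + a (t, x) * fderiv ℝ k (Y (t, x)) (-N (Y (t, x)))‖ ≤
        Cb * |Ck| + Ca * (CN * ∑ j, |Cj j|) := by
    intro t ht
    have hy := h.maps t ht x hx
    have h1 := hCa t ht x hx
    have h2 := hCb t ht x hx
    have h3 := hCk' _ hy
    have h4 : |fderiv ℝ k (Y (t, x)) (-N (Y (t, x)))| ≤ CN * ∑ j, |Cj j| := by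
      rw [fderiv_eq_sum, Finset.mul_sum]
      refine (Finset.abs_sum_le_sum_abs _ _).trans (Finset.sum_le_sum fun j _ => ?_)
      rw [smul_eq_mul, abs_mul]
      refine mul_le_mul ?_ ((hCj j _ hy).trans (le_abs_self _)) (abs_nonneg _) hCN0
      have h5 : ‖(-N (Y (t, x))) j‖ ≤ ‖-N (Y (t, x))‖ := PiLp.norm_apply_le _ j
      rw [Real.norm_eq_abs] at h5
      refine h5.trans ?_
      rw [norm_neg]
      exact hCN _
    refine (norm_add_le _ _).trans (add_le_add ?_ ?_)
    · rw [norm_mul]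
      exact mul_le_mul h2 h3 (abs_nonneg _) hCb0
    · rw [norm_mul]
      exact mul_le_mul h1 h4 (abs_nonneg _) hCa0
  have := (convex_Icc (0 : ℝ) s0).norm_image_sub_le_of_norm_hasDerivWithin_le
    (fun t ht => (hder t ht).hasDerivWithinAt) hbd hs' hs
  simpa [Real.norm_eq_abs] using this

lemma Dat.step (h : Dat ρ s0 N Y) {k : E → ℝ} (hk : Kls (D ρ) k) {a : ℝ × E → ℝ} (ha : Sm a)
    (i : Fin 3) {s : ℝ} (hs : s ∈ Icc (0 : ℝ) s0) {x : E} (hx : x ∈ D ρ) :
    pd i (fun y => a (s, y) * k (Y (s, y))) x =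
      pd i (sl a s) x * k (Y (s, x)) + (a (s, x) * (pd i (sl Y s) x) 0 * pd 0 k (Y (s, x)) +
        (a (s, x) * (pd i (sl Y s) x) 1 * pd 1 k (Y (s, x)) +
          a (s, x) * (pd i (sl Y s) x) 2 * pd 2 k (Y (s, x)))) := by
  have hD := isOpen_D h.dom
  have h2 : Sm fun y => a (s, y) := ha.comp (contDiff_const.prodMk contDiff_id)
  have h3 : HasFDerivAt k (fderiv ℝ k (Y (s, x))) (Y (s, x)) :=
    (differentiableAt_of hD hk.smooth (h.maps s hs x hx)).hasFDerivAt
  have h4 : HasFDerivAt (fun y => k (Y (s, y)))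
      ((fderiv ℝ k (Y (s, x))).comp (fderiv ℝ (fun y => Y (s, y)) x)) x :=
    h3.comp x (h.sl_smooth s).differentiable.differentiableAt.hasFDerivAt
  unfold pd
  rw [fderiv_fun_mul h2.differentiable.differentiableAt h4.differentiableAt, h4.fderiv]
  simp only [add_apply, smul_apply, smul_eq_mul, ContinuousLinearMap.comp_apply]
  rw [fderiv_eq_sum k, Fin.sum_univ_three]
  simp only [smul_eq_mul]
  unfold pd sl
  ring

lemma Dat.lip (h : Dat ρ s0 N Y) (hP : SpecPDC) (n : ℕ) : ∀ (k : E → ℝ), Kls (D ρ) k →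
    ∀ (a : ℝ × E → ℝ), Sm a → ∀ α : List (Fin 3), α.length = n →
    ∃ C, ∀ s ∈ Icc (0 : ℝ) s0, ∀ s' ∈ Icc (0 : ℝ) s0, ∀ x ∈ D ρ,
      |pds α (fun y => a (s, y) * k (Y (s, y))) x - pds α (fun y => a (s', y) * k (Y (s', y))) x| ≤
        C * |s - s'| := by
  have hD := isOpen_D h.dom
  induction n with
  | zero =>
    intro k hk a ha α hα
    rw [List.length_eq_zero_iff] at hα
    subst hα
    exact h.base hP hk ha
  | succ n ih =>
    intro k hk a ha α hα
    rcases List.eq_nil_or_concat α with rfl | ⟨β, i, rfl⟩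
    · simp at hα
    rw [List.length_concat, Nat.add_right_cancel_iff] at hα
    have hYs : Sm fun p : ℝ × E => pds [i] (sl Y p.1) p.2 := hP.pdt_smooth E Y h.flow.smooth [i]
    have ha0 : Sm fun p : ℝ × E => pds [i] (sl a p.1) p.2 := hP.pdt_smooth ℝ a ha [i]
    have haj : ∀ j : Fin 3, Sm fun p : ℝ × E => a p * (pds [i] (sl Y p.1) p.2) j := fun j =>
      ha.mul (contDiff_euclidean.mp hYs j)
    obtain ⟨C0, hC0⟩ := ih k hk _ ha0 β hα
    obtain ⟨C1, hC1⟩ := ih (pd 0 k) (hk.pd hD 0) _ (haj 0) β hα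
    obtain ⟨C2, hC2⟩ := ih (pd 1 k) (hk.pd hD 1) _ (haj 1) β hα
    obtain ⟨C3, hC3⟩ := ih (pd 2 k) (hk.pd hD 2) _ (haj 2) β hα
    refine ⟨C0 + C1 + C2 + C3, fun s hs s' hs' x hx => ?_⟩
    have key : ∀ t ∈ Icc (0 : ℝ) s0,
        pds (β.concat i) (fun y => a (t, y) * k (Y (t, y))) x =
          pds β (fun y => pds [i] (sl a t) y * k (Y (t, y))) x +
          (pds β (fun y => (a (t, y) * (pds [i] (sl Y t) y) 0) * pd 0 k (Y (t, y))) x +
          (pds β (fun y => (a (t, y) * (pds [i] (sl Y t) y) 1) * pd 1 k (Y (t, y))) x +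
          pds β (fun y => (a (t, y) * (pds [i] (sl Y t) y) 2) * pd 2 k (Y (t, y))) x)) := by
      intro t ht
      have s0' := h.comp_smooth hk ha0 ht
      have s1' := h.comp_smooth (hk.pd hD 0) (haj 0) ht
      have s2' := h.comp_smooth (hk.pd hD 1) (haj 1) ht
      have s3' := h.comp_smooth (hk.pd hD 2) (haj 2) ht
      rw [List.concat_eq_append, pds_append]
      have h1 : pds β (pds [i] fun y => a (t, y) * k (Y (t, y))) x =
          pds β (fun y => (pds [i] (sl a t) y * k (Y (t, y))) +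
            ((a (t, y) * (pds [i] (sl Y t) y) 0) * pd 0 k (Y (t, y)) +
            ((a (t, y) * (pds [i] (sl Y t) y) 1) * pd 1 k (Y (t, y)) +
            (a (t, y) * (pds [i] (sl Y t) y) 2) * pd 2 k (Y (t, y))))) x := by
        refine pds_congr hD (fun y hy => ?_) β x hx
        exact h.step hk ha i ht hy
      rw [h1, pds_add_on hD s0' (s1'.add (s2'.add s3')) β x hx,
        pds_add_on hD s1' (s2'.add s3') β x hx, pds_add_on hD s2' s3' β x hx]
    rw [key s hs, key s' hs']
    have e0 := hC0 s hs s' hs' x hx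
    have e1 := hC1 s hs s' hs' x hx
    have e2 := hC2 s hs s' hs' x hx
    have e3 := hC3 s hs s' hs' x hx
    simp only [abs_le] at e0 e1 e2 e3 ⊢
    constructor <;> nlinarith [e0.1, e0.2, e1.1, e1.2, e2.1, e2.2, e3.1, e3.2]

/-! ### series of smooth functions -/

lemma fderiv_le (g : E → ℝ) (x : E) : ‖fderiv ℝ g x‖ ≤ ∑ i, |MPfab.pd i g x| := by
  refine ContinuousLinearMap.opNorm_le_bound _ (Finset.sum_nonneg fun i _ => abs_nonneg _) ?_
  intro v
  rw [fderiv_eq_sum, Finset.sum_mul]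
  refine (norm_sum_le _ _).trans (Finset.sum_le_sum fun i _ => ?_)
  rw [norm_smul, mul_comm, Real.norm_eq_abs (MPfab.pd i g x)]
  exact mul_le_mul_of_nonneg_left (PiLp.norm_apply_le v i) (abs_nonneg _)

lemma tsum_aux (m : ℕ) : ∀ g : ℕ → E → ℝ, (∀ n, Sm (g n)) →
    (∀ α : List (Fin 3), ∃ u : ℕ → ℝ, Summable u ∧ ∀ n x, |pds α (g n) x| ≤ u n) →
    ContDiff ℝ m fun x => ∑' n, g n x := by
  induction m with
  | zero =>
    intro g hg hb
    obtain ⟨u, hu, hu'⟩ := hb []
    have h1 : Continuous fun x => ∑' n, g n x :=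
      continuous_tsum (fun n => (hg n).continuous) hu fun n x => hu' n x
    exact contDiff_zero.mpr h1
  | succ m ih =>
    intro g hg hb
    obtain ⟨u0, hu0, hu0'⟩ := hb []
    choose u hu hu' using fun i : Fin 3 => hb [i]
    have hsum : Summable fun n => ∑ i, u i n := summable_sum fun i _ => hu i
    have hfb : ∀ n x, ‖fderiv ℝ (g n) x‖ ≤ ∑ i, u i n := fun n x =>
      (fderiv_le (g n) x).trans (Finset.sum_le_sum fun i _ => hu' i n x)
    have hd : ∀ x, HasFDerivAt (fun y => ∑' n, g n y) (∑' n, fderiv ℝ (g n) x) x := by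
      intro x
      refine hasFDerivAt_tsum hsum
        (fun n y => (hg n).differentiable.differentiableAt.hasFDerivAt) hfb
        (x₀ := 0) ?_ x
      exact Summable.of_norm_bounded hu0 fun n => hu0' n 0
    have hpd : ∀ i x, (∑' n, fderiv ℝ (g n) x) (eb i) = ∑' n, MPfab.pd i (g n) x := by
      intro i x
      have h1 : Summable fun n => fderiv ℝ (g n) x :=
        Summable.of_norm_bounded hsum fun n => hfb n x
      exact (ContinuousLinearMap.apply ℝ ℝ (eb i)).map_tsum h1
    rw [show ((m + 1 : ℕ) : WithTop ℕ∞) = (m : WithTop ℕ∞) + 1 from by norm_cast,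
      contDiff_succ_iff_fderiv]
    refine ⟨fun x => (hd x).differentiableAt, by simp, ?_⟩
    have h2 : fderiv ℝ (fun y => ∑' n, g n y) = fun x =>
        ∑ i, (∑' n, MPfab.pd i (g n) x) • (EuclideanSpace.proj i : E →L[ℝ] ℝ) := by
      funext x
      ext v
      rw [fderiv_eq_sum]
      simp only [FunLike.coe_sum, Finset.sum_apply, smul_apply,
        smul_eq_mul]
      refine Finset.sum_congr rfl fun i _ => ?_
      rw [← hpd i x, mul_comm]
      unfold MPfab.pd
      rw [(hd x).fderiv]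
      rfl
    rw [h2]
    refine ContDiff.sum fun i _ => ?_
    refine (ih (fun n => MPfab.pd i (g n)) (fun n => (hg n).pd i) fun α => ?_).smul
      contDiff_const
    obtain ⟨v, hv, hv'⟩ := hb (α ++ [i])
    refine ⟨v, hv, fun n x => ?_⟩
    have := hv' n x
    rw [pds_append] at this
    exact this

lemma sm_tsum {g : ℕ → E → ℝ} (hg : ∀ n, Sm (g n))
    (hb : ∀ α : List (Fin 3), ∃ u : ℕ → ℝ, Summable u ∧ ∀ n x, |pds α (g n) x| ≤ u n) :
    Sm fun x => ∑' n, g n x :=
  contDiff_infty.mpr fun m => tsum_aux m g hg hb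

/-! ### the shifted functions -/

lemma mono_flow {N : E → E} {Y : ℝ × E → E} {ρ : E → ℝ} (hρ : Sm ρ)
    (hN : ∀ x, 0 ≤ fderiv ℝ ρ x (N x)) (hY : IsFlow (fun x => -N x) Y) (x : E) {s : ℝ}
    (hs : 0 ≤ s) : ρ (Y (s, x)) ≤ ρ x := by
  have hd : ∀ t, HasDerivAt (fun t => ρ (Y (t, x))) (fderiv ℝ ρ (Y (t, x)) (-N (Y (t, x)))) t :=
    fun t => (hρ.differentiable.differentiableAt.hasFDerivAt).comp_hasDerivAt t (hY.deriv t x)
  have h1 : Antitone fun t => ρ (Y (t, x)) := by
    refine antitone_of_deriv_nonpos (fun t => (hd t).differentiableAt) fun t => ?_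
    rw [(hd t).deriv, map_neg]
    linarith [hN (Y (t, x))]
  have h2 := h1 hs
  simp only [hY.zero] at h2
  exact h2

/-- the shifted function -/
noncomputable def shf (ρ : E → ℝ) (Y : ℝ × E → E) (f : E → ℝ) (δ : ℝ) (x : E) : ℝ :=
  Real.smoothTransition (2 - 3 * (ρ x / δ)) * f (Y (δ, x))

lemma shf_D {ρ : E → ℝ} {Y : ℝ × E → E} {f : E → ℝ} {δ : ℝ} (hδ : 0 < δ) {x : E}
    (hx : x ∈ D ρ) : shf ρ Y f δ x = f (Y (δ, x)) := by
  unfold shf
  have h1 : ρ x / δ ≤ 0 := div_nonpos_of_nonpos_of_nonneg (le_of_lt hx) hδ.le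
  rw [Real.smoothTransition.one_of_one_le (by linarith), one_mul]

lemma shf_smooth {ρ : E → ℝ} {Y : ℝ × E → E} {f : E → ℝ} {δ : ℝ} (hρ : Sm ρ) (hD : IsOpen (D ρ))
    (hY : Sm Y) (hδ : 0 < δ) (hf : ContDiffOn ℝ ((⊤ : ENat) : WithTop ENat) f (D ρ))
    (hm : ∀ x, ρ x < δ → Y (δ, x) ∈ D ρ) : Sm (shf ρ Y f δ) := by
  rw [Sm, contDiff_iff_contDiffAt]
  intro x
  by_cases hx : ρ x < δ
  · have h1 : Sm fun x => Real.smoothTransition (2 - 3 * (ρ x / δ)) :=
      Real.smoothTransition.contDiff.comp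
        (contDiff_const.sub (contDiff_const.mul (hρ.div_const δ)))
    have h2 : ContDiffAt ℝ ((⊤ : ENat) : WithTop ENat) (fun y => f (Y (δ, y))) x :=
      ContDiffAt.comp (g := f) x (hf.contDiffAt (hD.mem_nhds (hm x hx)))
        (hY.comp (contDiff_const.prodMk contDiff_id)).contDiffAt
    exact h1.contDiffAt.mul h2
  · push Not at hx
    have h1 : ∀ᶠ y in 𝓝 x, 2 / 3 * δ < ρ y := by
      have h2 : 2 / 3 * δ < ρ x := by linarith
      exact hρ.continuous.continuousAt.eventually (lt_mem_nhds h2)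
    have h2 : shf ρ Y f δ =ᶠ[𝓝 x] fun _ => 0 := by
      filter_upwards [h1] with y hy
      unfold shf
      have h3 : 2 / 3 < ρ y / δ := by
        rw [lt_div_iff₀ hδ]
        exact hy
      rw [Real.smoothTransition.zero_of_nonpos (by linarith), zero_mul]
    exact contDiffAt_const.congr_of_eventuallyEq h2

end Extb

open Neu Extb

theorem specExtb (hSeel : SpecSeel) (hCol : SpecCollar) (hP : SpecPDC) : SpecExtb := by
  intro ρ f hρ hf hfb
  have hDom : Dom ρ := hρ.toDom
  have hD := isOpen_D hDom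
  obtain ⟨c, N, Y, hC⟩ := hCol ρ hρ
  -- a ball
  obtain ⟨R, hR⟩ : ∃ R : ℝ, ∀ x, ρ x ≤ 0 → ‖x‖ < R := by
    obtain ⟨R, hR⟩ := hC.cpt.isBounded.exists_norm_le
    refine ⟨R + 1, fun x hx => ?_⟩
    have := hR x (show ρ x ≤ c by linarith [hC.pos])
    linarith
  obtain ⟨Ex, hEx⟩ := hSeel ρ R hρ hR
  set s0 : ℝ := c with hs0
  have hs0pos : 0 < s0 := hC.pos
  have hmaps : ∀ s ∈ Icc (0 : ℝ) s0, ∀ x ∈ D ρ, Y (s, x) ∈ D ρ := by
    intro s hs x hx
    exact lt_of_le_of_lt (mono_flow hDom.smooth hC.nonneg hC.flow x hs.1) hx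
  have hdat : Dat ρ s0 N Y := ⟨hDom, hC.inN, hC.flow, hmaps⟩
  have hm : ∀ δ, 0 < δ → δ ≤ s0 → ∀ x, ρ x < δ → Y (δ, x) ∈ D ρ := by
    intro δ hδ hδ' x hx
    by_cases h0 : ρ x < 0
    · exact hmaps δ ⟨hδ.le, hδ'⟩ x h0
    · push Not at h0
      have h1 : |ρ x| ≤ c := by rw [abs_of_nonneg h0]; linarith
      have h2 : |ρ x - δ| ≤ c := by rw [abs_of_neg (by linarith)]; linarith
      have h3 := hC.lev δ x h1 h2
      change ρ (Y (δ, x)) < 0
      rw [h3]
      linarith
  have hk : Kls (D ρ) f := ⟨hf, hfb⟩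
  set d : ℕ → ℝ := fun n => s0 / 2 ^ n with hd
  have hdpos : ∀ n, 0 < d n := fun n => by positivity
  have hdle : ∀ n, d n ≤ s0 := fun n => by
    rw [hd]
    exact div_le_self hs0pos.le (one_le_pow₀ (by norm_num))
  have hdI : ∀ n, d n ∈ Icc (0 : ℝ) s0 := fun n => ⟨(hdpos n).le, hdle n⟩
  have hdd : ∀ n, |d (n + 1) - d n| = s0 * (1 / 2) ^ (n + 1) := by
    intro n
    have h1 : d (n + 1) - d n = -(s0 * (1 / 2) ^ (n + 1)) := by
      simp only [hd]
      rw [one_div, inv_pow, pow_succ]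
      field_simp
      ring
    rw [h1, abs_neg, abs_of_pos (by positivity)]
  set g : ℕ → E → ℝ := fun n => shf ρ Y f (d n) with hg
  have hgs : ∀ n, Sm (g n) := fun n =>
    shf_smooth hDom.smooth hD hC.flow.smooth (hdpos n) hf (hm (d n) (hdpos n) (hdle n))
  have hgD : ∀ n, ∀ x ∈ D ρ, g n x = f (Y (d n, x)) := fun n x hx => shf_D (hdpos n) hx
  set h : ℕ → E → ℝ := fun n x => g (n + 1) x + (-1) * g n x with hh
  have hhs : ∀ n, Sm (h n) := fun n => (hgs (n + 1)).add (contDiff_const.mul (hgs n))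
  -- Lipschitz constants
  have hlip : ∀ α : List (Fin 3), ∃ C, ∀ n, ∀ x ∈ D ρ,
      |pds α (h n) x| ≤ C * (s0 * (1 / 2) ^ (n + 1)) := by
    intro α
    obtain ⟨C, hC'⟩ := hdat.lip hP α.length f hk (fun _ => 1) contDiff_const α rfl
    refine ⟨C, fun n x hx => ?_⟩
    have h1 := hC' (d (n + 1)) (hdI _) (d n) (hdI _) x hx
    rw [hdd] at h1
    have e1 : ContDiffOn ℝ ((⊤ : ENat) : WithTop ENat) (fun y => (1 : ℝ) * f (Y (d (n + 1), y)))
      (D ρ) := hdat.comp_smooth hk (a := fun _ => 1) contDiff_const (hdI _)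
    have e2 : ContDiffOn ℝ ((⊤ : ENat) : WithTop ENat) (fun y => (-1 : ℝ) * f (Y (d n, y)))
      (D ρ) := hdat.comp_smooth hk (a := fun _ => -1) contDiff_const (hdI _)
    have e2' : ContDiffOn ℝ ((⊤ : ENat) : WithTop ENat) (fun y => (1 : ℝ) * f (Y (d n, y)))
      (D ρ) := hdat.comp_smooth hk (a := fun _ => 1) contDiff_const (hdI _)
    have h2 : pds α (h n) x = pds α (fun y => (1 : ℝ) * f (Y (d (n + 1), y)) +
        (-1) * f (Y (d n, y))) x := by
      refine pds_congr hD (fun y hy => ?_) α x hx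
      simp only [hh]
      rw [hgD _ y hy, hgD _ y hy]
      ring
    have h3 : pds α (fun y => (1 : ℝ) * f (Y (d n, y)) + (-1) * f (Y (d n, y))) x =
        pds α (fun _ => (0 : ℝ)) x := by
      refine pds_congr hD (fun y _ => ?_) α x hx
      ring
    rw [pds_add_on hD e2' e2 α x hx] at h3
    have h4 : ∀ α : List (Fin 3), pds α (fun _ : E => (0 : ℝ)) = fun _ => 0 := by
      intro α
      induction α with
      | nil => rfl
      | cons i α ih =>
        funext y
        simp [pds, ih, pd]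
    rw [h4] at h3
    rw [h2, pds_add_on hD e1 e2 α x hx]
    have h5 : pds α (fun y => (-1 : ℝ) * f (Y (d n, y))) x =
        -pds α (fun y => (1 : ℝ) * f (Y (d n, y))) x := by linarith
    rw [h5, ← sub_eq_add_neg]
    exact h1
  choose Cα hCα using hlip
  have hExh : ∀ n, Ex (h n) = fun x => Ex (g (n + 1)) x + (-1) * Ex (g n) x := by
    intro n
    have h1 := hEx.add (g (n + 1)) (fun x => (-1) * g n x) (hgs _)
      (contDiff_const.mul (hgs n))
    rw [hEx.smul (-1) (g n) (hgs n)] at h1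
    exact h1
  -- summability of all derivatives
  have hb : ∀ α : List (Fin 3), ∃ u : ℕ → ℝ, Summable u ∧
      ∀ n x, |pds α (Ex (h n)) x| ≤ u n := by
    intro α
    have hfin : Set.Finite {β : List (Fin 3) | β.length ≤ α.length} :=
      List.finite_length_le (Fin 3) α.length
    obtain ⟨M, hM⟩ := (hfin.image Cα).bddAbove
    obtain ⟨C, hC'⟩ := hEx.bdb α.length
    refine ⟨fun n => C * (M * (s0 * (1 / 2) ^ (n + 1))), ?_, fun n x => ?_⟩
    · have h1 : Summable fun n : ℕ => ((1 : ℝ) / 2) ^ (n + 1) :=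
        (summable_nat_add_iff 1).mpr (summable_geometric_of_lt_one (by norm_num) (by norm_num))
      exact ((h1.mul_left s0).mul_left M).mul_left C
    · have h1 : Bd (D ρ) α.length (h n) (M * (s0 * (1 / 2) ^ (n + 1))) := by
        intro β hβ y hy
        refine (hCα β n y hy).trans ?_
        refine mul_le_mul_of_nonneg_right (hM ⟨β, hβ, rfl⟩) (by positivity)
      exact hC' (h n) _ (hhs n) h1 α le_rfl x (mem_univ _)
  have hts : Sm fun x => ∑' n, Ex (h n) x :=
    sm_tsum (fun n => (hEx.supp _ (hhs n)).smooth) hb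
  refine ⟨fun x => Ex (g 0) x + ∑' n, Ex (h n) x, (hEx.supp _ (hgs 0)).smooth.add hts, ?_⟩
  intro x hx
  obtain ⟨u, hu, hu'⟩ := hb []
  have hsumm : Summable fun n => Ex (h n) x := Summable.of_norm_bounded hu fun n => hu' n x
  have h1 := hsumm.hasSum.tendsto_sum_nat
  have hEg : ∀ n, Ex (g n) x = f (Y (d n, x)) := by
    intro n
    rw [hEx.eq (g n) (hgs n) x (le_of_lt hx), hgD n x hx]
  have h2 : ∀ n, ∑ i ∈ Finset.range n, Ex (h i) x = f (Y (d n, x)) - f (Y (d 0, x)) := by
    intro n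
    induction n with
    | zero => simp
    | succ n ih =>
      rw [Finset.sum_range_succ, ih, hExh n]
      simp only [hEg]
      ring
  simp only [h2] at h1
  obtain ⟨C, hC'⟩ := hdat.base hP hk (a := fun _ => 1) contDiff_const
  have h3 : Tendsto (fun n => f (Y (d n, x))) atTop (𝓝 (f x)) := by
    have h4 : Tendsto d atTop (𝓝 0) := by
      have h5 : Tendsto (fun n : ℕ => s0 * ((1 : ℝ) / 2) ^ n) atTop (𝓝 (s0 * 0)) :=
        (tendsto_pow_atTop_nhds_zero_of_lt_one (by norm_num) (by norm_num)).const_mul s0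
      rw [mul_zero] at h5
      refine h5.congr fun n => ?_
      simp only [hd, one_div, inv_pow]
      rfl
    rw [tendsto_iff_norm_sub_tendsto_zero]
    have h5 : Tendsto (fun n => |C| * d n) atTop (𝓝 0) := by
      have := h4.const_mul |C|
      rwa [mul_zero] at this
    refine squeeze_zero (fun n => norm_nonneg _) (fun n => ?_) h5
    have h6 := hC' (d n) (hdI n) 0 ⟨le_rfl, hs0pos.le⟩ x hx
    rw [hC.flow.zero, one_mul, one_mul, sub_zero, abs_of_pos (hdpos n)] at h6
    rw [Real.norm_eq_abs]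
    refine h6.trans ?_
    exact mul_le_mul_of_nonneg_right (le_abs_self _) (hdpos n).le
  have h4 := tendsto_nhds_unique h1 (h3.sub_const (f (Y (d 0, x))))
  change Ex (g 0) x + ∑' n, Ex (h n) x = f x
  rw [h4, hEg 0]
  ring

end MPfab
end

section
/-!
MP_fabde4_an, module FLAT: cutting a flat function along the boundary.
-/
set_option autoImplicit false
open Set Filter Topology

namespace MPfab
namespace Flat

/-- flat along the zero set of `ρ` -/
def Fl {F : Type} [NormedAddCommGroup F] [NormedSpace ℝ F] (ρ : E → ℝ) (g : E → F) : Prop :=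
  Sm g ∧ ∀ x0, ρ x0 = 0 → ∀ n : ℕ, ∃ C : ℝ, 0 ≤ C ∧ ∀ᶠ x in 𝓝 x0, ‖g x‖ ≤ C * |ρ x| ^ n

/-- restriction to `ρ > 0`, extended by zero -/
noncomputable def plus {F : Type} [NormedAddCommGroup F] [NormedSpace ℝ F] (ρ : E → ℝ)
    (g : E → F) (x : E) : F := if 0 < ρ x then g x else 0

lemma lip {ρ : E → ℝ} (hρ : Sm ρ) (x0 : E) : ∃ K : ℝ, 0 ≤ K ∧ ∀ᶠ x in 𝓝 x0,
    |ρ x - ρ x0| ≤ K * ‖x - x0‖ := by
  obtain ⟨K, t, ht, hK⟩ := (hρ.contDiffAt.of_le (by simp) :
    ContDiffAt ℝ 1 ρ x0).exists_lipschitzOnWith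
  refine ⟨K, K.2, ?_⟩
  filter_upwards [ht] with x hx
  have := hK.dist_le_mul x hx x0 (mem_of_mem_nhds ht)
  rwa [Real.dist_eq, dist_eq_norm] at this

/-- a function bounded by `C ρ²` near a zero of `ρ` has derivative zero there -/
lemma hasFDerivAt_zero {F : Type} [NormedAddCommGroup F] [NormedSpace ℝ F] {ρ : E → ℝ}
    (hρ : Sm ρ) {x0 : E} (h0 : ρ x0 = 0) {g : E → F} (hg0 : g x0 = 0) {C : ℝ}
    (hg : ∀ᶠ x in 𝓝 x0, ‖g x‖ ≤ C * |ρ x| ^ 2) : HasFDerivAt g (0 : E →L[ℝ] F) x0 := by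
  obtain ⟨K, hK0, hK⟩ := lip hρ x0
  rw [hasFDerivAt_iff_isLittleO]
  have h1 : (fun x => g x - g x0 - (0 : E →L[ℝ] F) (x - x0)) =O[𝓝 x0]
      fun x => ‖x - x0‖ ^ 2 := by
    refine Asymptotics.IsBigO.of_bound (|C| * K ^ 2) ?_
    filter_upwards [hg, hK] with x h1 h2
    rw [hg0]
    simp only [sub_zero, zero_apply]
    rw [h0, sub_zero] at h2
    calc ‖g x‖ ≤ C * |ρ x| ^ 2 := h1
      _ ≤ |C| * |ρ x| ^ 2 := by gcongr; exact le_abs_self C
      _ ≤ |C| * (K * ‖x - x0‖) ^ 2 := by gcongr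
      _ = |C| * K ^ 2 * ‖‖x - x0‖ ^ 2‖ := by
        rw [Real.norm_of_nonneg (by positivity)]; ring
  refine h1.trans_isLittleO ?_
  have h2 : (fun x : E => ‖x - x0‖ ^ 2) =o[𝓝 x0] fun x => ‖x - x0‖ ^ 1 := by
    have h3 : Tendsto (fun x : E => ‖x - x0‖) (𝓝 x0) (𝓝 0) := by
      have : Continuous fun x : E => ‖x - x0‖ := by fun_prop
      simpa using this.tendsto x0
    exact (Asymptotics.isLittleO_pow_pow (𝕜 := ℝ) (m := 1) (n := 2) (by norm_num)).comp_tendsto h3
  simpa using h2.norm_right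

lemma Fl.zero {F : Type} [NormedAddCommGroup F] [NormedSpace ℝ F] {ρ : E → ℝ} {g : E → F}
    (h : Fl ρ g) {x0 : E} (h0 : ρ x0 = 0) : g x0 = 0 := by
  obtain ⟨C, hC, h1⟩ := h.2 x0 h0 1
  have := h1.self_of_nhds
  rw [h0] at this
  simpa using this

lemma Fl.fderiv_zero {F : Type} [NormedAddCommGroup F] [NormedSpace ℝ F] {ρ : E → ℝ} {g : E → F}
    (hρ : Sm ρ) (h : Fl ρ g) {x0 : E} (h0 : ρ x0 = 0) : fderiv ℝ g x0 = 0 := by
  obtain ⟨C, hC, h1⟩ := h.2 x0 h0 2
  exact (hasFDerivAt_zero hρ h0 (h.zero h0) h1).fderiv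

lemma plus_hasFDerivAt {F : Type} [NormedAddCommGroup F] [NormedSpace ℝ F] {ρ : E → ℝ} {g : E → F}
    (hρ : Sm ρ) (h : Fl ρ g) (x : E) : HasFDerivAt (plus ρ g) (plus ρ (fderiv ℝ g) x) x := by
  have hc : Continuous ρ := hρ.continuous
  rcases lt_trichotomy (ρ x) 0 with hx | hx | hx
  · have h1 : plus ρ (fderiv ℝ g) x = 0 := by simp [plus, hx.le]
    rw [h1]
    have h2 : plus ρ g =ᶠ[𝓝 x] fun _ => 0 := by
      filter_upwards [hc.continuousAt.eventually (gt_mem_nhds hx)] with y hy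
      simp [plus, le_of_lt hy]
    exact (hasFDerivAt_const (0 : F) x).congr_of_eventuallyEq h2
  · have h1 : plus ρ (fderiv ℝ g) x = 0 := by simp [plus, hx]
    rw [h1]
    obtain ⟨C, hC, h2⟩ := h.2 x hx 2
    refine hasFDerivAt_zero (C := C) hρ hx (by simp [plus, hx]) ?_
    filter_upwards [h2] with y hy
    unfold plus
    split_ifs
    · exact hy
    · rw [norm_zero]; positivity
  · have h1 : plus ρ (fderiv ℝ g) x = fderiv ℝ g x := by simp [plus, hx]
    rw [h1]
    have h2 : plus ρ g =ᶠ[𝓝 x] g := by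
      filter_upwards [hc.continuousAt.eventually (lt_mem_nhds hx)] with y hy
      simp [plus, hy]
    exact (h.1.differentiable x).hasFDerivAt.congr_of_eventuallyEq h2

/-- the derivative of a flat function is flat -/
lemma Fl.fderiv {F : Type} [NormedAddCommGroup F] [NormedSpace ℝ F] {ρ : E → ℝ} {g : E → F}
    (hρ : Sm ρ) (h : Fl ρ g) : Fl ρ (fderiv ℝ g) := by
  have hsm : Sm (_root_.fderiv ℝ g) := h.1.fderiv_right (by simp)
  refine ⟨hsm, fun x0 h0 n => ?_⟩
  obtain ⟨K1, t1, ht1, hK1⟩ := (hρ.contDiffAt.of_le (by simp) :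
    ContDiffAt ℝ 1 ρ x0).exists_lipschitzOnWith
  obtain ⟨K2, t2, ht2, hK2⟩ := (hsm.contDiffAt.of_le (by simp) :
    ContDiffAt ℝ 1 (_root_.fderiv ℝ g) x0).exists_lipschitzOnWith
  obtain ⟨C1, hC1, h3⟩ := h.2 x0 h0 (2 * (n + 1))
  obtain ⟨r, hr, hr'⟩ := Metric.mem_nhds_iff.mp (inter_mem (inter_mem ht1 ht2) h3)
  have hcρ : Tendsto (fun x => |ρ x|) (𝓝 x0) (𝓝 0) := by
    have : Continuous fun x => |ρ x| := hρ.continuous.abs
    have h4 := this.tendsto x0
    simpa [h0] using h4
  have hcρ' : Tendsto (fun x => |ρ x| ^ (n + 1)) (𝓝 x0) (𝓝 0) := by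
    simpa using hcρ.pow (n + 1)
  refine ⟨C1 * (1 + K1) ^ (2 * (n + 1)) + C1 + K2, by positivity, ?_⟩
  filter_upwards [Metric.ball_mem_nhds x0 (half_pos hr), hcρ.eventually (gt_mem_nhds one_pos),
    hcρ'.eventually (gt_mem_nhds (half_pos hr))] with x hx1 hx2 hx3
  by_cases hρx : ρ x = 0
  · rw [h.fderiv_zero hρ hρx, norm_zero]
    positivity
  set s := |ρ x| with hs
  have hs0 : 0 < s := abs_pos.mpr hρx
  set t := s ^ (n + 1) with ht
  have ht0 : 0 < t := by positivity
  have hts : t ≤ s := by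
    rw [ht, pow_succ]
    exact mul_le_of_le_one_left hs0.le (pow_le_one₀ hs0.le hx2.le)
  have key : ‖_root_.fderiv ℝ g x‖ ≤ (C1 * (1 + K1) ^ (2 * (n + 1)) + C1 + K2) * t := by
    refine ContinuousLinearMap.opNorm_le_of_unit_norm (by positivity) fun v hv => ?_
    have hsub : Metric.closedBall x t ⊆ Metric.ball x0 r := by
      intro z hz
      rw [Metric.mem_closedBall] at hz
      rw [Metric.mem_ball] at hx1 ⊢
      calc dist z x0 ≤ dist z x + dist x x0 := dist_triangle _ _ _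
        _ < r := by linarith
    have hxx : x ∈ Metric.closedBall x t := Metric.mem_closedBall_self ht0.le
    have hyx : x + t • v ∈ Metric.closedBall x t := by
      rw [mem_closedBall_iff_norm, add_sub_cancel_left, norm_smul, hv, mul_one,
        Real.norm_of_nonneg ht0.le]
    have h5 : ‖g (x + t • v) - g x - _root_.fderiv ℝ g x (x + t • v - x)‖ ≤
        (K2 * t) * ‖x + t • v - x‖ := by
      refine Convex.norm_image_sub_le_of_norm_fderiv_le' (𝕜 := ℝ)
        (fun z _ => h.1.differentiable z) (fun z hz => ?_) (convex_closedBall x t) hxx hyx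
      have h6 := hK2.dist_le_mul z (hr' (hsub hz)).1.2 x (hr' (hsub hxx)).1.2
      rw [dist_eq_norm] at h6
      rw [Metric.mem_closedBall] at hz
      exact h6.trans (by gcongr)
    have h7 : |ρ (x + t • v)| ≤ (1 + K1) * s := by
      have h8 := hK1.dist_le_mul _ (hr' (hsub hyx)).1.1 x (hr' (hsub hxx)).1.1
      rw [Real.dist_eq, dist_eq_norm, add_sub_cancel_left, norm_smul, hv, mul_one,
        Real.norm_of_nonneg ht0.le] at h8
      have h9 : |ρ (x + t • v)| ≤ |ρ (x + t • v) - ρ x| + |ρ x| := by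
        have := abs_add_le (ρ (x + t • v) - ρ x) (ρ x)
        simpa using this
      have h10 : (K1 : ℝ) * t ≤ K1 * s := by gcongr
      calc |ρ (x + t • v)| ≤ |ρ (x + t • v) - ρ x| + |ρ x| := h9
        _ ≤ K1 * s + s := by linarith
        _ = (1 + K1) * s := by ring
    have h11 : ‖g (x + t • v)‖ ≤ C1 * (1 + K1) ^ (2 * (n + 1)) * t ^ 2 := by
      refine (hr' (hsub hyx)).2.trans ?_
      calc C1 * |ρ (x + t • v)| ^ (2 * (n + 1)) ≤ C1 * ((1 + K1) * s) ^ (2 * (n + 1)) := by gcongr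
        _ = C1 * (1 + K1) ^ (2 * (n + 1)) * t ^ 2 := by
          rw [ht, mul_pow, ← pow_mul, mul_comm 2 (n + 1)]; ring
    have h12 : ‖g x‖ ≤ C1 * t ^ 2 := by
      refine (hr' (hsub hxx)).2.trans_eq ?_
      rw [ht, ← hs, ← pow_mul, mul_comm 2 (n + 1)]
    rw [add_sub_cancel_left, map_smul, norm_smul, hv, mul_one, Real.norm_of_nonneg ht0.le] at h5
    have h13 : t * ‖_root_.fderiv ℝ g x v‖ ≤ K2 * t * t + ‖g (x + t • v)‖ + ‖g x‖ := by
      have h14 : t • _root_.fderiv ℝ g x v =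
          g (x + t • v) - g x - (g (x + t • v) - g x - t • _root_.fderiv ℝ g x v) := by abel
      calc t * ‖_root_.fderiv ℝ g x v‖ = ‖t • _root_.fderiv ℝ g x v‖ := by
            rw [norm_smul, Real.norm_of_nonneg ht0.le]
        _ ≤ ‖g (x + t • v)‖ + ‖g x‖ +
            ‖g (x + t • v) - g x - t • _root_.fderiv ℝ g x v‖ := by
          rw [h14]
          exact (norm_sub_le _ _).trans (by
            rw [← h14]
            exact add_le_add_left (norm_sub_le _ _) _)
        _ ≤ _ := by linarith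
    have h15 : t * ‖_root_.fderiv ℝ g x v‖ ≤
        t * ((C1 * (1 + K1) ^ (2 * (n + 1)) + C1 + K2) * t) := by
      calc t * ‖_root_.fderiv ℝ g x v‖ ≤ K2 * t * t + ‖g (x + t • v)‖ + ‖g x‖ := h13
        _ ≤ K2 * t * t + C1 * (1 + K1) ^ (2 * (n + 1)) * t ^ 2 + C1 * t ^ 2 := by gcongr
        _ = _ := by ring
    exact le_of_mul_le_mul_left h15 ht0
  refine key.trans ?_
  gcongr
  rw [ht, pow_succ]
  exact mul_le_of_le_one_right (by positivity) hx2.le

lemma contDiff_plus (ρ : E → ℝ) (hρ : Sm ρ) (n : ℕ) : ∀ (F : Type) [NormedAddCommGroup F]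
    [NormedSpace ℝ F] (g : E → F), Fl ρ g → ContDiff ℝ n (plus ρ g) := by
  induction n with
  | zero =>
    intro F _ _ g h
    rw [Nat.cast_zero, contDiff_zero]
    exact continuous_iff_continuousAt.mpr fun x => (plus_hasFDerivAt hρ h x).continuousAt
  | succ n ih =>
    intro F _ _ g h
    rw [Nat.cast_succ, contDiff_succ_iff_fderiv]
    refine ⟨fun x => (plus_hasFDerivAt hρ h x).differentiableAt, by simp, ?_⟩
    have h1 : fderiv ℝ (plus ρ g) = plus ρ (fderiv ℝ g) :=
      funext fun x => (plus_hasFDerivAt hρ h x).fderiv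
    rw [h1]
    exact ih _ _ (h.fderiv hρ)

end Flat

open Flat in
theorem specFlat : SpecFlat := by
  intro ρ h hρ hh hb
  refine contDiff_infty.mpr fun n => contDiff_plus ρ hρ.smooth n ℝ h ⟨hh, fun x0 _ n => ?_⟩
  obtain ⟨C, hC⟩ := hb n
  refine ⟨|C|, abs_nonneg C, Filter.Eventually.of_forall fun x => ?_⟩
  rw [Real.norm_eq_abs]
  exact (hC x).trans (by gcongr; exact le_abs_self C)

end MPfab
end

section
/-!
MP_fabde4_an, toolbox B, module FLOWA (helper40): flow of a smooth compactly supported field.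
-/
set_option autoImplicit false
open MeasureTheory Set Filter Topology

namespace MPfab

lemma FlowA.bounded {T : E → E} {R : ℝ} (h : In R T) : ∃ C : ℝ, 0 ≤ C ∧ ∀ v, ‖T v‖ ≤ C := by
  obtain ⟨C, hC⟩ := (isCompact_closedBall (0 : E) R).exists_bound_of_continuousOn
    h.smooth.continuous.continuousOn
  refine ⟨max C 0, le_max_right _ _, fun v => ?_⟩
  by_cases hv : ‖v‖ ≤ R
  · exact (hC v (by simpa using hv)).trans (le_max_left _ _)
  · rw [h.supp v (not_le.mp hv).le, norm_zero]
    exact le_max_right _ _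

theorem specFlowA (hG : SpecGlob) (hC : SpecFlowC) : SpecFlowA := by
  classical
  intro T R hT
  obtain ⟨C, hC0, hb⟩ := FlowA.bounded hT
  obtain ⟨F, hF0, hF1⟩ := hG E T C (hT.smooth.of_le (by exact_mod_cast le_top)) (fun v => by
    have := norm_nonneg v
    have := hb v
    nlinarith)
  let F' : ℝ × E → E := fun p => if R ≤ ‖p.2‖ then p.2 else F p
  have h0 : ∀ x, F' (0, x) = x := by
    intro x
    by_cases hx : R ≤ ‖x‖
    · simp [F', hx]
    · simp [F', hx, hF0]
  have h1 : ∀ s x, R ≤ ‖x‖ → F' (s, x) = x := by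
    intro s x hx
    simp [F', hx]
  refine ⟨F', hC E T F' hT.smooth h0 ?_, h1⟩
  intro s x
  by_cases hx : R ≤ ‖x‖
  · rw [h1 s x hx, hT.supp x hx]
    have : (fun r => F' (r, x)) = fun _ => x := funext fun r => h1 r x hx
    rw [this]
    exact hasDerivAt_const s x
  · have h2 : ∀ r, F' (r, x) = F (r, x) := fun r => by simp [F', hx]
    have : (fun r => F' (r, x)) = fun r => F (r, x) := funext h2
    rw [this, h2]
    exact hF1 s x

end MPfab
end

section
/-!
MP_fabde4_an, toolbox B: smooth dependence of integral curves on the initial value.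
-/
set_option autoImplicit false
open MeasureTheory Set Filter Topology
open scoped NNReal Manifold

namespace MPfab.FlowC

variable {V : Type} [NormedAddCommGroup V] [NormedSpace ℝ V] [FiniteDimensional ℝ V]

/-- uniqueness of integral curves on open intervals -/
lemma uniq_Ioo {X : V → V} (hX : ContDiff ℝ 1 X) {a b t₀ : ℝ} (ht₀ : t₀ ∈ Ioo a b)
    {γ γ' : ℝ → V} (hγ : ∀ t ∈ Ioo a b, HasDerivAt γ (X (γ t)) t)
    (hγ' : ∀ t ∈ Ioo a b, HasDerivAt γ' (X (γ' t)) t)
    (h : γ t₀ = γ' t₀) : EqOn γ γ' (Ioo a b) := by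
  have : CompleteSpace V := FiniteDimensional.complete ℝ V
  have hv : ContMDiff 𝓘(ℝ, V) 𝓘(ℝ, V).tangent 1
      (fun y : V => (⟨y, X y⟩ : TangentBundle 𝓘(ℝ, V) V)) :=
    contMDiff_vectorSpace_iff_contDiff.2 hX
  exact isMIntegralCurveOn_Ioo_eqOn_of_contMDiff_boundaryless (I := 𝓘(ℝ, V)) (M := V)
    (v := X) ht₀ hv
    (fun t ht => (hasMFDerivAt_iff_hasFDerivAt.2 (hγ t ht).hasFDerivAt).hasMFDerivWithinAt)
    (fun t ht => (hasMFDerivAt_iff_hasFDerivAt.2 (hγ' t ht).hasFDerivAt).hasMFDerivWithinAt) h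

/-- uniqueness of global integral curves -/
lemma uniq {X : V → V} (hX : ContDiff ℝ 1 X) {t₀ : ℝ}
    {γ γ' : ℝ → V} (hγ : ∀ t, HasDerivAt γ (X (γ t)) t)
    (hγ' : ∀ t, HasDerivAt γ' (X (γ' t)) t)
    (h : γ t₀ = γ' t₀) (t : ℝ) : γ t = γ' t := by
  have h1 : t₀ ∈ Ioo (-(|t₀| + |t| + 1)) (|t₀| + |t| + 1) := by
    constructor
    · have := neg_abs_le t₀
      have := abs_nonneg t
      linarith
    · have := le_abs_self t₀
      have := abs_nonneg t
      linarith
  have h2 : t ∈ Ioo (-(|t₀| + |t| + 1)) (|t₀| + |t| + 1) := by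
    constructor
    · have := neg_abs_le t
      have := abs_nonneg t₀
      linarith
    · have := le_abs_self t
      have := abs_nonneg t₀
      linarith
  exact uniq_Ioo hX h1 (fun t _ => hγ t) (fun t _ => hγ' t) h h2

/-- `F` is a family of global integral curves -/
structure Fl (X : V → V) (F : ℝ × V → V) : Prop where
  zero : ∀ x, F (0, x) = x
  deriv : ∀ s x, HasDerivAt (fun r => F (r, x)) (X (F (s, x))) s

lemma Fl.group {X : V → V} {F : ℝ × V → V} (hF : Fl X F) (hX : ContDiff ℝ 1 X) (s t : ℝ)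
    (x : V) : F (s, F (t, x)) = F (s + t, x) := by
  refine uniq hX (t₀ := 0) (γ := fun r => F (r, F (t, x))) (γ' := fun r => F (r + t, x))
    (fun r => hF.deriv r _) (fun r => ?_) ?_ s
  · exact (hF.deriv (r + t) x).comp_add_const r t
  · simp only [zero_add]
    exact hF.zero _

lemma Fl.rev {X : V → V} {F : ℝ × V → V} (hF : Fl X F) :
    Fl (fun x => -X x) (fun p => F (-p.1, p.2)) where
  zero x := by simp [hF.zero]
  deriv s x := by
    have h := (hF.deriv (-s) x).scomp s (hasDerivAt_neg s)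
    have h2 : ((fun r => F (r, x)) ∘ Neg.neg) = fun r : ℝ => F (-r, x) := rfl
    rw [h2] at h
    simpa using h

/-- two integral families of the same field coincide -/
lemma Fl.uniq {X : V → V} {F G : ℝ × V → V} (hF : Fl X F) (hG : Fl X G) (hX : ContDiff ℝ 1 X)
    (s : ℝ) (x : V) : F (s, x) = G (s, x) :=
  FlowC.uniq hX (t₀ := 0) (γ := fun r => F (r, x)) (γ' := fun r => G (r, x))
    (fun r => hF.deriv r x) (fun r => hG.deriv r x) (by simp [hF.zero, hG.zero]) s

/-! ### continuity for Lipschitz fields -/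

lemma lip_pos {X : V → V} {K : ℝ≥0} (hK : LipschitzWith K X) {F : ℝ × V → V} (hF : Fl X F)
    (x y : V) (s : ℝ) (hs : 0 ≤ s) :
    dist (F (s, x)) (F (s, y)) ≤ dist x y * Real.exp (K * s) := by
  have h := dist_le_of_trajectories_ODE (v := fun _ => X) (K := K) (f := fun r => F (r, x))
    (g := fun r => F (r, y)) (a := 0) (b := s) (δ := dist x y) (fun _ => hK)
    (fun r _ => (hF.deriv r x).continuousAt.continuousWithinAt)
    (fun r _ => (hF.deriv r x).hasDerivWithinAt)
    (fun r _ => (hF.deriv r y).continuousAt.continuousWithinAt)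
    (fun r _ => (hF.deriv r y).hasDerivWithinAt)
    (by simp [hF.zero]) s ⟨hs, le_rfl⟩
  simpa using h

lemma lip {X : V → V} {K : ℝ≥0} (hK : LipschitzWith K X) {F : ℝ × V → V} (hF : Fl X F)
    (x y : V) (s : ℝ) :
    dist (F (s, x)) (F (s, y)) ≤ dist x y * Real.exp (K * |s|) := by
  rcases le_total 0 s with hs | hs
  · rw [abs_of_nonneg hs]
    exact lip_pos hK hF x y s hs
  · rw [abs_of_nonpos hs]
    have hK' : LipschitzWith K (fun x => -X x) := hK.neg
    have h := lip_pos hK' hF.rev x y (-s) (by linarith)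
    simpa using h

lemma cont {X : V → V} {K : ℝ≥0} (hK : LipschitzWith K X) {F : ℝ × V → V} (hF : Fl X F) :
    Continuous F := by
  rw [continuous_iff_continuousAt]
  rintro ⟨s, x⟩
  set T : ℝ := |s| + 1 with hT
  have h1 : ContinuousOn F (Icc (-T) T ×ˢ (univ : Set V)) := by
    refine continuousOn_prod_of_continuousOn_lipschitzOnWith' F
      (K := Real.toNNReal (Real.exp (K * T))) (fun r hr => ?_) (fun y _ => ?_)
    · refine LipschitzOnWith.of_dist_le_mul fun a _ b _ => ?_
      refine (lip hK hF a b r).trans ?_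
      have h2 : Real.exp (K * |r|) ≤ Real.exp (K * T) := by
        apply Real.exp_le_exp.2
        exact mul_le_mul_of_nonneg_left (abs_le.2 hr) K.2
      rw [Real.coe_toNNReal _ (Real.exp_pos _).le, mul_comm]
      exact mul_le_mul_of_nonneg_right h2 dist_nonneg
    · exact fun r _ => (hF.deriv r y).continuousAt.continuousWithinAt
  refine h1.continuousAt ?_
  rw [nhds_prod_eq]
  refine prod_mem_prod (Icc_mem_nhds ?_ ?_) univ_mem
  · have := neg_abs_le s
    linarith
  · have := le_abs_self s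
    linarith

/-! ### the derivative in the initial value -/

lemma gb_lin (K ε s : ℝ) : gronwallBound 0 K ε s = gronwallBound 0 K 1 s * ε := by
  unfold gronwallBound
  split_ifs
  · ring
  · ring

lemma taylor {X : V → V} (hX : ContDiff ℝ 1 X) {C : ℝ≥0} (hC : LipschitzWith C (fderiv ℝ X))
    (y z : V) : ‖X z - X y - fderiv ℝ X y (z - y)‖ ≤ C * ‖z - y‖ ^ 2 := by
  have h := Convex.norm_image_sub_le_of_norm_hasFDerivWithin_le' (𝕜 := ℝ) (f := X)
    (f' := fderiv ℝ X) (φ := fderiv ℝ X y) (s := segment ℝ y z) (C := C * ‖z - y‖)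
    (x := y) (y := z)
    (fun w _ => ((hX.differentiable (by simp)) w).hasFDerivAt.hasFDerivWithinAt)
    (fun w hw => ?_) (convex_segment y z) (left_mem_segment ℝ y z) (right_mem_segment ℝ y z)
  · refine h.trans (le_of_eq ?_)
    ring
  · refine (hC.norm_sub_le w y).trans ?_
    have h2 : ‖w - y‖ ≤ ‖z - y‖ := norm_sub_le_of_mem_segment hw
    exact mul_le_mul_of_nonneg_left h2 C.2

/-- the variational equation gives the derivative, positive times -/
lemma fd_pos {X : V → V} (hX : ContDiff ℝ 1 X) {K C : ℝ≥0} (hK : LipschitzWith K X)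
    (hC : LipschitzWith C (fderiv ℝ X)) {F : ℝ × V → V} (hF : Fl X F)
    {J : ℝ → V → V →L[ℝ] V} (hJ0 : ∀ x, J 0 x = 1)
    (hJ : ∀ s x, HasDerivAt (fun r => J r x) ((fderiv ℝ X (F (s, x))).comp (J s x)) s)
    (s : ℝ) (hs : 0 ≤ s) (x : V) : HasFDerivAt (fun y => F (s, y)) (J s x) x := by
  rw [hasFDerivAt_iff_isLittleO_nhds_zero]
  set A : ℝ := Real.exp (K * s) with hA
  have hA0 : 0 < A := Real.exp_pos _
  have key : ∀ h : V, ‖F (s, x + h) - F (s, x) - J s x h‖ ≤
      (gronwallBound 0 K 1 s * (C * A ^ 2)) * ‖h‖ ^ 2 := by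
    intro h
    have h1 := norm_le_gronwallBound_of_norm_deriv_right_le
      (f := fun r => F (r, x + h) - F (r, x) - J r x h)
      (f' := fun r => X (F (r, x + h)) - X (F (r, x)) - (fderiv ℝ X (F (r, x))) (J r x h))
      (δ := 0) (K := K) (ε := C * A ^ 2 * ‖h‖ ^ 2) (a := 0) (b := s) ?_ ?_ ?_ ?_ s ⟨hs, le_rfl⟩
    · rw [sub_zero, gb_lin] at h1
      refine h1.trans (le_of_eq ?_)
      ring
    · intro r _
      have h2 : HasDerivAt (fun r => F (r, x + h) - F (r, x) - J r x h)
          (X (F (r, x + h)) - X (F (r, x)) - (fderiv ℝ X (F (r, x))) (J r x h)) r := by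
        refine ((hF.deriv r (x + h)).sub (hF.deriv r x)).sub ?_
        exact (hJ r x).clm_apply (hasDerivAt_const r h) |>.congr_deriv (by simp)
      exact h2.continuousAt.continuousWithinAt
    · intro r _
      have h2 : HasDerivAt (fun r => F (r, x + h) - F (r, x) - J r x h)
          (X (F (r, x + h)) - X (F (r, x)) - (fderiv ℝ X (F (r, x))) (J r x h)) r := by
        refine ((hF.deriv r (x + h)).sub (hF.deriv r x)).sub ?_
        exact (hJ r x).clm_apply (hasDerivAt_const r h) |>.congr_deriv (by simp)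
      exact h2.hasDerivWithinAt
    · simp [hF.zero, hJ0]
    · intro r hr
      set y := F (r, x) with hy
      set z := F (r, x + h) with hz
      have h3 : X z - X y - (fderiv ℝ X y) (J r x h) =
          (X z - X y - fderiv ℝ X y (z - y)) + fderiv ℝ X y (z - y - J r x h) := by
        simp only [map_sub]
        abel
      have h4 : ‖z - y‖ ≤ A * ‖h‖ := by
        have h5 := lip_pos hK hF (x + h) x r hr.1
        rw [dist_eq_norm, dist_eq_norm, add_sub_cancel_left] at h5
        refine h5.trans ?_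
        rw [mul_comm]
        refine mul_le_mul_of_nonneg_right ?_ (norm_nonneg _)
        exact Real.exp_le_exp.2 (mul_le_mul_of_nonneg_left hr.2.le K.2)
      have h6 : ‖fderiv ℝ X y‖ ≤ K := norm_fderiv_le_of_lipschitz ℝ hK
      rw [h3]
      refine (norm_add_le _ _).trans ?_
      have h7 : ‖(X z - X y - fderiv ℝ X y (z - y))‖ ≤ C * A ^ 2 * ‖h‖ ^ 2 := by
        refine (taylor hX hC y z).trans ?_
        have h8 : ‖z - y‖ ^ 2 ≤ (A * ‖h‖) ^ 2 := by gcongr
        calc (C : ℝ) * ‖z - y‖ ^ 2 ≤ C * (A * ‖h‖) ^ 2 := mul_le_mul_of_nonneg_left h8 C.2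
          _ = C * A ^ 2 * ‖h‖ ^ 2 := by ring
      have h9 : ‖fderiv ℝ X y (z - y - J r x h)‖ ≤ K * ‖z - y - J r x h‖ :=
        ((fderiv ℝ X y).le_opNorm _).trans (mul_le_mul_of_nonneg_right h6 (norm_nonneg _))
      linarith
  refine (Asymptotics.IsBigO.of_bound (gronwallBound 0 K 1 s * (C * A ^ 2)) ?_).trans_isLittleO
    (Asymptotics.isLittleO_norm_pow_id one_lt_two)
  filter_upwards with h
  rw [norm_pow, norm_norm]
  exact key h

/-- the variational equation gives the derivative -/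
lemma fd {X : V → V} (hX : ContDiff ℝ 1 X) {K C : ℝ≥0} (hK : LipschitzWith K X)
    (hC : LipschitzWith C (fderiv ℝ X)) {F : ℝ × V → V} (hF : Fl X F)
    {J : ℝ → V → V →L[ℝ] V} (hJ0 : ∀ x, J 0 x = 1)
    (hJ : ∀ s x, HasDerivAt (fun r => J r x) ((fderiv ℝ X (F (s, x))).comp (J s x)) s)
    (s : ℝ) (x : V) : HasFDerivAt (fun y => F (s, y)) (J s x) x := by
  rcases le_total 0 s with hs | hs
  · exact fd_pos hX hK hC hF hJ0 hJ s hs x
  · have e1 : fderiv ℝ (fun x => -X x) = fun x => -fderiv ℝ X x := by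
      funext y
      exact fderiv_fun_neg
    have hC' : LipschitzWith C (fderiv ℝ (fun x => -X x)) := by
      rw [e1]
      exact hC.neg
    have h := fd_pos (X := fun x => -X x) hX.neg hK.neg hC' hF.rev
      (J := fun r y => J (-r) y) (by simp [hJ0]) (fun r y => ?_) (-s) (by linarith) x
    · simpa using h
    · have h1 := (hJ (-r) y).scomp r (hasDerivAt_neg r)
      have h2 : ((fun r => J r y) ∘ Neg.neg) = fun r : ℝ => J (-r) y := rfl
      rw [h2] at h1
      rw [e1]
      simpa using h1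

/-! ### the variational system -/

/-- the variational field -/
noncomputable def X1 (X : V → V) (p : V × (V →L[ℝ] V)) : V × (V →L[ℝ] V) :=
  (X p.1, (fderiv ℝ X p.1).comp p.2)

lemma X1_smooth {X : V → V} (hX : Sm X) : Sm (X1 X) := by
  unfold X1
  refine (hX.comp contDiff_fst).prodMk ?_
  refine ContDiff.clm_comp ?_ contDiff_snd
  exact (hX.fderiv_right (m := ((⊤ : ENat) : WithTop ENat)) (by simp)).comp contDiff_fst

lemma X1_growth {X : V → V} {M : ℝ} (hM : ∀ x, ‖X x‖ ≤ M) {K : ℝ≥0} (hK : LipschitzWith K X)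
    (p : V × (V →L[ℝ] V)) : ‖X1 X p‖ ≤ (M + K) * (1 + ‖p‖) := by
  have hM0 : 0 ≤ M := (norm_nonneg _).trans (hM 0)
  have hp : 0 ≤ ‖p‖ := norm_nonneg p
  have hK0 : (0 : ℝ) ≤ K := K.2
  unfold X1
  refine norm_prod_le_iff.2 ⟨?_, ?_⟩
  · refine (hM _).trans ?_
    nlinarith [mul_nonneg hM0 hp, mul_nonneg hK0 hp]
  · have h1 : ‖(fderiv ℝ X p.1).comp p.2‖ ≤ K * ‖p‖ := by
      refine (ContinuousLinearMap.opNorm_comp_le _ _).trans ?_
      exact mul_le_mul (norm_fderiv_le_of_lipschitz ℝ hK) (norm_snd_le p) (norm_nonneg _) hK0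
    refine h1.trans ?_
    nlinarith [mul_nonneg hM0 hp, mul_nonneg hK0 hp]

/-- smoothness of order `n` of all flows -/
def P (n : ℕ) : Prop := ∀ (V : Type) [NormedAddCommGroup V] [NormedSpace ℝ V]
  [FiniteDimensional ℝ V] (X : V → V) (F : ℝ × V → V), Sm X → Fl X F → ContDiff ℝ n F

/-- the same for fields of compact support -/
def Pc (n : ℕ) : Prop := ∀ (V : Type) [NormedAddCommGroup V] [NormedSpace ℝ V]
  [FiniteDimensional ℝ V] (X : V → V) (F : ℝ × V → V), Sm X → HasCompactSupport X → Fl X F →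
  ContDiff ℝ n F

lemma exists_lip {X : V → V} (hX : Sm X) (hc : HasCompactSupport X) :
    ∃ K : ℝ≥0, LipschitzWith K X :=
  ContDiff.lipschitzWith_of_hasCompactSupport hc hX (by simp)

lemma exists_lip' {X : V → V} (hX : Sm X) (hc : HasCompactSupport X) :
    ∃ K : ℝ≥0, LipschitzWith K (fderiv ℝ X) :=
  ContDiff.lipschitzWith_of_hasCompactSupport (hc.fderiv ℝ)
    (hX.fderiv_right (m := ((⊤ : ENat) : WithTop ENat)) (by simp)) (by simp)

lemma Pc_zero : Pc 0 := by
  intro V _ _ _ X F hX hc hF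
  obtain ⟨K, hK⟩ := exists_lip hX hc
  exact contDiff_zero.2 (cont hK hF)

/-- bounded fields have global integral curves (`SpecGlob`) -/
lemma exists_Fl (hG : SpecGlob) {X : V → V} (hX : ContDiff ℝ 1 X) {C : ℝ}
    (hC : ∀ v, ‖X v‖ ≤ C * (1 + ‖v‖)) : ∃ F : ℝ × V → V, Fl X F := by
  obtain ⟨F, h0, h1⟩ := hG V X C hX hC
  exact ⟨F, h0, h1⟩

lemma Pc_succ (hG : SpecGlob) {n : ℕ} (h : P n) : Pc (n + 1) := by
  intro V _ _ _ X F hX hc hF
  obtain ⟨K, hK⟩ := exists_lip hX hc
  obtain ⟨C, hC⟩ := exists_lip' hX hc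
  obtain ⟨M, hM⟩ := hc.exists_bound_of_continuous hX.continuous
  have hX1 : ContDiff ℝ 1 X := hX.of_le (by simp)
  have hS : Sm (X1 X) := X1_smooth hX
  obtain ⟨G, hG1⟩ := exists_Fl hG (hS.of_le (by simp)) (X1_growth hM hK)
  -- the first component is `F`
  have e1 : ∀ s x A, (G (s, (x, A))).1 = F (s, x) := by
    intro s x A
    refine uniq hX1 (t₀ := 0) (γ := fun r => (G (r, (x, A))).1) (γ' := fun r => F (r, x))
      (fun r => ?_) (fun r => hF.deriv r x) ?_ s
    · have h1 := (hG1.deriv r (x, A)).hasFDerivAt.fst.hasDerivAt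
      simpa [X1] using h1
    · simp [hG1.zero, hF.zero]
  set J : ℝ → V → V →L[ℝ] V := fun s x => (G (s, (x, 1))).2 with hJ
  have hJ0 : ∀ x, J 0 x = 1 := fun x => by simp [hJ, hG1.zero]
  have hJ1 : ∀ s x, HasDerivAt (fun r => J r x) ((fderiv ℝ X (F (s, x))).comp (J s x)) s := by
    intro s x
    have h1 := (hG1.deriv s (x, 1)).hasFDerivAt.snd.hasDerivAt
    rw [← e1 s x 1]
    simpa [X1, hJ] using h1
  have hFn : ContDiff ℝ n F := h V X F hX hF
  have hJn : ContDiff ℝ n (fun p : ℝ × V => J p.1 p.2) := by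
    have h1 := h (V × (V →L[ℝ] V)) (X1 X) G hS hG1
    have h2 : ContDiff ℝ n (fun p : ℝ × V => (p.1, (p.2, (1 : V →L[ℝ] V)))) :=
      contDiff_fst.prodMk (contDiff_snd.prodMk contDiff_const)
    exact (h1.comp h2).snd
  have hf := fd hX1 hK hC hF hJ0 hJ1
  set J0 : ℝ → V → ℝ →L[ℝ] V := fun s x => (1 : ℝ →L[ℝ] ℝ).smulRight (X (F (s, x)))
    with hJ0d
  have hJ0n : ContDiff ℝ n (fun p : ℝ × V => J0 p.1 p.2) :=
    ContDiff.smulRight contDiff_const
      ((hX.of_le (m := ((n : ℕ) : WithTop ENat)) (by exact_mod_cast le_top)).comp hFn)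
  have hd : ∀ p : ℝ × V, HasFDerivAt F ((J0 p.1 p.2).coprod (J p.1 p.2)) p := by
    intro p
    have h1 := (hasStrictFDerivAt_uncurry_coprod (𝕜 := ℝ) (u := p) (f := fun s x => F (s, x))
      (f₁ := J0) (f₂ := J)
      (Eventually.of_forall fun v => ?_) (Eventually.of_forall fun v => ?_) ?_ ?_).hasFDerivAt
    · have h2 : Function.HasUncurry.uncurry (fun s x => F (s, x)) = F := rfl
      rw [h2] at h1
      exact h1
    · have h2 := (hF.deriv v.1 v.2).hasFDerivAt
      have h3 : (Function.HasUncurry.uncurry J0 v) =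
          ContinuousLinearMap.toSpanSingleton ℝ (X (F (v.1, v.2))) := by
        ext
        simp [Function.HasUncurry.uncurry, hJ0d]
      rw [h3]
      exact h2
    · exact hf v.1 v.2
    · exact hJ0n.continuous.continuousAt
    · exact hJn.continuous.continuousAt
  refine contDiff_succ_iff_hasFDerivAt.2 ⟨_, ?_, hd⟩
  have h3 : (fun p : ℝ × V => (J0 p.1 p.2).coprod (J p.1 p.2)) = fun p : ℝ × V =>
      (J0 p.1 p.2).comp (ContinuousLinearMap.fst ℝ ℝ V) +
        (J p.1 p.2).comp (ContinuousLinearMap.snd ℝ ℝ V) := by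
    funext p
    ext v <;> simp
  rw [h3]
  exact (hJ0n.clm_comp contDiff_const).add (hJn.clm_comp contDiff_const)

/-! ### localization -/

lemma P_of_Pc (hG : SpecGlob) {n : ℕ} (h : Pc n) : P n := by
  intro V _ _ _ X F hX hF
  have hX1 : ContDiff ℝ 1 X := hX.of_le (by simp)
  rw [contDiff_iff_contDiffAt]
  rintro ⟨s₀, x₀⟩
  set T : ℝ := |s₀| + 1 with hT
  have hT0 : 0 < T := by positivity
  have hs0 : s₀ ∈ Ioo (-T) T := by
    have := neg_abs_le s₀
    have := le_abs_self s₀
    constructor <;> linarith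
  have h0 : (0 : ℝ) ∈ Ioo (-T) T := ⟨by linarith, hT0⟩
  -- a ball that contains the trajectory
  have hcpt : IsCompact ((fun r => F (r, x₀)) '' Icc (-T) T) := by
    refine isCompact_Icc.image ?_
    exact continuous_iff_continuousAt.2 fun r => (hF.deriv r x₀).continuousAt
  obtain ⟨R, hR⟩ := hcpt.isBounded.subset_ball 0
  set R' : ℝ := max R 1 with hR'
  have hR'0 : 0 < R' := by positivity
  have hin : ∀ r ∈ Icc (-T) T, F (r, x₀) ∈ Metric.ball (0 : V) R' := fun r hr =>
    Metric.ball_subset_ball (le_max_left _ _) (hR (mem_image_of_mem _ hr))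
  -- the cutoff
  let χ : ContDiffBump (0 : V) := ⟨R', R' + 1, hR'0, by linarith⟩
  set Y : V → V := fun x => χ x • X x with hY
  have hYs : Sm Y := χ.contDiff.smul hX
  have hYc : HasCompactSupport Y := χ.hasCompactSupport.smul_right
  have hYeq : ∀ x ∈ Metric.ball (0 : V) R', Y x = X x := by
    intro x hx
    have h1 : χ x = 1 := χ.one_of_mem_closedBall (Metric.ball_subset_closedBall hx)
    simp [hY, h1]
  obtain ⟨M, hM⟩ := hYc.exists_bound_of_continuous hYs.continuous
  obtain ⟨G, hG1⟩ := exists_Fl hG (hYs.of_le (by simp)) (C := M) (fun v => by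
    have h1 : 0 ≤ M := (norm_nonneg _).trans (hM v)
    have h2 : 0 ≤ ‖v‖ := norm_nonneg v
    exact (hM v).trans (by nlinarith))
  have hGn : ContDiff ℝ n G := h V Y G hYs hYc hG1
  have hGc : Continuous G := hGn.continuous
  have hG0 : ∀ r ∈ Ioo (-T) T, G (r, x₀) = F (r, x₀) := by
    intro r hr
    refine uniq_Ioo (X := Y) (hYs.of_le (by simp)) h0 (γ := fun r => G (r, x₀))
      (γ' := fun r => F (r, x₀)) (fun r _ => hG1.deriv r x₀) (fun r hr => ?_)
      (by simp [hG1.zero, hF.zero]) hr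
    rw [hYeq _ (hin r (Ioo_subset_Icc_self hr))]
    exact hF.deriv r x₀
  -- nearby trajectories of `G` stay in the ball
  set T' : ℝ := |s₀| + 1 / 2 with hT'
  have hT'T : T' < T := by
    rw [hT, hT']
    linarith
  have hT'0 : 0 < T' := by positivity
  have hev : ∀ᶠ x in 𝓝 x₀, ∀ r ∈ Icc (-T') T', G (r, x) ∈ Metric.ball (0 : V) R' := by
    refine isCompact_Icc.eventually_forall_of_forall_eventually fun r hr => ?_
    have h1 : G (r, x₀) ∈ Metric.ball (0 : V) R' := by
      have h2 : r ∈ Ioo (-T) T := ⟨by linarith [hr.1], by linarith [hr.2]⟩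
      rw [hG0 r h2]
      exact hin r (Ioo_subset_Icc_self h2)
    have h3 : ContinuousAt (fun z : V × ℝ => G (z.2, z.1)) (x₀, r) :=
      (hGc.comp (continuous_snd.prodMk continuous_fst)).continuousAt
    exact h3.eventually (Metric.isOpen_ball.mem_nhds h1)
  have hs0' : s₀ ∈ Ioo (-T') T' := by
    have := neg_abs_le s₀
    have := le_abs_self s₀
    constructor <;> linarith
  have heq : F =ᶠ[𝓝 (s₀, x₀)] G := by
    rw [nhds_prod_eq]
    filter_upwards [prod_mem_prod (Ioo_mem_nhds hs0'.1 hs0'.2) hev]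
    rintro ⟨s, x⟩ ⟨hs, hx⟩
    have h1 : (0 : ℝ) ∈ Ioo (-T') T' := ⟨by linarith, hT'0⟩
    refine uniq_Ioo (X := X) hX1 h1 (γ := fun r => F (r, x))
      (γ' := fun r => G (r, x)) (fun r _ => hF.deriv r x) (fun r hr => ?_)
      (by simp [hG1.zero, hF.zero]) hs
    rw [← hYeq _ (hx r (Ioo_subset_Icc_self hr))]
    exact hG1.deriv r x
  exact hGn.contDiffAt.congr_of_eventuallyEq heq

lemma P_all (hG : SpecGlob) : ∀ n, P n
  | 0 => P_of_Pc hG Pc_zero
  | n + 1 => P_of_Pc hG (by exact_mod_cast Pc_succ hG (P_all hG n))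

end MPfab.FlowC

namespace MPfab

theorem specFlowC (hG : SpecGlob) : SpecFlowC := by
  intro V _ _ _ X F hX h0 h1
  have hF : FlowC.Fl X F := ⟨h0, h1⟩
  refine ⟨?_, h0, h1, fun s t x => hF.group (hX.of_le (by simp)) s t x⟩
  rw [Sm, contDiff_iff_forall_nat_le]
  exact fun m _ => FlowC.P_all hG m V X F hX hF

end MPfab
end

section
/-!
MP_fabde4_an, toolbox B: evolution of a time dependent field.
-/
set_option autoImplicit false
open MeasureTheory Set Filter Topology
open scoped NNReal Manifold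

namespace MPfab.FlowT

open MPfab.FlowC

/-- the autonomous field in space time -/
def XX (b : ℝ × E → E) (p : ℝ × E) : ℝ × E := (1, b p)

lemma XX_smooth {b : ℝ × E → E} (hb : Sm b) : Sm (XX b) := contDiff_const.prodMk hb

/-- a smooth bounded function equal to the identity on `[-n,n]` -/
lemma exists_cut (n : ℝ) (hn : 0 < n) : ∃ χ : ℝ → ℝ, Sm χ ∧ (∀ t, |t| ≤ n → χ t = t) ∧
    ∀ t, |χ t| ≤ n + 1 := by
  let ψ : ContDiffBump (0 : ℝ) := ⟨n, n + 1, hn, by linarith⟩
  refine ⟨fun t => ψ t * t, ψ.contDiff.mul contDiff_id, fun t ht => ?_, fun t => ?_⟩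
  · have h1 : ψ t = 1 := ψ.one_of_mem_closedBall (by simpa using ht)
    simp [h1]
  · rcases le_or_gt (n + 1) |t| with h | h
    · have h1 : ψ t = 0 := ψ.zero_of_le_dist (by simpa using h)
      simp only [h1, zero_mul, abs_zero]
      linarith
    · rw [abs_mul, abs_of_nonneg ψ.nonneg]
      have h1 : ψ t ≤ 1 := ψ.le_one
      have h2 : 0 ≤ |t| := abs_nonneg t
      have h3 : 0 ≤ ψ t := ψ.nonneg
      nlinarith

lemma exists_curve_on (hG : SpecGlob) {b : ℝ × E → E} {R : ℝ} (hb : InT R b) (p : ℝ × E)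
    (a : ℝ) : ∃ γ : ℝ → ℝ × E, γ 0 = p ∧ ∀ t ∈ Ioo (-a) a, HasDerivAt γ (XX b (γ t)) t := by
  set n : ℝ := |p.1| + |a| + 1 with hn
  have hn0 : 0 < n := by positivity
  obtain ⟨χ, hχs, hχ1, hχ2⟩ := exists_cut n hn0
  set Y : ℝ × E → ℝ × E := fun q => (1, b (χ q.1, q.2)) with hY
  have hYs : Sm Y := contDiff_const.prodMk
    (hb.smooth.comp ((hχs.comp contDiff_fst).prodMk contDiff_snd))
  have hc : IsCompact (Icc (-(n + 1)) (n + 1) ×ˢ Metric.closedBall (0 : E) R) :=
    isCompact_Icc.prod (isCompact_closedBall _ _)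
  obtain ⟨M, hM⟩ := hc.exists_bound_of_continuousOn hb.smooth.continuous.continuousOn
  set M' : ℝ := max M 1 with hM'
  have hM1 : 1 ≤ M' := le_max_right _ _
  have hbd : ∀ q, ‖Y q‖ ≤ M' := by
    intro q
    refine norm_prod_le_iff.2 ⟨by simpa [hY] using hM1, ?_⟩
    rcases le_or_gt R ‖q.2‖ with h | h
    · have h1 : b (χ q.1, q.2) = 0 := hb.supp _ _ h
      simp only [hY, h1, norm_zero]
      linarith
    · refine (hM _ ⟨?_, ?_⟩).trans (le_max_left _ _)
      · exact abs_le.1 (hχ2 q.1)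
      · simpa using h.le
  obtain ⟨G, hG1⟩ := exists_Fl hG (hYs.of_le (by simp)) (C := M') (fun v => by
    have h2 : 0 ≤ ‖v‖ := norm_nonneg v
    exact (hbd v).trans (by nlinarith))
  have hfst : ∀ s, (G (s, p)).1 = p.1 + s := by
    intro s
    have hd : ∀ s, HasDerivAt (fun r => (G (r, p)).1 - r) 0 s := by
      intro s
      have h1 := (hG1.deriv s p).hasFDerivAt.fst.hasDerivAt
      have h2 : HasDerivAt (fun r => (G (r, p)).1) 1 s := by simpa [hY] using h1
      simpa using h2.fun_sub (hasDerivAt_id' s)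
    have h1 := is_const_of_deriv_eq_zero (fun s => (hd s).differentiableAt)
      (fun s => (hd s).deriv) s 0
    simp only [hG1.zero] at h1
    linarith
  refine ⟨fun r => G (r, p), hG1.zero p, fun t ht => ?_⟩
  have h1 := hG1.deriv t p
  have h2 : Y (G (t, p)) = XX b (G (t, p)) := by
    have h3 : χ (G (t, p)).1 = (G (t, p)).1 := by
      apply hχ1
      rw [hfst]
      have h4 : |t| ≤ |a| := by
        have h5 : |t| < a := abs_lt.2 ht
        exact h5.le.trans (le_abs_self a)
      have := abs_add_le p.1 t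
      rw [hn]
      linarith
    simp only [hY, XX, h3]
  rw [h2] at h1
  exact h1

lemma exists_curve (hG : SpecGlob) {b : ℝ × E → E} {R : ℝ} (hb : InT R b) (p : ℝ × E) :
    ∃ γ : ℝ → ℝ × E, γ 0 = p ∧ ∀ t, HasDerivAt γ (XX b (γ t)) t := by
  have hv : ContMDiff 𝓘(ℝ, ℝ × E) 𝓘(ℝ, ℝ × E).tangent 1
      (fun y : ℝ × E => (⟨y, XX b y⟩ : TangentBundle 𝓘(ℝ, ℝ × E) (ℝ × E))) :=
    contMDiff_vectorSpace_iff_contDiff.2 ((XX_smooth hb.smooth).of_le (by simp))
  obtain ⟨γ, h0, hγ⟩ := (exists_isMIntegralCurve_iff_exists_isMIntegralCurveOn_Ioo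
    (I := 𝓘(ℝ, ℝ × E)) (M := ℝ × E) (v := XX b) hv p).2 (fun a => by
      obtain ⟨γ, h0, hγ⟩ := exists_curve_on hG hb p a
      refine ⟨γ, h0, fun t ht => ?_⟩
      exact (hasMFDerivAt_iff_hasFDerivAt.2 (hγ t ht).hasFDerivAt).hasMFDerivWithinAt)
  refine ⟨γ, h0, fun t => ?_⟩
  have h1 := hasMFDerivAt_iff_hasFDerivAt.1 (hγ t)
  have h2 : HasFDerivAt γ ((1 : ℝ →L[ℝ] ℝ).smulRight (XX b (γ t))) t := h1
  simpa using h2.hasDerivAt

end MPfab.FlowT

namespace MPfab

open FlowT FlowC

theorem specFlowT (hG : SpecGlob) (hC : SpecFlowC) : SpecFlowT := by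
  intro b R hb
  choose γ h0 hγ using exists_curve hG hb
  set G : ℝ × (ℝ × E) → ℝ × E := fun q => γ q.2 q.1 with hGd
  have hX : Sm (XX b) := XX_smooth hb.smooth
  have hX1 : ContDiff ℝ 1 (XX b) := hX.of_le (by simp)
  have hF : IsFlow (XX b) G := hC (ℝ × E) (XX b) G hX (fun x => h0 x) (fun s x => hγ x s)
  have hfst : ∀ s p, (G (s, p)).1 = p.1 + s := by
    intro s p
    have hd : ∀ s, HasDerivAt (fun r => (G (r, p)).1 - r) 0 s := by
      intro s
      have h1 := (hF.deriv s p).hasFDerivAt.fst.hasDerivAt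
      have h2 : HasDerivAt (fun r => (G (r, p)).1) 1 s := by simpa [XX] using h1
      simpa using h2.fun_sub (hasDerivAt_id' s)
    have h1 := is_const_of_deriv_eq_zero (fun s => (hd s).differentiableAt)
      (fun s => (hd s).deriv) s 0
    simp only [hF.zero] at h1
    linarith
  have hsnd : ∀ s p, HasDerivAt (fun r => (G (r, p)).2) (b (G (s, p))) s := by
    intro s p
    have h1 := (hF.deriv s p).hasFDerivAt.snd.hasDerivAt
    simpa [XX] using h1
  -- uniqueness
  have huniq : ∀ c : ℝ → E, (∀ t, HasDerivAt c (b (t, c t)) t) → ∀ t s,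
      c t = (G (t - s, (s, c s))).2 := by
    intro c hc t s
    have h1 := FlowC.uniq hX1 (t₀ := 0) (γ := fun r => (s + r, c (s + r)))
      (γ' := fun r => G (r, (s, c s))) (fun r => ?_) (fun r => hF.deriv r _)
      (by simp [hF.zero]) (t - s)
    · have h2 := congrArg Prod.snd h1
      simpa using h2
    · have h2 : HasDerivAt (fun r => s + r) 1 r := by
        simpa using (hasDerivAt_id r).const_add s
      have h3 : HasDerivAt (fun r => c (s + r)) (b (s + r, c (s + r))) r :=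
        (hc (s + r)).comp_const_add s r
      exact h2.prodMk h3
  refine ⟨fun q => (G (q.1 - q.2.1, (q.2.1, q.2.2))).2, ⟨?_, ?_, ?_, ?_⟩, ?_, ?_⟩
  · refine (hF.smooth.comp ?_).snd
    exact (contDiff_fst.sub contDiff_snd.fst).prodMk (contDiff_snd.fst.prodMk contDiff_snd.snd)
  · intro s x
    simp [hF.zero]
  · intro t s x
    have h1 := (hsnd (t - s) (s, x)).comp_sub_const t s
    have h2 : G (t - s, (s, x)) = (t, (G (t - s, (s, x))).2) := by
      refine Prod.ext ?_ rfl
      rw [hfst]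
      simp
    simp only
    rw [← h2]
    exact h1
  · intro t s r x
    simp only
    have h2 : (s, (G (s - r, (r, x))).2) = G (s - r, (r, x)) := by
      refine Prod.ext ?_ rfl
      rw [hfst]
      simp
    rw [h2, hF.group]
    congr 3
    ring
  · intro t s x hx
    have h1 := huniq (fun _ => x) (fun t => by
      rw [hb.supp t x hx]
      exact hasDerivAt_const t x) t s
    exact h1.symm
  · intro c hc t s
    exact huniq c hc t s

end MPfab
end

section
/-!
MP_fabde4_an, toolbox B, module FTAN (helper40): the evolution of a tangential field preserves the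
domain and its boundary.
-/
set_option autoImplicit false
open MeasureTheory Set Filter Topology

namespace MPfab

theorem specFtan (hH : SpecHadT) : SpecFtan := by
  intro ρ b F R hρ hb ht hF t s x
  have hb1 : ∀ r : ℝ, Continuous fun y : E => b (r, y) := fun r =>
    hb.smooth.continuous.comp (continuous_const.prodMk continuous_id)
  have hg : Sm fun p : ℝ × E => fderiv ℝ ρ p.2 (b p) := by
    have h1 : Sm (fderiv ℝ ρ) :=
      hρ.smooth.fderiv_right (m := ((⊤ : ENat) : WithTop ENat)) (by simp)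
    exact (h1.comp contDiff_snd).clm_apply hb.smooth
  obtain ⟨h, hs, hh⟩ := hH ℝ ρ _ hρ hg (fun r y hy => ht r y hy)
  set a : ℝ → ℝ := fun r => h (r, F (r, s, x)) with ha
  have hFc : Continuous fun r : ℝ => F (r, s, x) :=
    hF.smooth.continuous.comp (continuous_id.prodMk continuous_const)
  have hac : Continuous a := hs.continuous.comp (continuous_id.prodMk hFc)
  set A : ℝ → ℝ := fun r => ∫ u in s..r, a u with hA
  have hA1 : ∀ r, HasDerivAt A (a r) r := fun r =>
    intervalIntegral.integral_hasDerivAt_right (hac.intervalIntegrable _ _)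
      hac.aestronglyMeasurable.stronglyMeasurableAtFilter hac.continuousAt
  have hf : ∀ r, HasDerivAt (fun r => ρ (F (r, s, x))) (ρ (F (r, s, x)) * a r) r := by
    intro r
    have h1 := (hρ.smooth.differentiable (F (r, s, x))).hasFDerivAt.comp_hasDerivAt r
      (hF.deriv r s x)
    have h2 := hh r (F (r, s, x))
    simp only [smul_eq_mul] at h2
    rw [h2] at h1
    exact h1
  have hconst : ∀ r, ρ (F (r, s, x)) * Real.exp (-A r) = ρ x := by
    have h1 : ∀ r, HasDerivAt (fun r => ρ (F (r, s, x)) * Real.exp (-A r)) 0 r := by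
      intro r
      have h2 := (hf r).mul ((hA1 r).neg.exp)
      have h3 : ρ (F (r, s, x)) * a r * Real.exp (-A r) +
          ρ (F (r, s, x)) * (Real.exp (-A r) * -a r) = 0 := by ring
      rw [← h3]
      exact h2
    intro r
    have h2 := is_const_of_deriv_eq_zero (fun r => (h1 r).differentiableAt)
      (fun r => (h1 r).deriv) r s
    simp only [hF.init, hA, intervalIntegral.integral_same, neg_zero, Real.exp_zero, mul_one] at h2
    exact h2
  have hE : 0 < Real.exp (-A t) := Real.exp_pos _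
  have h1 := hconst t
  rw [← h1]
  constructor
  · constructor
    · intro h2
      exact mul_neg_of_neg_of_pos h2 hE
    · intro h2
      by_contra h3
      push Not at h3
      have := mul_nonneg h3 hE.le
      linarith
  · constructor
    · intro h2
      rw [h2, zero_mul]
    · intro h2
      rcases mul_eq_zero.mp h2 with h3 | h3
      · exact h3
      · exact absurd h3 hE.ne'

end MPfab
end

section
/-!
MP_fabde4_an, toolbox B, module LERAY (helper4): the Leray projection with bounds.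
-/
set_option autoImplicit false
open MeasureTheory Set Filter Topology

namespace MPfab

namespace Ler

open Neu

lemma integrableOn_D {F : Type*} [NormedAddCommGroup F] {ρ : E → ℝ} (h : Dom ρ) {f : E → F}
    (hf : Continuous f) : IntegrableOn f (D ρ) :=
  (hf.continuousOn.integrableOn_compact h.bdd.isCompact_closure).mono_set subset_closure

lemma curl_sub {v w : E → E} (hv : Sm v) (hw : Sm w) (x : E) :
    curl (fun y => v y - w y) x = curl v x - curl w x := by
  have h : ∀ i, pd i (fun y => v y - w y) x = pd i v x - pd i w x := by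
    intro i
    unfold pd
    rw [fderiv_fun_sub hv.differentiable.differentiableAt hw.differentiable.differentiableAt]
    rfl
  ext j
  fin_cases j <;> simp [h] <;> ring

lemma pd_sub {F : Type*} [NormedAddCommGroup F] [NormedSpace ℝ F] {v w : E → F} (hv : Sm v)
    (hw : Sm w) (i : Fin 3) (x : E) : pd i (fun y => v y - w y) x = pd i v x - pd i w x := by
  unfold pd
  rw [fderiv_fun_sub hv.differentiable.differentiableAt hw.differentiable.differentiableAt]
  rfl

lemma pd_add {F : Type*} [NormedAddCommGroup F] [NormedSpace ℝ F] {v w : E → F} (hv : Sm v)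
    (hw : Sm w) (i : Fin 3) (x : E) : pd i (fun y => v y + w y) x = pd i v x + pd i w x := by
  unfold pd
  rw [fderiv_fun_add hv.differentiable.differentiableAt hw.differentiable.differentiableAt]
  rfl

lemma pd_smul {F : Type*} [NormedAddCommGroup F] [NormedSpace ℝ F] {v : E → F} (hv : Sm v)
    (c : ℝ) (i : Fin 3) (x : E) : pd i (fun y => c • v y) x = c • pd i v x := by
  unfold pd
  rw [fderiv_fun_const_smul hv.differentiable.differentiableAt]
  rfl

lemma gr_add {f g : E → ℝ} (hf : Sm f) (hg : Sm g) (x : E) :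
    gr (fun y => f y + g y) x = gr f x + gr g x := by
  ext i
  simp [pd_add hf hg]

lemma gr_sub {f g : E → ℝ} (hf : Sm f) (hg : Sm g) (x : E) :
    gr (fun y => f y - g y) x = gr f x - gr g x := by
  ext i
  simp [pd_sub hf hg]

lemma gr_smul {f : E → ℝ} (hf : Sm f) (c : ℝ) (x : E) :
    gr (fun y => c * f y) x = c • gr f x := by
  ext i
  have := pd_smul hf c i x
  simpa using this

lemma dv_sub {v w : E → E} (hv : Sm v) (hw : Sm w) (x : E) :
    dv (fun y => v y - w y) x = dv v x - dv w x := by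
  unfold dv
  rw [← Finset.sum_sub_distrib]
  refine Finset.sum_congr rfl fun i _ => ?_
  rw [pd_sub hv hw]
  rfl

lemma dv_add {v w : E → E} (hv : Sm v) (hw : Sm w) (x : E) :
    dv (fun y => v y + w y) x = dv v x + dv w x := by
  unfold dv
  rw [← Finset.sum_add_distrib]
  refine Finset.sum_congr rfl fun i _ => ?_
  rw [pd_add hv hw]
  rfl

lemma dv_smul {v : E → E} (hv : Sm v) (c : ℝ) (x : E) :
    dv (fun y => c • v y) x = c * dv v x := by
  unfold dv
  rw [Finset.mul_sum]
  refine Finset.sum_congr rfl fun i _ => ?_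
  rw [pd_smul hv]
  rfl

/-- product rule for the divergence -/
lemma dv_mul {f : E → ℝ} {v : E → E} (hf : Sm f) (hv : Sm v) (x : E) :
    dv (fun y => f y • v y) x = f x * dv v x + inner ℝ (v x) (gr f x) := by
  unfold dv
  rw [inner_eq, Finset.mul_sum, ← Finset.sum_add_distrib]
  refine Finset.sum_congr rfl fun i _ => ?_
  unfold pd
  rw [fderiv_fun_smul hf.differentiable.differentiableAt hv.differentiable.differentiableAt]
  simp only [add_apply, smul_apply,
    ContinuousLinearMap.smulRight_apply, PiLp.add_apply, PiLp.smul_apply, smul_eq_mul, gr_apply]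
  unfold pd
  ring

lemma inX_add {ρ : E → ℝ} {v w : E → E} (hv : InX ρ v) (hw : InX ρ w) :
    InX ρ fun x => v x + w x := by
  refine ⟨hv.smooth.add hw.smooth, fun x hx => ?_, fun x hx => ?_⟩
  · rw [dv_add hv.smooth hw.smooth, hv.dv0 x hx, hw.dv0 x hx, add_zero]
  · rw [map_add, hv.tan x hx, hw.tan x hx, add_zero]

lemma inX_sub {ρ : E → ℝ} {v w : E → E} (hv : InX ρ v) (hw : InX ρ w) :
    InX ρ fun x => v x - w x := by
  refine ⟨hv.smooth.sub hw.smooth, fun x hx => ?_, fun x hx => ?_⟩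
  · rw [dv_sub hv.smooth hw.smooth, hv.dv0 x hx, hw.dv0 x hx, sub_zero]
  · rw [map_sub, hv.tan x hx, hw.tan x hx, sub_zero]

lemma inX_smul {ρ : E → ℝ} {v : E → E} (hv : InX ρ v) (c : ℝ) :
    InX ρ fun x => c • v x := by
  refine ⟨hv.smooth.const_smul c, fun x hx => ?_, fun x hx => ?_⟩
  · rw [dv_smul hv.smooth, hv.dv0 x hx, mul_zero]
  · rw [map_smul, hv.tan x hx, smul_zero]

/-- points of `ρ ≤ 0` are limits of points of `D ρ` -/
lemma closure_D {ρ : E → ℝ} (h : Dom ρ) {x : E} (hx : ρ x ≤ 0) : x ∈ closure (D ρ) := by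
  rcases lt_or_eq_of_le hx with hx | hx
  · exact subset_closure hx
  have h1 := h.reg x hx
  obtain ⟨v, hv⟩ : ∃ v, fderiv ℝ ρ x v ≠ 0 := by
    by_contra hcon
    push Not at hcon
    exact h1 (ContinuousLinearMap.ext hcon)
  obtain ⟨v, hv⟩ : ∃ v, fderiv ℝ ρ x v < 0 := by
    rcases lt_or_gt_of_ne hv with h2 | h2
    · exact ⟨v, h2⟩
    · exact ⟨-v, by rw [map_neg]; linarith⟩
  -- derivative along the line
  have h2 : HasDerivAt (fun t : ℝ => ρ (x + t • v)) (fderiv ℝ ρ x v) 0 := by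
    have h3 : HasDerivAt (fun t : ℝ => x + t • v) v 0 := by
      simpa using ((hasDerivAt_id (0 : ℝ)).smul_const v).const_add x
    have h4 : HasFDerivAt ρ (fderiv ℝ ρ x) (x + (0 : ℝ) • v) := by
      simpa using h.smooth.differentiable.differentiableAt.hasFDerivAt
    exact h4.comp_hasDerivAt (0 : ℝ) h3
  have h3 : ∀ᶠ t in 𝓝[>] (0 : ℝ), ρ (x + t • v) < 0 := by
    have h4 := h2.tendsto_slope
    have h5 : ∀ᶠ t in 𝓝[≠] (0 : ℝ), slope (fun t : ℝ => ρ (x + t • v)) 0 t < 0 :=
      h4.eventually (gt_mem_nhds hv)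
    have h6 : ∀ᶠ t in 𝓝[>] (0 : ℝ), slope (fun t : ℝ => ρ (x + t • v)) 0 t < 0 :=
      h5.filter_mono (nhdsWithin_mono _ (fun t ht => ne_of_gt ht))
    filter_upwards [h6, self_mem_nhdsWithin] with t ht ht0
    have ht0' : (0 : ℝ) < t := ht0
    rw [slope_def_field] at ht
    simp only [zero_smul, add_zero, hx, sub_zero] at ht
    by_contra hcon
    push Not at hcon
    have : 0 ≤ ρ (x + t • v) / t := div_nonneg hcon ht0'.le
    linarith
  have h4 : Tendsto (fun t : ℝ => x + t • v) (𝓝[>] 0) (𝓝 x) := by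
    have h5 : Tendsto (fun t : ℝ => x + t • v) (𝓝 0) (𝓝 (x + (0 : ℝ) • v)) :=
      (continuous_const.add (continuous_id.smul continuous_const)).tendsto _
    rw [zero_smul, add_zero] at h5
    exact h5.mono_left nhdsWithin_le_nhds
  exact mem_closure_of_tendsto h4 h3

/-- equality of continuous functions passes from `D` to its closure -/
lemma eq_closure {F : Type*} [TopologicalSpace F] [T2Space F] {ρ : E → ℝ} (h : Dom ρ)
    {f g : E → F} (hf : Continuous f) (hg : Continuous g) (he : ∀ x ∈ D ρ, f x = g x) :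
    ∀ x, ρ x ≤ 0 → f x = g x := by
  intro x hx
  have h1 : closure (D ρ) ⊆ {y | f y = g y} :=
    closure_minimal he (isClosed_eq hf hg)
  exact h1 (closure_D h hx)

/-- orthogonality: `∫ w·∇φ = 0` for `w ∈ X` -/
lemma orth (hG : SpecGauss) {ρ : E → ℝ} (h : Dom ρ) {w : E → E} (hw : InX ρ w) {φ : E → ℝ}
    (hφ : Sm φ) : ∫ x in D ρ, inner ℝ (w x) (gr φ x) = 0 := by
  have h1 := hG ρ h (fun x => φ x • w x) (hφ.smul hw.smooth) (fun x hx => by
    rw [map_smul, hw.tan x hx, smul_zero])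
  rw [← h1]
  refine setIntegral_congr_fun (measurableSet_D h) fun x hx => ?_
  have h2 := dv_mul hφ hw.smooth x
  rw [hw.dv0 x (le_of_lt hx), mul_zero, zero_add] at h2
  exact h2.symm

/-- a gradient in `X` vanishes -/
lemma gr_eq_zero (hG : SpecGauss) {ρ : E → ℝ} (h : Dom ρ) {φ : E → ℝ} (hφ : Sm φ)
    (hX : InX ρ (gr φ)) : ∀ x ∈ D ρ, gr φ x = 0 := by
  have h1 := orth hG h hX hφ
  have h2 : ∀ x ∈ D ρ, inner ℝ (gr φ x) (gr φ x) = (0 : ℝ) := by
    by_contra hcon
    push Not at hcon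
    obtain ⟨x, hx, hne⟩ := hcon
    have hcont : Continuous fun x => inner ℝ (gr φ x) (gr φ x) :=
      hφ.gr.continuous.inner hφ.gr.continuous
    have hpos : 0 < inner ℝ (gr φ x) (gr φ x) :=
      lt_of_le_of_ne real_inner_self_nonneg (Ne.symm hne)
    have h3 : 0 < ∫ x in D ρ, inner ℝ (gr φ x) (gr φ x) := by
      rw [setIntegral_pos_iff_support_of_nonneg_ae
        (Eventually.of_forall fun x => real_inner_self_nonneg) (integrableOn_D h hcont)]
      have h4 : IsOpen ((Function.support fun x => inner ℝ (gr φ x) (gr φ x)) ∩ D ρ) :=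
        (hcont.isOpen_support).inter (isOpen_D h)
      exact h4.measure_pos volume ⟨x, ne_of_gt hpos, hx⟩
    linarith
  intro x hx
  exact inner_self_eq_zero.mp (h2 x hx)

lemma const_of_gr {ρ : E → ℝ} (h : Dom ρ) (hc : IsConnected (D ρ)) {φ : E → ℝ} (hφ : Sm φ)
    (h0 : ∀ x ∈ D ρ, gr φ x = 0) : ∃ c, ∀ x ∈ D ρ, φ x = c := by
  obtain ⟨a, ha⟩ := (isOpen_D h).exists_is_const_of_fderiv_eq_zero hc.isPreconnected
    hφ.differentiable.differentiableOn (fun x hx => by
      ext v
      rw [← inner_gr, h0 x hx]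
      simp)
  exact ⟨a, ha⟩

/-- the normalized potential of a field -/
structure Pot (ρ : E → ℝ) (m : E → E) (φ : E → ℝ) : Prop where
  smooth : Sm φ
  inX : InX ρ fun x => m x - gr φ x
  mean : ∫ x in D ρ, φ x = 0

lemma exists_pot (hN : SpecNeu) {ρ : E → ℝ} (h : DomN ρ) (hc : IsConnected (D ρ)) {m : E → E}
    (hm : Sm m) : ∃ φ, Pot ρ m φ := by
  obtain ⟨φ, hφ, hX⟩ := hN ρ m h hc hm
  have hDom := h.toDom
  have hv : 0 < (volume (D ρ)).toReal :=
    ENNReal.toReal_pos ((isOpen_D hDom).measure_pos volume hc.nonempty).ne'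
      (volume_D_lt hDom).ne
  set c : ℝ := (∫ x in D ρ, φ x) / (volume (D ρ)).toReal with hcdef
  have hg : ∀ x, gr (fun y => φ y - c) x = gr φ x := by
    intro x
    ext i
    simp only [gr_apply, pd, fderiv_sub_const]
  refine ⟨fun x => φ x - c, hφ.sub contDiff_const, ?_, ?_⟩
  · simp only [hg]
    exact hX
  · rw [integral_sub (integrableOn_D hDom hφ.continuous)
      (integrableOn_D hDom continuous_const)]
    rw [setIntegral_const, hcdef, smul_eq_mul]
    unfold Measure.real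
    field_simp
    ring

lemma pot_unique (hG : SpecGauss) {ρ : E → ℝ} (h : DomN ρ) (hc : IsConnected (D ρ))
    {m : E → E} {φ ψ : E → ℝ} (h1 : Pot ρ m φ) (h2 : Pot ρ m ψ) : ∀ x ∈ D ρ, φ x = ψ x := by
  have hDom := h.toDom
  have hd : Sm fun x => φ x - ψ x := h1.smooth.sub h2.smooth
  have hX : InX ρ (gr fun x => φ x - ψ x) := by
    have h3 := inX_sub h2.inX h1.inX
    have h4 : (fun x => (m x - gr ψ x) - (m x - gr φ x)) = gr fun x => φ x - ψ x := by
      funext x
      rw [gr_sub h1.smooth h2.smooth]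
      abel
    rw [h4] at h3
    exact h3
  obtain ⟨c, hc'⟩ := const_of_gr hDom hc hd (gr_eq_zero hG hDom hd hX)
  have hmean : ∫ x in D ρ, (φ x - ψ x) = 0 := by
    rw [integral_sub (integrableOn_D hDom h1.smooth.continuous)
      (integrableOn_D hDom h2.smooth.continuous), h1.mean, h2.mean, sub_zero]
  have h3 : ∫ x in D ρ, (φ x - ψ x) = (volume (D ρ)).toReal * c := by
    rw [setIntegral_congr_fun (measurableSet_D hDom) (g := fun _ => c) fun x hx => hc' x hx]
    rw [setIntegral_const, smul_eq_mul]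
    rfl
  have hv : 0 < (volume (D ρ)).toReal :=
    ENNReal.toReal_pos ((isOpen_D hDom).measure_pos volume hc.nonempty).ne'
      (volume_D_lt hDom).ne
  have hc0 : c = 0 := by
    rw [hmean] at h3
    rcases mul_eq_zero.mp h3.symm with h4 | h4
    · exact absurd h4 hv.ne'
    · exact h4
  intro x hx
  have := hc' x hx
  rw [hc0] at this
  linarith

/-- choice of the potential -/
noncomputable def phi (ρ : E → ℝ) (m : E → E) : E → ℝ := by
  classical
  exact if h : ∃ φ, Pot ρ m φ then h.choose else 0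

lemma phi_spec {ρ : E → ℝ} {m : E → E} (h : ∃ φ, Pot ρ m φ) : Pot ρ m (phi ρ m) := by
  unfold phi
  rw [dif_pos h]
  exact h.choose_spec

/-! ### norms -/

lemma hs_zero_fun {F : Type*} [NormedAddCommGroup F] [NormedSpace ℝ F] (S : Set E) (k : ℕ) :
    hs S k (fun _ : E => (0 : F)) = 0 := by
  induction k with
  | zero => simp [hs]
  | succ k ih =>
    have h1 : ∀ i, pd i (fun _ : E => (0 : F)) = fun _ => 0 := by
      intro i
      funext x
      simp [pd]
    simp only [hs]
    simp [h1, ih]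

lemma hs_nonneg {F : Type*} [NormedAddCommGroup F] [NormedSpace ℝ F] (S : Set E) (k : ℕ)
    (f : E → F) : 0 ≤ hs S k f := by
  induction k generalizing f with
  | zero => exact integral_nonneg fun x => by positivity
  | succ k ih =>
    exact add_nonneg (integral_nonneg fun x => by positivity)
      (Finset.sum_nonneg fun i _ => ih _)

lemma hs_pd_le {F : Type*} [NormedAddCommGroup F] [NormedSpace ℝ F] (S : Set E)
    (k : ℕ) (f : E → F) (i : Fin 3) : hs S k (pd i f) ≤ hs S (k + 1) f := by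
  have h1 : hs S k (pd i f) ≤ ∑ j, hs S k (pd j f) :=
    Finset.single_le_sum (f := fun j => hs S k (pd j f)) (fun j _ => hs_nonneg S k _)
      (Finset.mem_univ i)
  have h2 : 0 ≤ ∫ x in S, ‖f x‖ ^ 2 := integral_nonneg fun x => by positivity
  have h3 : hs S (k + 1) f = (∫ x in S, ‖f x‖ ^ 2) + ∑ j, hs S k (pd j f) := rfl
  linarith

lemma hs_zero_le {F : Type*} [NormedAddCommGroup F] [NormedSpace ℝ F] (S : Set E)
    (k : ℕ) (f : E → F) : hs S 0 f ≤ hs S k f := by
  cases k with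
  | zero => exact le_rfl
  | succ k =>
    have h1 : 0 ≤ ∑ j, hs S k (pd j f) := Finset.sum_nonneg fun j _ => hs_nonneg S k _
    have h3 : hs S (k + 1) f = (∫ x in S, ‖f x‖ ^ 2) + ∑ j, hs S k (pd j f) := rfl
    have h4 : hs S 0 f = ∫ x in S, ‖f x‖ ^ 2 := rfl
    linarith

lemma hs_sub_le (hH : SpecHSB) {F : Type} [NormedAddCommGroup F] [NormedSpace ℝ F] {S : Set E}
    (hms : MeasurableSet S) (hbd : Bornology.IsBounded S) (k : ℕ) {f g : E → F} (hf : Sm f)
    (hg : Sm g) : hs S k (fun x => f x - g x) ≤ 2 * hs S k f + 2 * hs S k g := by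
  have h1 := hH.add_le F S k f (fun x => (-1 : ℝ) • g x) hms (Or.inl hbd) hf (hg.const_smul _)
  rw [hH.smul F S k (-1) g hg] at h1
  have h2 : (fun x => f x + (-1 : ℝ) • g x) = fun x => f x - g x := by
    funext x
    rw [neg_one_smul, sub_eq_add_neg]
  rw [h2] at h1
  linarith

/-- `|curl m|_{H^k} ≤ C |m|_{H^{k+1}}` -/
lemma hs_curl_le (hH : SpecHSB) {S : Set E} (hms : MeasurableSet S)
    (hbd : Bornology.IsBounded S) (k : ℕ) {m : E → E} (hm : Sm m) :
    hs S k (curl m) ≤ 12 * hs S (k + 1) m := by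
  rw [hH.comp S k (curl m) hms (Or.inl hbd) hm.curl]
  have key : ∀ i j : Fin 3, hs S k (fun x => pd i m x j) ≤ hs S (k + 1) m := by
    intro i j
    have h1 := hH.comp S k (pd i m) hms (Or.inl hbd) (hm.pd i)
    have h2 : hs S k (fun x => pd i m x j) ≤ ∑ l, hs S k (fun x => pd i m x l) :=
      Finset.single_le_sum (f := fun l => hs S k (fun x => pd i m x l))
        (fun l _ => hs_nonneg S k _) (Finset.mem_univ j)
    have h3 := hs_pd_le S k m i
    linarith
  have h2 : ∀ i j a b : Fin 3, hs S k (fun x => pd i m x j - pd a m x b) ≤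
      4 * hs S (k + 1) m := by
    intro i j a b
    have h3 := hs_sub_le hH hms hbd k ((hm.pd i).comp_apply j) ((hm.pd a).comp_apply b)
    have h4 := key i j
    have h5 := key a b
    linarith
  rw [Fin.sum_univ_three]
  have e0 : (fun x => curl m x 0) = fun x => pd 1 m x 2 - pd 2 m x 1 := rfl
  have e1 : (fun x => curl m x 1) = fun x => pd 2 m x 0 - pd 0 m x 2 := rfl
  have e2 : (fun x => curl m x 2) = fun x => pd 0 m x 1 - pd 1 m x 0 := rfl
  rw [e0, e1, e2]
  have := h2 1 2 2 1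
  have := h2 2 0 0 2
  have := h2 0 1 1 0
  linarith

end Ler

open Neu Ler

theorem specLeray (hNeu : SpecNeu) (hPoin : SpecPoin) (hSeel : SpecSeel) (hNorm : SpecNormal)
    (hG : SpecGauss) (hDC : SpecDivCurl) (hPDC : SpecPDC) (hH : SpecHSB) : SpecLeray := by
  intro ρ0 R hρ0 hc0 hR0
  obtain ⟨ρ, hρ, hlt, heq, V, hV, hV0, hVe⟩ := hNorm ρ0 hρ0
  have hDeq : D ρ = D ρ0 := by
    ext x
    exact hlt x
  have hle : ∀ x, ρ x ≤ 0 ↔ ρ0 x ≤ 0 := by
    intro x
    rw [le_iff_lt_or_eq, le_iff_lt_or_eq, hlt, heq]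
  have hfd : ∀ x, ρ x = 0 → fderiv ℝ ρ x = fderiv ℝ ρ0 x := by
    intro x hx
    have h1 : x ∈ V := hV0 (le_of_eq ((heq x).mp hx))
    refine Filter.EventuallyEq.fderiv_eq ?_
    filter_upwards [hV.mem_nhds h1] with y hy using hVe y hy
  have hX : ∀ w, InX ρ w ↔ InX ρ0 w := by
    intro w
    constructor
    · rintro ⟨h1, h2, h3⟩
      refine ⟨h1, fun x hx => h2 x ((hle x).mpr hx), fun x hx => ?_⟩
      rw [← hfd x ((heq x).mpr hx)]
      exact h3 x ((heq x).mpr hx)
    · rintro ⟨h1, h2, h3⟩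
      refine ⟨h1, fun x hx => h2 x ((hle x).mp hx), fun x hx => ?_⟩
      rw [hfd x hx]
      exact h3 x ((heq x).mp hx)
  have hc : IsConnected (D ρ) := by rw [hDeq]; exact hc0
  have hDom : Dom ρ := hρ.toDom
  have hR : ∀ x, ρ x ≤ 0 → ‖x‖ < R := fun x hx => hR0 x ((hle x).mp hx)
  obtain ⟨Ex, hEx⟩ := hSeel ρ R hρ hR
  have hbd : Bornology.IsBounded (D ρ) := hDom.bdd
  have hms : MeasurableSet (D ρ) := measurableSet_D hDom
  -- the potential
  have hphi : ∀ m, Sm m → Pot ρ m (phi ρ m) := fun m hm => phi_spec (exists_pot hNeu hρ hc hm)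
  have hphiu : ∀ m φ, Sm m → Pot ρ m φ → ∀ x ∈ D ρ, phi ρ m x = φ x :=
    fun m φ hm h => pot_unique hG hρ hc (hphi m hm) h
  -- gradients of functions that agree on D
  have hgrD : ∀ f g : E → ℝ, (∀ x ∈ D ρ, f x = g x) → ∀ x ∈ D ρ, gr f x = gr g x := by
    intro f g hfg x hx
    ext i
    exact pd_congr (isOpen_D hDom) hfg i hx
  set W : (E → E) → E → E := fun m x => m x - gr (phi ρ m) x with hWdef
  have hWs : ∀ m, Sm m → Sm (W m) := fun m hm => hm.sub (hphi m hm).smooth.gr
  have hWX : ∀ m, Sm m → InX ρ (W m) := fun m hm => (hphi m hm).inX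
  set P : (E → E) → E → E := fun m x => WithLp.toLp 2 fun j => Ex (fun y => W m y j) x with hPdef
  set Q : (E → E) → E → ℝ := fun m => Ex (phi ρ m) with hQdef
  -- linearity of the potential
  have hphi_add : ∀ m m', Sm m → Sm m' → ∀ x ∈ D ρ,
      phi ρ (fun x => m x + m' x) x = phi ρ m x + phi ρ m' x := by
    intro m m' hm hm'
    refine hphiu _ _ (hm.add hm') ⟨(hphi m hm).smooth.add (hphi m' hm').smooth, ?_, ?_⟩
    · have h1 := inX_add (hWX m hm) (hWX m' hm')
      have h2 : (fun x => W m x + W m' x) =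
          fun x => (m x + m' x) - gr (fun y => phi ρ m y + phi ρ m' y) x := by
        funext x
        rw [gr_add (hphi m hm).smooth (hphi m' hm').smooth]
        simp only [hWdef]
        abel
      rw [h2] at h1
      exact h1
    · rw [integral_add (integrableOn_D hDom (hphi m hm).smooth.continuous)
        (integrableOn_D hDom (hphi m' hm').smooth.continuous), (hphi m hm).mean,
        (hphi m' hm').mean, add_zero]
  have hphi_smul : ∀ (c : ℝ) m, Sm m → ∀ x ∈ D ρ,
      phi ρ (fun x => c • m x) x = c * phi ρ m x := by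
    intro c m hm
    refine hphiu _ _ (hm.const_smul c) ⟨contDiff_const.mul (hphi m hm).smooth, ?_, ?_⟩
    · have h1 := inX_smul (hWX m hm) c
      have h2 : (fun x => c • W m x) =
          fun x => (c • m x) - gr (fun y => c * phi ρ m y) x := by
        funext x
        rw [gr_smul (hphi m hm).smooth]
        simp only [hWdef]
        rw [smul_sub]
      rw [h2] at h1
      exact h1
    · rw [integral_const_mul, (hphi m hm).mean, mul_zero]
  have hphi_loc : ∀ m m', Sm m → Sm m' → (∀ x ∈ D ρ, m x = m' x) → ∀ x ∈ D ρ,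
      phi ρ m x = phi ρ m' x := by
    intro m m' hm hm' he
    refine hphiu m _ hm ⟨(hphi m' hm').smooth, ?_, (hphi m' hm').mean⟩
    have h1 := hWX m' hm'
    have hs : Sm fun x => m x - gr (phi ρ m') x := hm.sub (hphi m' hm').smooth.gr
    have he' : ∀ x ∈ D ρ, m x - gr (phi ρ m') x = W m' x := by
      intro x hx
      rw [he x hx]
    refine ⟨hs, ?_, ?_⟩
    · refine eq_closure hDom hs.dv.continuous continuous_const fun x hx => ?_
      have h2 : dv (fun x => m x - gr (phi ρ m') x) x = dv (W m') x := by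
        unfold dv
        refine Finset.sum_congr rfl fun i _ => ?_
        rw [pd_congr (isOpen_D hDom) he' i hx]
      rw [h2]
      exact h1.dv0 x (le_of_lt hx)
    · intro x hx
      have h3 := eq_closure hDom hs.continuous h1.smooth.continuous he' x (le_of_eq hx)
      change fderiv ℝ ρ x (m x - gr (phi ρ m') x) = 0
      rw [h3]
      exact h1.tan x hx
  -- W
  have hW_add : ∀ m m', Sm m → Sm m' → ∀ x ∈ D ρ,
      W (fun x => m x + m' x) x = W m x + W m' x := by
    intro m m' hm hm' x hx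
    simp only [hWdef]
    rw [hgrD _ _ (hphi_add m m' hm hm') x hx, gr_add (hphi m hm).smooth (hphi m' hm').smooth]
    abel
  have hW_smul : ∀ (c : ℝ) m, Sm m → ∀ x ∈ D ρ, W (fun x => c • m x) x = c • W m x := by
    intro c m hm x hx
    simp only [hWdef]
    rw [hgrD _ _ (hphi_smul c m hm) x hx, gr_smul (hphi m hm).smooth, smul_sub]
  have hW_loc : ∀ m m', Sm m → Sm m' → (∀ x ∈ D ρ, m x = m' x) → ∀ x ∈ D ρ,
      W m x = W m' x := by
    intro m m' hm hm' he x hx
    simp only [hWdef]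
    rw [he x hx, hgrD _ _ (hphi_loc m m' hm hm' he) x hx]
  have hPs : ∀ m, Sm m → Sm (P m) := by
    intro m hm
    rw [sm_iff]
    intro j
    exact (hEx.supp _ ((hWs m hm).comp_apply j)).smooth
  have hPin : ∀ m, Sm m → In R (P m) := by
    intro m hm
    refine ⟨hPs m hm, fun x hx => ?_⟩
    ext j
    exact (hEx.supp _ ((hWs m hm).comp_apply j)).supp x hx
  have hPW : ∀ m, Sm m → ∀ x, ρ x ≤ 0 → P m x = W m x := by
    intro m hm x hx
    ext j
    exact hEx.eq _ ((hWs m hm).comp_apply j) x hx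
  have hQin : ∀ m, Sm m → In R (Q m) := fun m hm => hEx.supp _ (hphi m hm).smooth
  have hQphi : ∀ m, Sm m → ∀ x, ρ x ≤ 0 → Q m x = phi ρ m x :=
    fun m hm x hx => hEx.eq _ (hphi m hm).smooth x hx
  have hgrQ : ∀ m, Sm m → ∀ x, ρ x ≤ 0 → gr (Q m) x = gr (phi ρ m) x := by
    intro m hm
    refine eq_closure hDom (hQin m hm).smooth.gr.continuous (hphi m hm).smooth.gr.continuous ?_
    exact hgrD _ _ fun x hx => hQphi m hm x (le_of_lt hx)
  have hdec : ∀ m, Sm m → ∀ x, ρ x ≤ 0 → m x - P m x = gr (Q m) x := by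
    intro m hm x hx
    rw [hPW m hm x hx, hgrQ m hm x hx]
    simp only [hWdef]
    abel
  -- L² bound
  have hL2 : ∀ m, Sm m → hs (D ρ) 0 (W m) ≤ hs (D ρ) 0 m := by
    intro m hm
    simp only [hs]
    have h1 : ∫ x in D ρ, ‖m x‖ ^ 2 = ∫ x in D ρ, (‖W m x‖ ^ 2 +
        (2 * inner ℝ (W m x) (gr (phi ρ m) x) + ‖gr (phi ρ m) x‖ ^ 2)) := by
      refine setIntegral_congr_fun hms fun x _ => ?_
      have h2 : m x = W m x + gr (phi ρ m) x := by
        simp only [hWdef]
        abel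
      change ‖m x‖ ^ 2 = _
      rw [h2, norm_add_sq_real]
      ring_nf
    have hcW : Continuous fun x => ‖W m x‖ ^ 2 := (hWs m hm).continuous.norm.pow 2
    have hcg : Continuous fun x => ‖gr (phi ρ m) x‖ ^ 2 :=
      (hphi m hm).smooth.gr.continuous.norm.pow 2
    have hci : Continuous fun x => inner ℝ (W m x) (gr (phi ρ m) x) :=
      (hWs m hm).continuous.inner (hphi m hm).smooth.gr.continuous
    have i1 : IntegrableOn (fun x => ‖W m x‖ ^ 2) (D ρ) := integrableOn_D hDom hcW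
    have i2 : IntegrableOn (fun x => 2 * inner ℝ (W m x) (gr (phi ρ m) x)) (D ρ) :=
      integrableOn_D hDom (continuous_const.mul hci)
    have i3 : IntegrableOn (fun x => ‖gr (phi ρ m) x‖ ^ 2) (D ρ) := integrableOn_D hDom hcg
    have i4 : IntegrableOn (fun x => 2 * inner ℝ (W m x) (gr (phi ρ m) x) +
      ‖gr (phi ρ m) x‖ ^ 2) (D ρ) := i2.add i3
    rw [h1, integral_add i1 i4, integral_add i2 i3,
      integral_const_mul, orth hG hDom (hWX m hm) (hphi m hm).smooth]
    have h3 : 0 ≤ ∫ x in D ρ, ‖gr (phi ρ m) x‖ ^ 2 :=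
      integral_nonneg fun x => by positivity
    linarith
  -- W in H^k
  have hcurlW : ∀ m, Sm m → curl (W m) = curl m := by
    intro m hm
    funext x
    have h1 := curl_sub hm (hphi m hm).smooth.gr x
    rw [hPDC.curl_gr _ (hphi m hm).smooth, sub_zero] at h1
    exact h1
  have hdvW : ∀ m k, Sm m → hs (D ρ) k (dv (W m)) = 0 := by
    intro m k hm
    rw [hH.congr ℝ (D ρ) k (dv (W m)) (fun _ => 0) (isOpen_D hDom)
      fun x hx => (hWX m hm).dv0 x (le_of_lt hx)]
    exact hs_zero_fun _ _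
  have hWk : ∀ k, ∃ C : ℝ, 0 ≤ C ∧ ∀ m, Sm m → hs (D ρ) (k + 1) (W m) ≤ C * nq (D ρ) k m := by
    intro k
    obtain ⟨C, hC0, hC⟩ := hDC ρ hDom k
    refine ⟨C, hC0, fun m hm => ?_⟩
    have h1 := hC (W m) (hWs m hm) (hWX m hm).tan
    rw [hcurlW m hm, hdvW m k hm] at h1
    have h2 := hL2 m hm
    unfold nq
    nlinarith
  have hWk' : ∀ k, ∃ C : ℝ, 0 ≤ C ∧ ∀ m, Sm m → hs (D ρ) k (W m) ≤ C * hs (D ρ) k m := by
    intro k
    cases k with
    | zero => exact ⟨1, zero_le_one, fun m hm => by rw [one_mul]; exact hL2 m hm⟩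
    | succ k =>
      obtain ⟨C, hC0, hC⟩ := hWk k
      refine ⟨C * 13, by positivity, fun m hm => ?_⟩
      have h1 := hC m hm
      have h2 := hs_curl_le hH hms hbd k hm
      have h3 := hs_zero_le (D ρ) (k + 1) m
      unfold nq at h1
      nlinarith
  have hsup : ∀ {F : Type} [NormedAddCommGroup F] [NormedSpace ℝ F] {f : E → F}, In R f →
      HasCompactSupport f := by
    intro F _ _ f hf
    refine HasCompactSupport.intro (isCompact_closedBall (0 : E) R) fun x hx => ?_
    rw [mem_closedBall_zero_iff, not_le] at hx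
    exact hf.supp x hx.le
  refine ⟨P, Q, ?_, ?_, ?_, ?_, ?_, ?_, hPin, hQin, ?_, ?_, ?_, ?_, ?_, ?_⟩
  · -- addP
    intro m m' hm hm'
    funext x
    ext j
    have h1 := hEx.loc (fun y => W (fun x => m x + m' x) y j) (fun y => W m y j + W m' y j)
      ((hWs _ (hm.add hm')).comp_apply j) (((hWs m hm).comp_apply j).add
        ((hWs m' hm').comp_apply j)) (fun y hy => by rw [hW_add m m' hm hm' y hy]; rfl)
    have h2 := hEx.add _ _ ((hWs m hm).comp_apply j) ((hWs m' hm').comp_apply j)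
    rw [h2] at h1
    exact congrFun h1 x
  · intro c m hm
    funext x
    ext j
    have h1 := hEx.loc (fun y => W (fun x => c • m x) y j) (fun y => c * W m y j)
      ((hWs _ (hm.const_smul c)).comp_apply j) (contDiff_const.mul ((hWs m hm).comp_apply j))
      (fun y hy => by rw [hW_smul c m hm y hy]; rfl)
    have h2 := hEx.smul c _ ((hWs m hm).comp_apply j)
    rw [h2] at h1
    exact congrFun h1 x
  · intro m m' hm hm'
    have h1 := hEx.loc (phi ρ fun x => m x + m' x) (fun y => phi ρ m y + phi ρ m' y)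
      (hphi _ (hm.add hm')).smooth ((hphi m hm).smooth.add (hphi m' hm').smooth)
      (hphi_add m m' hm hm')
    rw [hEx.add _ _ (hphi m hm).smooth (hphi m' hm').smooth] at h1
    exact h1
  · intro c m hm
    have h1 := hEx.loc (phi ρ fun x => c • m x) (fun y => c * phi ρ m y)
      (hphi _ (hm.const_smul c)).smooth (contDiff_const.mul (hphi m hm).smooth)
      (hphi_smul c m hm)
    rw [hEx.smul c _ (hphi m hm).smooth] at h1
    exact h1
  · intro m m' hm hm' he
    rw [← hDeq] at he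
    funext x
    ext j
    exact congrFun (hEx.loc (fun y => W m y j) (fun y => W m' y j) ((hWs m hm).comp_apply j)
      ((hWs m' hm').comp_apply j) (fun y hy => by rw [hW_loc m m' hm hm' he y hy])) x
  · intro m m' hm hm' he
    rw [← hDeq] at he
    exact hEx.loc _ _ (hphi m hm).smooth (hphi m' hm').smooth (hphi_loc m m' hm hm' he)
  · intro m hm x hx
    exact hdec m hm x ((hle x).mpr hx)
  · -- inX
    intro m hm
    rw [← hX]
    have h1 := hWX m hm
    refine ⟨hPs m hm, ?_, ?_⟩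
    · refine eq_closure hDom (hPs m hm).dv.continuous continuous_const fun x hx => ?_
      have h2 : dv (P m) x = dv (W m) x := by
        unfold dv
        refine Finset.sum_congr rfl fun i _ => ?_
        rw [pd_congr (isOpen_D hDom) (fun y hy => hPW m hm y (le_of_lt hy)) i hx]
      rw [h2]
      exact h1.dv0 x (le_of_lt hx)
    · intro x hx
      rw [hPW m hm x (le_of_eq hx)]
      exact h1.tan x hx
  · -- bdP
    intro k
    obtain ⟨C1, hC1⟩ := hEx.hsb (k + 1)
    obtain ⟨C2, hC20, hC2⟩ := hWk k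
    refine ⟨|C1| * C2, fun m hm => ?_⟩
    rw [← hDeq]
    rw [hH.comp univ (k + 1) (P m) MeasurableSet.univ (Or.inr (hsup (hPin m hm))) (hPs m hm)]
    have h1 : ∀ j, hs univ (k + 1) (fun x => P m x j) ≤
        |C1| * hs (D ρ) (k + 1) (fun x => W m x j) := by
      intro j
      have h2 := hC1 (fun y => W m y j) ((hWs m hm).comp_apply j)
      have h3 : (fun x => P m x j) = Ex (fun y => W m y j) := rfl
      rw [h3]
      have h4 : C1 * hs (D ρ) (k + 1) (fun y => W m y j) ≤
          |C1| * hs (D ρ) (k + 1) (fun y => W m y j) :=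
        mul_le_mul_of_nonneg_right (le_abs_self _) (hs_nonneg _ _ _)
      linarith
    calc ∑ j, hs univ (k + 1) (fun x => P m x j)
        ≤ ∑ j, |C1| * hs (D ρ) (k + 1) (fun x => W m x j) := Finset.sum_le_sum fun j _ => h1 j
      _ = |C1| * hs (D ρ) (k + 1) (W m) := by
          rw [hH.comp (D ρ) (k + 1) (W m) hms (Or.inl hbd) (hWs m hm), Finset.mul_sum]
      _ ≤ |C1| * (C2 * nq (D ρ) k m) := mul_le_mul_of_nonneg_left (hC2 m hm) (abs_nonneg _)
      _ = |C1| * C2 * nq (D ρ) k m := by ring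
  · -- bdQ
    intro k
    obtain ⟨C1, hC1⟩ := hEx.hsb (k + 1)
    obtain ⟨C2, hC20, hC2⟩ := hWk' k
    obtain ⟨C3, hC3⟩ := hPoin ρ hDom hc
    refine ⟨|C1| * ((|C3| + 1) * (2 + 2 * C2)), fun m hm => ?_⟩
    rw [← hDeq]
    have hφ := hphi m hm
    have h1 := hC1 (phi ρ m) hφ.smooth
    have hgr : gr (phi ρ m) = fun x => m x - W m x := by
      funext x
      simp only [hWdef]
      abel
    have h2 : hs (D ρ) k (gr (phi ρ m)) ≤ (2 + 2 * C2) * hs (D ρ) k m := by
      rw [hgr]
      have h3 := hs_sub_le hH hms hbd k hm (hWs m hm)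
      have h4 := hC2 m hm
      linarith
    have h3 : ∑ i, hs (D ρ) k (pd i (phi ρ m)) = hs (D ρ) k (gr (phi ρ m)) := by
      rw [hH.comp (D ρ) k (gr (phi ρ m)) hms (Or.inl hbd) hφ.smooth.gr]
      rfl
    have h4 : ∫ x in D ρ, ‖phi ρ m x‖ ^ 2 ≤ |C3| * hs (D ρ) k (gr (phi ρ m)) := by
      obtain ⟨c, hc⟩ := hC3 (phi ρ m) hφ.smooth
      have h5 : ∫ x in D ρ, ‖phi ρ m x‖ ^ 2 ≤ ∫ x in D ρ, (phi ρ m x - c) ^ 2 := by
        have i1 : IntegrableOn (fun x => phi ρ m x ^ 2) (D ρ) :=
          integrableOn_D hDom (hφ.smooth.continuous.pow 2)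
        have i2 : IntegrableOn (fun x => (-2 * c) * phi ρ m x) (D ρ) :=
          integrableOn_D hDom (continuous_const.mul hφ.smooth.continuous)
        have i3 : IntegrableOn (fun _ : E => c ^ 2) (D ρ) :=
          integrableOn_D hDom continuous_const
        have e1 : ∫ x in D ρ, (phi ρ m x - c) ^ 2 =
            ∫ x in D ρ, (phi ρ m x ^ 2 + ((-2 * c) * phi ρ m x + c ^ 2)) := by
          refine integral_congr_ae (Eventually.of_forall fun x => ?_)
          ring
        have e2 : ∫ x in D ρ, ‖phi ρ m x‖ ^ 2 = ∫ x in D ρ, phi ρ m x ^ 2 := by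
          refine integral_congr_ae (Eventually.of_forall fun x => ?_)
          simp
        have i4 : IntegrableOn (fun x => (-2 * c) * phi ρ m x + c ^ 2) (D ρ) := i2.add i3
        rw [e1, e2, integral_add i1 i4, integral_add i2 i3, integral_const_mul, hφ.mean]
        have h6 : 0 ≤ ∫ _ in D ρ, c ^ 2 := integral_nonneg fun _ => by positivity
        linarith
      have h6 : ∫ x in D ρ, ‖gr (phi ρ m) x‖ ^ 2 ≤ hs (D ρ) k (gr (phi ρ m)) :=
        hs_zero_le (D ρ) k (gr (phi ρ m))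
      have h7 : 0 ≤ ∫ x in D ρ, ‖gr (phi ρ m) x‖ ^ 2 := integral_nonneg fun x => by positivity
      have h8 : C3 * ∫ x in D ρ, ‖gr (phi ρ m) x‖ ^ 2 ≤
          |C3| * ∫ x in D ρ, ‖gr (phi ρ m) x‖ ^ 2 :=
        mul_le_mul_of_nonneg_right (le_abs_self _) h7
      have h9 := mul_le_mul_of_nonneg_left h6 (abs_nonneg C3)
      linarith
    have h5 : hs (D ρ) (k + 1) (phi ρ m) ≤ (|C3| + 1) * hs (D ρ) k (gr (phi ρ m)) := by
      have h6 : hs (D ρ) (k + 1) (phi ρ m) =
          (∫ x in D ρ, ‖phi ρ m x‖ ^ 2) + ∑ i, hs (D ρ) k (pd i (phi ρ m)) := rfl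
      rw [h6, h3]
      linarith
    calc hs univ (k + 1) (Q m) ≤ C1 * hs (D ρ) (k + 1) (phi ρ m) := h1
      _ ≤ |C1| * hs (D ρ) (k + 1) (phi ρ m) :=
          mul_le_mul_of_nonneg_right (le_abs_self _) (hs_nonneg _ _ _)
      _ ≤ |C1| * ((|C3| + 1) * hs (D ρ) k (gr (phi ρ m))) :=
          mul_le_mul_of_nonneg_left h5 (abs_nonneg _)
      _ ≤ |C1| * ((|C3| + 1) * ((2 + 2 * C2) * hs (D ρ) k m)) := by
          refine mul_le_mul_of_nonneg_left (mul_le_mul_of_nonneg_left h2 ?_) (abs_nonneg _)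
          positivity
      _ = |C1| * ((|C3| + 1) * (2 + 2 * C2)) * hs (D ρ) k m := by ring
  · -- l2
    intro m hm
    rw [← hDeq]
    have h1 := hL2 m hm
    have h2 : hs (D ρ) 0 (P m) = hs (D ρ) 0 (W m) :=
      hH.congr E (D ρ) 0 (P m) (W m) (isOpen_D hDom) fun x hx => hPW m hm x (le_of_lt hx)
    rw [h2]
    exact h1
  · -- uniq
    intro m φ hm hφ hXφ x hx
    rw [← hX] at hXφ
    have hx' := (hle x).mpr hx
    rw [hgrQ m hm x hx']
    have hd : Sm fun x => φ x - phi ρ m x := hφ.sub (hphi m hm).smooth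
    have hX1 : InX ρ (gr fun x => φ x - phi ρ m x) := by
      have h3 := inX_sub (hWX m hm) hXφ
      have h4 : (fun x => W m x - (m x - gr φ x)) = gr fun x => φ x - phi ρ m x := by
        funext x
        rw [gr_sub hφ (hphi m hm).smooth]
        simp only [hWdef]
        abel
      rw [h4] at h3
      exact h3
    have h1 := gr_eq_zero hG hDom hd hX1
    refine eq_closure hDom hφ.gr.continuous (hphi m hm).smooth.gr.continuous (fun y hy => ?_)
      x hx'
    have h2 := h1 y hy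
    rw [gr_sub hφ (hphi m hm).smooth] at h2
    exact sub_eq_zero.mp h2

end MPfab
end

section
/-!
MP_fabde4_an, toolbox B, module INTR (helper4): interior smoothness of the gradient projection.
-/
set_option autoImplicit false
open MeasureTheory Set Filter Topology

namespace MPfab

namespace Intr

open Neu Ler

/-- a test function of an open set times a function which is smooth there -/
lemma smooth_mul {D : Set E} (hD : IsOpen D) {l ψ : E → ℝ}
    (hl : ContDiffOn ℝ ((⊤ : ENat) : WithTop ENat) l D) (hψ : Test D ψ) :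
    Sm fun x => ψ x * l x := by
  rw [Sm, contDiff_iff_contDiffAt]
  intro x
  by_cases hx : x ∈ D
  · exact (hψ.smooth.contDiffAt).mul (hl.contDiffAt (hD.mem_nhds hx))
  · have h1 : x ∉ tsupport ψ := fun h => hx (hψ.sub h)
    have h2 : (fun y => ψ y * l y) =ᶠ[𝓝 x] fun _ => 0 := by
      have h3 : (tsupport ψ)ᶜ ∈ 𝓝 x := (isClosed_tsupport ψ).isOpen_compl.mem_nhds h1
      filter_upwards [h3] with y hy
      rw [image_eq_zero_of_notMem_tsupport hy, zero_mul]
    exact contDiffAt_const.congr_of_eventuallyEq h2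

lemma test_pd {D : Set E} {ψ : E → ℝ} (hψ : Test D ψ) (i : Fin 3) : Test D (pd i ψ) := by
  have h1 : tsupport (pd i ψ) ⊆ tsupport ψ := by
    refine closure_minimal ?_ (isClosed_tsupport ψ)
    intro x hx
    by_contra h
    apply hx
    have h3 : ψ =ᶠ[𝓝 x] fun _ => 0 := by
      filter_upwards [(isClosed_tsupport ψ).isOpen_compl.mem_nhds h] with y hy
      exact image_eq_zero_of_notMem_tsupport hy
    unfold pd
    rw [h3.fderiv_eq]
    simp
  exact ⟨hψ.smooth.pd i, hψ.cpt.mono' (subset_closure.trans h1), h1.trans hψ.sub⟩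

/-- the field `ψ • v` for a test function vanishes on the boundary -/
lemma tan_test {ρ : E → ℝ} {ψ : E → ℝ} (hψ : Test (D ρ) ψ) (v : E → E) :
    Tan ρ fun x => ψ x • v x := by
  intro x hx
  have h1 : x ∉ tsupport ψ := fun h => by
    have := hψ.sub h
    simp only [D, mem_ofPred_eq] at this
    linarith
  change fderiv ℝ ρ x (ψ x • v x) = 0
  rw [image_eq_zero_of_notMem_tsupport h1, zero_smul, map_zero]

/-- the integral of a derivative of a test function is zero -/
lemma int_pd (hG : SpecGauss) {ρ : E → ℝ} (h : Dom ρ) {ψ : E → ℝ} (hψ : Test (D ρ) ψ)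
    (i : Fin 3) : ∫ x in D ρ, pd i ψ x = 0 := by
  have h1 := hG ρ h (fun x => ψ x • eb i) (hψ.smooth.smul contDiff_const)
    (tan_test hψ fun _ => eb i)
  rw [← h1]
  refine integral_congr_ae (Eventually.of_forall fun x => ?_)
  have hc : Sm fun _ : E => eb i := contDiff_const
  change pd i ψ x = dv (fun x => ψ x • eb i) x
  rw [dv_mul hψ.smooth hc x, inner_gr]
  have h2 : dv (fun _ : E => eb i) x = 0 := by
    unfold dv pd
    simp
  rw [h2, mul_zero, zero_add]
  rfl

/-- the support of a product with a test function -/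
lemma test_mul {D : Set E} (hD : IsOpen D) {l ψ : E → ℝ}
    (hl : ContDiffOn ℝ ((⊤ : ENat) : WithTop ENat) l D) (hψ : Test D ψ) :
    Test D fun x => ψ x * l x := by
  have h1 : tsupport (fun x => ψ x * l x) ⊆ tsupport ψ := by
    refine closure_minimal ?_ (isClosed_tsupport ψ)
    intro x hx
    refine subset_closure fun h => hx ?_
    change ψ x * l x = 0
    rw [h, zero_mul]
  exact ⟨smooth_mul hD hl hψ, hψ.cpt.mono' (subset_closure.trans h1), h1.trans hψ.sub⟩

/-- integration by parts against a test function -/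
lemma ibp (hG : SpecGauss) {ρ : E → ℝ} (h : Dom ρ) {l ψ : E → ℝ}
    (hl : ContDiffOn ℝ ((⊤ : ENat) : WithTop ENat) l (D ρ)) (hψ : Test (D ρ) ψ) (i : Fin 3) :
    ∫ x in D ρ, l x * pd i ψ x = -∫ x in D ρ, pd i l x * ψ x := by
  have hD := isOpen_D h
  have h1 := int_pd hG h (test_mul hD hl hψ) i
  have h2 : ∀ x ∈ D ρ, pd i (fun x => ψ x * l x) x = l x * pd i ψ x + pd i l x * ψ x := by
    intro x hx
    unfold pd
    rw [fderiv_fun_mul hψ.smooth.differentiable.differentiableAt (differentiableAt_of hD hl hx)]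
    simp only [add_apply, smul_apply, smul_eq_mul]
    ring
  have i1 : IntegrableOn (fun x => l x * pd i ψ x) (D ρ) := by
    have h3 := (test_mul hD hl (test_pd hψ i))
    have h4 := integrableOn_D h h3.smooth.continuous
    refine h4.congr_fun (fun x _ => ?_) (measurableSet_D h)
    change pd i ψ x * l x = l x * pd i ψ x
    ring
  have i2 : IntegrableOn (fun x => pd i l x * ψ x) (D ρ) := by
    have h3 := (test_mul hD (contDiffOn_pd hD hl i) hψ)
    have h4 := integrableOn_D h h3.smooth.continuous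
    refine h4.congr_fun (fun x _ => ?_) (measurableSet_D h)
    change ψ x * pd i l x = pd i l x * ψ x
    ring
  rw [setIntegral_congr_fun (measurableSet_D h) h2, integral_add i1 i2] at h1
  linarith

lemma int_eq {ρ : E → ℝ} {f ψ : E → ℝ} (hψ : Test (D ρ) ψ) :
    ∫ x in D ρ, f x * ψ x = ∫ x, ψ x • f x := by
  have h0 : ∀ x, x ∉ D ρ → ψ x • f x = 0 := by
    intro x hx
    have h1 : x ∉ tsupport ψ := fun h => hx (hψ.sub h)
    rw [image_eq_zero_of_notMem_tsupport h1, zero_smul]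
  rw [← setIntegral_eq_integral_of_forall_compl_eq_zero h0]
  refine integral_congr_ae (Eventually.of_forall fun x => ?_)
  change f x * ψ x = ψ x * f x
  ring

/-- the fundamental lemma, almost everywhere version -/
lemma ae_zero {ρ : E → ℝ} (h : Dom ρ) {f : E → ℝ} (hf : LocallyIntegrableOn f (D ρ))
    (h0 : ∀ ψ, Test (D ρ) ψ → ∫ x in D ρ, f x * ψ x = 0) :
    f =ᵐ[volume.restrict (D ρ)] fun _ => 0 := by
  have h1 := (isOpen_D h).ae_eq_zero_of_integral_contDiff_smul_eq_zero hf
    (fun ψ h1 h2 h3 => by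
      have h4 : Test (D ρ) ψ := ⟨h1, h2, h3⟩
      rw [← int_eq h4]
      exact h0 ψ h4)
  rw [EventuallyEq, ae_restrict_iff' (measurableSet_D h)]
  exact h1

/-- the fundamental lemma for continuous functions -/
lemma cont_zero {ρ : E → ℝ} (h : Dom ρ) {f : E → ℝ} (hf : ContinuousOn f (D ρ))
    (h0 : ∀ ψ, Test (D ρ) ψ → ∫ x in D ρ, f x * ψ x = 0) : ∀ x ∈ D ρ, f x = 0 :=
  Measure.eqOn_open_of_ae_eq (ae_zero h (hf.locallyIntegrableOn (measurableSet_D h)) h0)
    (isOpen_D h) hf continuousOn_const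

lemma integrable_L2 {ρ : E → ℝ} (h : Dom ρ) (g : L2 ρ) :
    Integrable (g : E → E) (volume.restrict (D ρ)) := by
  have := finite_D h
  exact (Lp.memLp g).integrable (by norm_num)

lemma integrable_comp {ρ : E → ℝ} (h : Dom ρ) (g : L2 ρ) (j : Fin 3) :
    Integrable (fun x => (g : E → E) x j) (volume.restrict (D ρ)) :=
  (EuclideanSpace.proj j : E →L[ℝ] ℝ).integrable_comp (integrable_L2 h g)

lemma integrable_mul_test {ρ : E → ℝ} {f : E → ℝ}
    (hf : Integrable f (volume.restrict (D ρ))) {ψ : E → ℝ} (hψ : Test (D ρ) ψ) :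
    Integrable (fun x => f x * ψ x) (volume.restrict (D ρ)) := by
  obtain ⟨C, hC⟩ := hψ.cpt.exists_bound_of_continuous hψ.smooth.continuous
  exact hf.mul_bdd hψ.smooth.continuous.aestronglyMeasurable (Eventually.of_forall hC)

/-- elements of `HG` are weakly orthogonal to fields orthogonal to all gradients -/
lemma orth_HG {ρ : E → ℝ} (h : Dom ρ) {v : E → E} (hv : Sm v)
    (h0 : ∀ φ : E → ℝ, Sm φ → ∫ x in D ρ, inner ℝ (gr φ x) (v x) = 0) {g : L2 ρ}
    (hg : g ∈ HG ρ) : ∫ x in D ρ, inner ℝ (g x) (v x) = 0 := by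
  obtain ⟨V, hV⟩ := exists_class h hv
  have key : ∀ w : L2 ρ, inner ℝ w V = ∫ x in D ρ, inner ℝ (w x) (v x) := by
    intro w
    rw [L2.inner_def]
    refine integral_congr_ae ?_
    filter_upwards [hV] with x hx
    rw [hx]
  rw [← key]
  have h1 : HG ρ ≤ (Submodule.span ℝ {V})ᗮ := by
    refine Submodule.topologicalClosure_minimal _ ?_ (Submodule.isClosed_orthogonal _)
    rw [Submodule.span_le]
    rintro w ⟨φ, hφ, hw⟩
    rw [SetLike.mem_coe, Submodule.mem_orthogonal_singleton_iff_inner_left, key]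
    rw [← h0 φ hφ]
    refine integral_congr_ae ?_
    filter_upwards [hw] with x hx
    rw [hx]
  exact (Submodule.mem_orthogonal_singleton_iff_inner_left).mp (h1 hg)

end Intr

open Neu Ler Intr

theorem specIntr (hW : SpecWeyl) (hG : SpecGauss) (hP : SpecPDC) : SpecIntr := by
  intro ρ G g h hGs hg
  have hD := isOpen_D h
  have hDm := measurableSet_D h
  -- weak curl
  have hcurl : ∀ A : E → E, (∃ (ψ : E → ℝ) (c : Fin 3), Test (D ρ) ψ ∧ A = fun x => ψ x • eb c) →
      ∫ x in D ρ, inner ℝ (g x) (curl A x) = 0 := by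
    rintro A ⟨ψ, c, hψ, rfl⟩
    have hA : Sm fun x => ψ x • eb c := hψ.smooth.smul contDiff_const
    refine orth_HG h hA.curl (fun φ hφ => ?_) hg.mem
    have h1 : Tan ρ fun x => φ x • curl (fun x => ψ x • eb c) x := by
      intro x hx
      have h2 : x ∉ tsupport ψ := fun h => by
        have := hψ.sub h
        simp only [D, mem_ofPred_eq] at this
        linarith
      have h3 : (fun x => ψ x • eb c) =ᶠ[𝓝 x] fun _ => 0 := by
        filter_upwards [(isClosed_tsupport ψ).isOpen_compl.mem_nhds h2] with y hy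
        rw [image_eq_zero_of_notMem_tsupport hy, zero_smul]
      have h4 : ∀ i, pd i (fun x => ψ x • eb c) x = 0 := by
        intro i
        unfold pd
        rw [h3.fderiv_eq]
        simp
      have h5 : curl (fun x => ψ x • eb c) x = 0 := by
        ext j
        fin_cases j <;> simp [h4]
      change fderiv ℝ ρ x (φ x • curl (fun x => ψ x • eb c) x) = 0
      rw [h5, smul_zero, map_zero]
    have h2 := hG ρ h _ (hφ.smul hA.curl) h1
    rw [← h2]
    refine integral_congr_ae (Eventually.of_forall fun x => ?_)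
    change _ = dv (fun x => φ x • curl (fun x => ψ x • eb c) x) x
    rw [dv_mul hφ hA.curl x, hP.dv_curl _ hA, mul_zero, zero_add, real_inner_comm]
  -- antisymmetry
  have hpdA : ∀ (ψ : E → ℝ) (c i : Fin 3), Sm ψ → ∀ x,
      pd i (fun x => ψ x • eb c) x = pd i ψ x • eb c := by
    intro ψ c i hψ x
    unfold pd
    rw [fderiv_fun_smul hψ.differentiable.differentiableAt (differentiableAt_const _)]
    simp
  have hgint := integrable_comp h g
  have hasym : ∀ (a b : Fin 3) (ψ : E → ℝ), Test (D ρ) ψ →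
      ∫ x in D ρ, g x b * pd a ψ x = ∫ x in D ρ, g x a * pd b ψ x := by
    have h3 : ∀ (a b c : Fin 3) (ψ : E → ℝ), Test (D ρ) ψ →
        (∀ x, inner ℝ (g x) (curl (fun x => ψ x • eb c) x) = g x b * pd a ψ x - g x a * pd b ψ x) →
        ∫ x in D ρ, g x b * pd a ψ x = ∫ x in D ρ, g x a * pd b ψ x := by
      intro a b c ψ hψ hx
      have h4 := hcurl _ ⟨ψ, c, hψ, rfl⟩
      simp only [hx] at h4
      rw [integral_sub (integrable_mul_test (hgint b) (test_pd hψ a))
        (integrable_mul_test (hgint a) (test_pd hψ b))] at h4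
      linarith
    have e : ∀ (ψ : E → ℝ), Test (D ρ) ψ → ∀ c x,
        curl (fun x => ψ x • eb c) x = cr (gr ψ x) (eb c) := by
      intro ψ hψ c x
      ext j
      fin_cases j <;> simp [hpdA ψ c _ hψ.smooth]
    have h01 : ∀ ψ : E → ℝ, Test (D ρ) ψ →
        ∫ x in D ρ, g x 0 * pd 1 ψ x = ∫ x in D ρ, g x 1 * pd 0 ψ x := by
      intro ψ hψ
      refine h3 1 0 2 ψ hψ fun x => ?_
      rw [e ψ hψ, inner_eq, Fin.sum_univ_three]
      simp [eb_apply]
      ring
    have h12 : ∀ ψ : E → ℝ, Test (D ρ) ψ →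
        ∫ x in D ρ, g x 1 * pd 2 ψ x = ∫ x in D ρ, g x 2 * pd 1 ψ x := by
      intro ψ hψ
      refine h3 2 1 0 ψ hψ fun x => ?_
      rw [e ψ hψ, inner_eq, Fin.sum_univ_three]
      simp [eb_apply]
      ring
    have h20 : ∀ ψ : E → ℝ, Test (D ρ) ψ →
        ∫ x in D ρ, g x 2 * pd 0 ψ x = ∫ x in D ρ, g x 0 * pd 2 ψ x := by
      intro ψ hψ
      refine h3 0 2 1 ψ hψ fun x => ?_
      rw [e ψ hψ, inner_eq, Fin.sum_univ_three]
      simp [eb_apply]
      ring
    intro a b ψ hψ
    fin_cases a <;> fin_cases b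
    · rfl
    · exact (h01 ψ hψ).symm
    · exact h20 ψ hψ
    · exact h01 ψ hψ
    · rfl
    · exact (h12 ψ hψ).symm
    · exact (h20 ψ hψ).symm
    · exact h12 ψ hψ
    · rfl
  -- orthogonality as a sum
  have hdiv : ∀ φ : E → ℝ, Test (D ρ) φ →
      ∑ a, ∫ x in D ρ, g x a * pd a φ x = -∫ x in D ρ, dv G x * φ x := by
    intro φ hφ
    have h1 := hg.orth φ hφ.smooth
    have hGint : ∀ j, Integrable (fun x => G x j) (volume.restrict (D ρ)) := fun j =>
      integrableOn_D h (hGs.comp_apply j).continuous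
    have h2 : ∫ x in D ρ, inner ℝ (G x - g x) (gr φ x) =
        (∑ a, ∫ x in D ρ, G x a * pd a φ x) - ∑ a, ∫ x in D ρ, g x a * pd a φ x := by
      rw [← Finset.sum_sub_distrib]
      have h3 : ∀ a, (∫ x in D ρ, G x a * pd a φ x) - ∫ x in D ρ, g x a * pd a φ x =
          ∫ x in D ρ, (G x a * pd a φ x - g x a * pd a φ x) := by
        intro a
        rw [integral_sub (integrable_mul_test (hGint a) (test_pd hφ a))
          (integrable_mul_test (hgint a) (test_pd hφ a))]
      simp only [h3]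
      rw [← integral_finsetSum]
      · refine integral_congr_ae (Eventually.of_forall fun x => ?_)
        simp only [inner_eq, gr_apply, PiLp.sub_apply]
        refine Finset.sum_congr rfl fun i _ => ?_
        ring
      · intro a _
        exact (integrable_mul_test (hGint a) (test_pd hφ a)).sub
          (integrable_mul_test (hgint a) (test_pd hφ a))
    have h4 : ∑ a, ∫ x in D ρ, G x a * pd a φ x = -∫ x in D ρ, dv G x * φ x := by
      have h5 : ∀ a, ∫ x in D ρ, G x a * pd a φ x =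
          -∫ x in D ρ, pd a (fun y => G y a) x * φ x := fun a =>
        ibp hG h (hGs.comp_apply a).contDiffOn hφ a
      simp only [h5]
      rw [Finset.sum_neg_distrib, ← integral_finsetSum]
      · congr 1
        refine integral_congr_ae (Eventually.of_forall fun x => ?_)
        simp only [dv]
        rw [Finset.sum_mul]
        refine Finset.sum_congr rfl fun i _ => ?_
        rw [pd_apply hGs.differentiable.differentiableAt]
      · intro a _
        exact integrable_mul_test (integrableOn_D h ((hGs.comp_apply a).pd a).continuous) hφ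
    rw [h2, h4] at h1
    linarith
  -- weak Laplacian
  have hlap : ∀ b (η : E → ℝ), Test (D ρ) η →
      ∫ x in D ρ, g x b * lap η x = ∫ x in D ρ, pd b (dv G) x * η x := by
    intro b η hη
    have h1 : ∫ x in D ρ, g x b * lap η x = ∑ a, ∫ x in D ρ, g x b * pd a (pd a η) x := by
      rw [← integral_finsetSum]
      · refine integral_congr_ae (Eventually.of_forall fun x => ?_)
        simp only [lap]
        rw [Finset.mul_sum]
      · intro a _
        exact integrable_mul_test (hgint b) (test_pd (test_pd hη a) a)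
    rw [h1]
    have h2 : ∀ a, ∫ x in D ρ, g x b * pd a (pd a η) x =
        ∫ x in D ρ, g x a * pd a (pd b η) x := by
      intro a
      rw [hasym a b (pd a η) (test_pd hη a)]
      refine integral_congr_ae (Eventually.of_forall fun x => ?_)
      simp only [hP.comm ℝ η hη.smooth b a x]
    simp only [h2]
    rw [hdiv (pd b η) (test_pd hη b), ibp hG h hGs.dv.contDiffOn hη b, neg_neg]
  -- the smooth components
  have hcomp : ∀ b, ∃ l : E → ℝ, ContDiffOn ℝ ((⊤ : ENat) : WithTop ENat) l (D ρ) ∧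
      (fun x => g x b) =ᵐ[volume.restrict (D ρ)] l := by
    intro b
    obtain ⟨l, hl, _, hl2⟩ := hW (D ρ) Unit (fun _ x => g x b) (fun _ => [])
      (pd b (dv G)) hD (fun _ => IntegrableOn.locallyIntegrableOn (hgint b))
      (hGs.dv.pd b).contDiffOn (fun η hη => by
        simp only [Finset.univ_unique, Finset.sum_const, Finset.card_singleton, one_smul, pds]
        exact hlap b η hη)
    refine ⟨l, hl, ?_⟩
    have h1 : (fun x => g x b - l x) =ᵐ[volume.restrict (D ρ)] fun _ => 0 := by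
      have hloc : LocallyIntegrableOn l (D ρ) := hl.continuousOn.locallyIntegrableOn hDm
      refine ae_zero h ((IntegrableOn.locallyIntegrableOn (hgint b)).sub hloc) fun ψ hψ => ?_
      have h2 := hl2 ψ hψ
      simp only [Finset.univ_unique, Finset.sum_const, Finset.card_singleton, one_smul, pds] at h2
      have h3 : Integrable (fun x => l x * ψ x) (volume.restrict (D ρ)) := by
        have h4 := integrableOn_D h (test_mul hD hl hψ).smooth.continuous
        refine h4.congr (Eventually.of_forall fun x => ?_)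
        change ψ x * l x = l x * ψ x
        ring
      have h5 : ∫ x in D ρ, (g x b - l x) * ψ x =
          (∫ x in D ρ, g x b * ψ x) - ∫ x in D ρ, l x * ψ x := by
        rw [← integral_sub (integrable_mul_test (hgint b) hψ) h3]
        refine integral_congr_ae (Eventually.of_forall fun x => ?_)
        simp only []
        ring
      rw [h5, h2, sub_self]
    filter_upwards [h1] with x hx
    linarith
  choose l hl hgl using hcomp
  have hlint : ∀ b (ψ : E → ℝ), Test (D ρ) ψ →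
      Integrable (fun x => l b x * ψ x) (volume.restrict (D ρ)) := by
    intro b ψ hψ
    have h4 := integrableOn_D h (test_mul hD (hl b) hψ).smooth.continuous
    refine h4.congr (Eventually.of_forall fun x => ?_)
    change ψ x * l b x = l b x * ψ x
    ring
  have hdlint : ∀ b i (ψ : E → ℝ), Test (D ρ) ψ →
      Integrable (fun x => pd i (l b) x * ψ x) (volume.restrict (D ρ)) := by
    intro b i ψ hψ
    have h4 := integrableOn_D h (test_mul hD (contDiffOn_pd hD (hl b) i) hψ).smooth.continuous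
    refine h4.congr (Eventually.of_forall fun x => ?_)
    change ψ x * pd i (l b) x = pd i (l b) x * ψ x
    ring
  have hgint' : ∀ b (ψ : E → ℝ), ∫ x in D ρ, g x b * ψ x = ∫ x in D ρ, l b x * ψ x := by
    intro b ψ
    refine integral_congr_ae ?_
    filter_upwards [hgl b] with x hx
    rw [hx]
  set g' : E → E := fun x => WithLp.toLp 2 fun b => l b x with hg'
  have hg's : ContDiffOn ℝ ((⊤ : ENat) : WithTop ENat) g' (D ρ) := contDiffOn_euclidean.mpr hl
  have hpdg' : ∀ x ∈ D ρ, ∀ i j, pd i g' x j = pd i (l j) x := fun x hx i j =>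
    pd_apply (differentiableAt_of hD hg's hx) i j
  have hsymm : ∀ a b, ∀ x ∈ D ρ, pd a (l b) x = pd b (l a) x := by
    intro a b
    have h1 : ∀ x ∈ D ρ, pd a (l b) x - pd b (l a) x = 0 := by
      refine cont_zero h ((contDiffOn_pd hD (hl b) a).continuousOn.sub
        (contDiffOn_pd hD (hl a) b).continuousOn) fun ψ hψ => ?_
      have h2 := hasym a b ψ hψ
      rw [hgint', hgint', ibp hG h (hl b) hψ a, ibp hG h (hl a) hψ b] at h2
      have h3 : ∫ x in D ρ, (pd a (l b) x - pd b (l a) x) * ψ x =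
          (∫ x in D ρ, pd a (l b) x * ψ x) - ∫ x in D ρ, pd b (l a) x * ψ x := by
        rw [← integral_sub (hdlint b a ψ hψ) (hdlint a b ψ hψ)]
        refine integral_congr_ae (Eventually.of_forall fun x => ?_)
        simp only []
        ring
      rw [h3]
      linarith
    intro x hx
    have := h1 x hx
    linarith
  refine ⟨g', hg's, ?_, ?_, ?_⟩
  · filter_upwards [hgl 0, hgl 1, hgl 2] with x h0 h1 h2
    ext j
    fin_cases j
    · exact h0
    · exact h1
    · exact h2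
  · intro x hx
    ext j
    fin_cases j
    · simp [hpdg' x hx, hsymm 1 2 x hx]
    · simp [hpdg' x hx, hsymm 2 0 x hx]
    · simp [hpdg' x hx, hsymm 0 1 x hx]
  · have h1 : ∀ x ∈ D ρ, (∑ a, pd a (l a) x) - dv G x = 0 := by
      refine cont_zero h ((continuousOn_finsetSum _ fun a _ =>
        (contDiffOn_pd hD (hl a) a).continuousOn).sub hGs.dv.continuous.continuousOn)
        fun ψ hψ => ?_
      have h2 := hdiv ψ hψ
      have h3 : ∀ a, ∫ x in D ρ, g x a * pd a ψ x = -∫ x in D ρ, pd a (l a) x * ψ x := by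
        intro a
        rw [hgint', ibp hG h (hl a) hψ a]
      simp only [h3] at h2
      rw [Finset.sum_neg_distrib, ← integral_finsetSum _ fun a _ => hdlint a a ψ hψ] at h2
      have h4 : ∫ x in D ρ, ((∑ a, pd a (l a) x) - dv G x) * ψ x =
          (∫ x in D ρ, ∑ a, pd a (l a) x * ψ x) - ∫ x in D ρ, dv G x * ψ x := by
        rw [← integral_sub (integrable_finsetSum _ fun a _ => hdlint a a ψ hψ)
          (integrable_mul_test (integrableOn_D h hGs.dv.continuous) hψ)]
        refine integral_congr_ae (Eventually.of_forall fun x => ?_)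
        simp only []
        rw [sub_mul, Finset.sum_mul]
      rw [h4]
      linarith
    intro x hx
    have h2 := h1 x hx
    have h3 : dv g' x = ∑ a, pd a (l a) x := by
      unfold dv
      exact Finset.sum_congr rfl fun a _ => hpdg' x hx a a
    rw [h3]
    linarith

end MPfab
end

section
/-!
MP_fabde4_an, module MVP: radial mean value formula.
-/
set_option autoImplicit false
open MeasureTheory Set Filter Topology Metric

namespace MPfab.Mvp

section congr

variable {F : Type*} [NormedAddCommGroup F] [NormedSpace ℝ F]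

lemma pd_congr {f g : E → F} {x : E} (h : f =ᶠ[𝓝 x] g) (i : Fin 3) : pd i f =ᶠ[𝓝 x] pd i g := by
  filter_upwards [h.fderiv (𝕜 := ℝ)] with y hy
  rw [pd_def, pd_def, hy]

lemma pds_congr {f g : E → F} {x : E} (h : f =ᶠ[𝓝 x] g) (L : List (Fin 3)) :
    pds L f =ᶠ[𝓝 x] pds L g := by
  induction L with
  | nil => exact h
  | cons i L ih => exact pd_congr ih i

lemma lap_congr {f g : E → ℝ} {x : E} (h : f =ᶠ[𝓝 x] g) : lap f =ᶠ[𝓝 x] lap g := by
  have h0 := pd_congr (pd_congr h 0) 0
  have h1 := pd_congr (pd_congr h 1) 1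
  have h2 := pd_congr (pd_congr h 2) 2
  filter_upwards [h0, h1, h2] with y e0 e1 e2
  simp only [lap, Fin.sum_univ_three, e0, e1, e2]

lemma gr_congr {f g : E → ℝ} {x : E} (h : f =ᶠ[𝓝 x] g) : gr f =ᶠ[𝓝 x] gr g := by
  have h0 := pd_congr h 0
  have h1 := pd_congr h 1
  have h2 := pd_congr h 2
  filter_upwards [h0, h1, h2] with y e0 e1 e2
  ext i
  fin_cases i
  · exact e0
  · exact e1
  · exact e2

end congr

/-- cut-off functions equal to one near a compact set -/
lemma exists_cut {O K : Set E} (hO : IsOpen O) (hK : IsCompact K) (hKO : K ⊆ O) :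
    ∃ χ : E → ℝ, Test O χ ∧ (∀ z, 0 ≤ χ z ∧ χ z ≤ 1) ∧ ∀ z ∈ K, ∀ᶠ w in 𝓝 z, χ w = 1 := by
  obtain ⟨L, hL, hKL, hLO⟩ := exists_compact_between hK hO hKO
  obtain ⟨f, f1, f2, f3⟩ := exists_contMDiffMap_one_nhds_of_subset_interior (n := (⊤ : ℕ∞))
    (modelWithCornersSelf ℝ E) hK.isClosed hKL
  have hs : tsupport (f : E → ℝ) ⊆ L :=
    closure_minimal (fun z hz => by
      by_contra hc
      exact hz (f2 z hc)) hL.isClosed
  exact ⟨f, ⟨contMDiff_iff_contDiff.1 f.contMDiff,
    hL.of_isClosed_subset (isClosed_tsupport _) hs, hs.trans hLO⟩,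
    fun z => ⟨(f3 z).1, (f3 z).2⟩, fun z hz => (eventually_nhdsSet_iff_forall.1 f1) z hz⟩

/-- cutting a function which is smooth on an open set -/
lemma cut_contDiff {F : Type*} [NormedAddCommGroup F] [NormedSpace ℝ F] {n : WithTop ℕ∞}
    {U : Set E} {χ : E → ℝ} {u : E → F} (hU : IsOpen U)
    (hn : n ≤ ((⊤ : ℕ∞) : WithTop ℕ∞)) (hχ : Sm χ) (hs : tsupport χ ⊆ U)
    (hu : ContDiffOn ℝ n u U) : ContDiff ℝ n (fun x => χ x • u x) := by
  rw [contDiff_iff_contDiffAt]
  intro x
  by_cases hx : x ∈ U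
  · exact ((hχ.contDiffAt).of_le hn).smul (hu.contDiffAt (hU.mem_nhds hx))
  · have h1 : x ∉ tsupport χ := fun h => hx (hs h)
    have h2 := notMem_tsupport_iff_eventuallyEq.1 h1
    refine (contDiffAt_const (c := (0 : F))).congr_of_eventuallyEq ?_
    filter_upwards [h2] with y hy
    simp [hy]

/-! ### the radial functions -/

/-- the derivative of the glue function -/
noncomputable def g' (s : ℝ) : ℝ := (Polynomial.X ^ 2 : Polynomial ℝ).eval s⁻¹ * expNegInvGlue s

lemma g'_eq (s : ℝ) : g' s = (s⁻¹) ^ 2 * expNegInvGlue s := by simp [g']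

lemma hasDerivAt_glue (s : ℝ) : HasDerivAt expNegInvGlue (g' s) s := by
  have h := expNegInvGlue.hasDerivAt_polynomial_eval_inv_mul 1 s
  simpa [g'] using h

lemma sm_g' : Sm g' := expNegInvGlue.contDiff_polynomial_eval_inv_mul _

/-- unnormalized functions -/
noncomputable def η₀ (y : E) : ℝ := 2 * g' (1 - ‖y‖ ^ 2)
noncomputable def ζ₀ (y : E) : ℝ := expNegInvGlue (1 - ‖y‖ ^ 2)

lemma sm_η₀ : Sm η₀ := by
  unfold η₀
  exact contDiff_const.mul (sm_g'.comp (contDiff_const.sub (contDiff_norm_sq ℝ)))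

lemma sm_ζ₀ : Sm ζ₀ := by
  unfold ζ₀
  exact (expNegInvGlue.contDiff).comp (contDiff_const.sub (contDiff_norm_sq ℝ))

lemma η₀_nonneg (y : E) : 0 ≤ η₀ y := by
  unfold η₀
  rw [g'_eq]
  have := expNegInvGlue.nonneg (1 - ‖y‖ ^ 2)
  positivity

lemma η₀_pos {y : E} (hy : ‖y‖ < 1) : 0 < η₀ y := by
  unfold η₀
  rw [g'_eq]
  have h : 0 < 1 - ‖y‖ ^ 2 := by nlinarith [norm_nonneg y]
  have := expNegInvGlue.pos_of_pos h
  positivity

lemma η₀_zero {y : E} (hy : 1 ≤ ‖y‖) : η₀ y = 0 := by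
  unfold η₀
  rw [g'_eq, expNegInvGlue.zero_of_nonpos (by nlinarith [norm_nonneg y])]
  simp

lemma ζ₀_zero {y : E} (hy : 1 ≤ ‖y‖) : ζ₀ y = 0 :=
  expNegInvGlue.zero_of_nonpos (by nlinarith [norm_nonneg y])

lemma cs_of_zero {f : E → ℝ} (h : ∀ y, 1 ≤ ‖y‖ → f y = 0) : HasCompactSupport f := by
  refine HasCompactSupport.intro (isCompact_closedBall (0 : E) 1) fun y hy => h y ?_
  rw [mem_closedBall_zero_iff, not_le] at hy
  exact hy.le

lemma pd_ζ₀ (i : Fin 3) (y : E) : pd i ζ₀ y = -(η₀ y) * y i := by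
  have h1 : HasFDerivAt (fun z : E => 1 - ‖z‖ ^ 2) (-(2 • innerSL ℝ y)) y :=
    (hasStrictFDerivAt_norm_sq y).hasFDerivAt.const_sub 1
  have h2 := (hasDerivAt_glue (1 - ‖y‖ ^ 2)).comp_hasFDerivAt y h1
  have h3 : fderiv ℝ ζ₀ y = g' (1 - ‖y‖ ^ 2) • (-(2 • innerSL ℝ y)) := h2.fderiv
  rw [pd_def, h3]
  have h4 : inner ℝ y (eb i) = y i := by rw [eb, EuclideanSpace.inner_single_right]; simp
  simp only [ContinuousLinearMap.smul_apply, ContinuousLinearMap.neg_apply, innerSL_apply_apply,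
    smul_eq_mul, h4, η₀, nsmul_eq_mul]
  push_cast
  ring

lemma int_η₀_pos : 0 < ∫ y, η₀ y := by
  have hc : Continuous η₀ := sm_η₀.continuous
  have hcs : HasCompactSupport η₀ := cs_of_zero fun y hy => η₀_zero hy
  refine (hc.integral_pos_of_hasCompactSupport_nonneg_nonzero hcs (x := 0) η₀_nonneg ?_)
  exact (η₀_pos (by simp)).ne'

/-- normalized functions -/
noncomputable def η (y : E) : ℝ := (∫ y, η₀ y)⁻¹ * η₀ y
noncomputable def ζ (y : E) : ℝ := (∫ y, η₀ y)⁻¹ * ζ₀ y

lemma sm_η : Sm η := contDiff_const.mul sm_η₀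
lemma sm_ζ : Sm ζ := contDiff_const.mul sm_ζ₀
lemma η_nonneg (y : E) : 0 ≤ η y := mul_nonneg (inv_nonneg.2 int_η₀_pos.le) (η₀_nonneg y)
lemma η_zero {y : E} (hy : 1 ≤ ‖y‖) : η y = 0 := by rw [η, η₀_zero hy, mul_zero]
lemma ζ_zero {y : E} (hy : 1 ≤ ‖y‖) : ζ y = 0 := by rw [ζ, ζ₀_zero hy, mul_zero]
lemma int_η : ∫ y, η y = 1 := by
  unfold η
  rw [integral_const_mul, inv_mul_cancel₀ int_η₀_pos.ne']

lemma pd_ζ (i : Fin 3) (y : E) : pd i ζ y = -(η y) * y i := by
  have h : pd i ζ y = (∫ y, η₀ y)⁻¹ * pd i ζ₀ y := by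
    unfold ζ
    rw [pd_def, fderiv_const_mul (sm_ζ₀.differentiable y), pd_def]
    rfl
  rw [h, pd_ζ₀, η]
  ring

lemma gr_ζ (y : E) : gr ζ y = -(η y) • y := by
  ext i
  rw [gr_apply, pd_ζ]
  simp

lemma cs_η : HasCompactSupport η := cs_of_zero fun _ h => η_zero h
lemma cs_ζ : HasCompactSupport ζ := cs_of_zero fun _ h => ζ_zero h

/-! ### the formula for global functions -/

lemma cd_pd {n : WithTop ℕ∞} {u : E → ℝ} (hu : ContDiff ℝ (n + 1) u) (i : Fin 3) :
    ContDiff ℝ n (pd i u) :=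
  (hu.fderiv_right (m := n) le_rfl).clm_apply contDiff_const

lemma pd_scale {v : E → ℝ} (hv : Differentiable ℝ v) (x : E) (t : ℝ) (i : Fin 3) (y : E) :
    fderiv ℝ (fun y => v (x + t • y)) y (eb i) = t * pd i v (x + t • y) := by
  have h1 : HasFDerivAt (fun y : E => x + t • y) (t • ContinuousLinearMap.id ℝ E) y :=
    ((hasFDerivAt_id y).const_smul t).const_add x
  have h2 := (hv (x + t • y)).hasFDerivAt.comp y h1
  rw [show (fun y => v (x + t • y)) = v ∘ fun y => x + t • y from rfl, h2.fderiv]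
  simp [pd_def]

/-- the integration by parts on spheres -/
lemma by_parts {u : E → ℝ} (hu : ContDiff ℝ 2 u) (x : E) (t : ℝ) :
    ∫ y, fderiv ℝ u (x + t • y) y * η y = t * ∫ y, lap u (x + t • y) * ζ y := by
  have hu1 : ∀ i, ContDiff ℝ 1 (pd i u) := fun i =>
    cd_pd (n := 1) (by rw [one_add_one_eq_two]; exact hu) i
  have hu0 : ∀ i, Continuous (pd i (pd i u)) := fun i =>
    (cd_pd (n := 0) (by rw [zero_add]; exact hu1 i) i).continuous
  have hline : Continuous fun y : E => x + t • y := by fun_prop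
  have e1 : ∀ y : E, fderiv ℝ u (x + t • y) y * η y =
      ∑ i, -(pd i u (x + t • y) * pd i ζ y) := by
    intro y
    rw [fderiv_eq_sum, Finset.sum_mul]
    refine Finset.sum_congr rfl fun i _ => ?_
    rw [pd_ζ, smul_eq_mul]
    ring
  have hpζ : ∀ i, Continuous (pd i ζ) := fun i => (sm_ζ.pd i).continuous
  have hcζ : ∀ i, HasCompactSupport (pd i ζ) := fun i =>
    (cs_ζ.fderiv (𝕜 := ℝ)).comp_left (g := fun L : E →L[ℝ] ℝ => L (eb i)) (by simp)
  have i1 : ∀ i, Integrable fun y => pd i u (x + t • y) * pd i ζ y := fun i =>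
    (((hu1 i).continuous.comp hline).mul (hpζ i)).integrable_of_hasCompactSupport
      ((hcζ i).mul_left)
  have i2 : ∀ i, Integrable fun y => pd i (pd i u) (x + t • y) * ζ y := fun i =>
    (((hu0 i).comp hline).mul sm_ζ.continuous).integrable_of_hasCompactSupport cs_ζ.mul_left
  have i3 : ∀ i, Integrable fun y => pd i u (x + t • y) * ζ y := fun i =>
    (((hu1 i).continuous.comp hline).mul sm_ζ.continuous).integrable_of_hasCompactSupport
      cs_ζ.mul_left
  have e2 : ∀ i, ∫ y, pd i u (x + t • y) * pd i ζ y =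
      - (t * ∫ y, pd i (pd i u) (x + t • y) * ζ y) := by
    intro i
    have hd := (hu1 i).differentiable (by simp)
    have e3 : ∀ y, fderiv ℝ (fun y => pd i u (x + t • y)) y (eb i) * ζ y =
        t * (pd i (pd i u) (x + t • y) * ζ y) := by
      intro y
      rw [pd_scale hd]
      ring
    have h := integral_mul_fderiv_eq_neg_fderiv_mul_of_integrable (μ := (volume : Measure E))
      (f := fun y => pd i u (x + t • y)) (g := ζ) (v := eb i)
      (by simp only [e3]; exact (i2 i).const_mul t) (i1 i) (i3 i)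
      (fun y _ => (hd.comp (by fun_prop)) y) (fun y _ => sm_ζ.differentiable y)
    simp only [e3, integral_const_mul] at h
    exact h
  calc ∫ y, fderiv ℝ u (x + t • y) y * η y
      = ∑ i, ∫ y, -(pd i u (x + t • y) * pd i ζ y) := by
        have h8 : ∀ i, Integrable fun y => -(pd i u (x + t • y) * pd i ζ y) := fun i => (i1 i).neg
        rw [← integral_finsetSum _ fun i _ => h8 i]
        exact integral_congr_ae (Eventually.of_forall e1)
    _ = ∑ i, t * ∫ y, pd i (pd i u) (x + t • y) * ζ y := by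
        refine Finset.sum_congr rfl fun i _ => ?_
        rw [integral_neg, e2, neg_neg]
    _ = t * ∫ y, lap u (x + t • y) * ζ y := by
        rw [← Finset.mul_sum, ← integral_finsetSum _ fun i _ => i2 i]
        congr 1
        refine integral_congr_ae (Eventually.of_forall fun y => ?_)
        simp only [lap, Finset.sum_mul]

/-- the mean value formula for functions of class `C²` on the whole space -/
lemma mv_glob {u : E → ℝ} (hu : ContDiff ℝ 2 u) (x : E) {r : ℝ} (hr : 0 < r) :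
    ∫ y, u (x + r • y) * η y = u x + ∫ t in (0 : ℝ)..r, t * ∫ y, lap u (x + t • y) * ζ y := by
  have hcu : Continuous u := hu.continuous
  have hcd : Continuous fun z => fderiv ℝ u z := hu.continuous_fderiv (by simp)
  have hcη := sm_η.continuous
  let Fn : ℝ → E → ℝ := fun t y => fderiv ℝ u (x + t • y) y * η y
  have hFc : Continuous (Function.uncurry Fn) := by
    refine Continuous.mul ?_ (hcη.comp continuous_snd)
    exact (hcd.comp (by fun_prop)).clm_apply continuous_snd
  -- the fundamental theorem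
  have h1 : ∀ y, u (x + r • y) * η y - u x * η y = ∫ t in (0 : ℝ)..r, Fn t y := by
    intro y
    have hd : ∀ t : ℝ, HasDerivAt (fun t : ℝ => u (x + t • y)) (fderiv ℝ u (x + t • y) y) t := by
      intro t
      have h2 : HasDerivAt (fun t : ℝ => x + t • y) y t := by
        simpa using ((hasDerivAt_id t).smul_const y).const_add x
      exact ((hu.differentiable (by simp)) (x + t • y)).hasFDerivAt.comp_hasDerivAt t h2
    have h3 : ∫ t in (0 : ℝ)..r, fderiv ℝ u (x + t • y) y = u (x + r • y) - u x := by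
      rw [intervalIntegral.integral_eq_sub_of_hasDerivAt (fun t _ => hd t)]
      · simp
      · refine Continuous.intervalIntegrable ?_ _ _
        exact (hcd.comp (by fun_prop)).clm_apply continuous_const
    simp only [Fn, intervalIntegral.integral_mul_const, h3]
    ring
  -- Fubini
  have hint : Integrable (Function.uncurry Fn)
      ((volume.restrict (uIoc 0 r)).prod (volume : Measure E)) := by
    rw [← Measure.restrict_univ (μ := (volume : Measure E)), Measure.prod_restrict]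
    have h4 : IntegrableOn (Function.uncurry Fn) (Icc 0 r ×ˢ closedBall (0 : E) 1)
        (volume.prod volume) :=
      hFc.continuousOn.integrableOn_compact (isCompact_Icc.prod (isCompact_closedBall _ _))
    refine h4.of_forall_diff_eq_zero (measurableSet_uIoc.prod MeasurableSet.univ) ?_
    rintro ⟨t, y⟩ ⟨⟨ht, _⟩, h5⟩
    have hy : 1 ≤ ‖y‖ := by
      by_contra hy
      push Not at hy
      refine h5 ⟨?_, by simpa using hy.le⟩
      rw [uIoc_of_le hr.le] at ht
      exact ⟨ht.1.le, ht.2⟩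
    simp [Function.uncurry, Fn, η_zero hy]
  have h6 := intervalIntegral_integral_swap hint
  have i1 : Integrable fun y => u (x + r • y) * η y :=
    ((hcu.comp (by fun_prop)).mul hcη).integrable_of_hasCompactSupport cs_η.mul_left
  have i2 : Integrable fun y => u x * η y :=
    (hcη.integrable_of_hasCompactSupport cs_η).const_mul _
  have h7 : ∫ y, u (x + r • y) * η y = u x + ∫ y, ∫ t in (0 : ℝ)..r, Fn t y := by
    rw [← integral_congr_ae (Eventually.of_forall h1), integral_sub i1 i2, integral_const_mul,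
      int_η]
    ring
  rw [h7, ← h6]
  congr 1
  refine intervalIntegral.integral_congr fun t _ => ?_
  exact by_parts hu x t

end MPfab.Mvp

namespace MPfab

open Mvp

theorem specMvp : SpecMvp := by
  refine ⟨η, ζ, sm_η, sm_ζ, η_nonneg, fun _ h => η_zero h, fun _ h => ζ_zero h, int_η, gr_ζ, ?_⟩
  intro U u x r hU hu hr hball
  obtain ⟨χ, hχ, -, hχ1⟩ := exists_cut hU (isCompact_closedBall x r) hball
  have hv : ContDiff ℝ 2 (fun z => χ z • u z) :=
    cut_contDiff hU (show ((2 : ℕ∞) : WithTop ℕ∞) ≤ _ from WithTop.coe_le_coe.2 le_top) hχ.smooth hχ.sub hu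
  have heq : ∀ z ∈ closedBall x r, (fun z => χ z • u z) =ᶠ[𝓝 z] u := by
    intro z hz
    filter_upwards [hχ1 z hz] with w hw
    rw [hw, one_smul]
  have hmem : ∀ t : ℝ, 0 ≤ t → t ≤ r → ∀ y : E, ‖y‖ < 1 → x + t • y ∈ closedBall x r := by
    intro t ht htr y hy
    rw [mem_closedBall, dist_eq_norm, add_sub_cancel_left, norm_smul, Real.norm_of_nonneg ht]
    nlinarith [norm_nonneg y]
  have h := mv_glob hv x hr
  have e1 : ∀ y, (χ (x + r • y) • u (x + r • y)) * η y = u (x + r • y) * η y := by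
    intro y
    rcases lt_or_ge ‖y‖ 1 with hy | hy
    · rw [(heq _ (hmem r hr.le le_rfl y hy)).eq_of_nhds]
    · rw [η_zero hy, mul_zero, mul_zero]
  have e2 : χ x • u x = u x := (heq x (mem_closedBall_self hr.le)).eq_of_nhds
  simp only [e1, e2] at h
  rw [h]
  congr 1
  refine intervalIntegral.integral_congr fun t ht => ?_
  rw [uIcc_of_le hr.le] at ht
  congr 1
  refine integral_congr_ae (Eventually.of_forall fun y => ?_)
  simp only
  rcases lt_or_ge ‖y‖ 1 with hy | hy
  · rw [(lap_congr (heq _ (hmem t ht.1 ht.2 y hy))).eq_of_nhds]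
  · rw [ζ_zero hy, mul_zero, mul_zero]

end MPfab
end

section
/-! MP_fabde4_an, part F, modules FLATD, LAYER (helper45). -/
set_option autoImplicit false
open MeasureTheory Set Filter Topology

namespace MPfab

theorem specFlatD (hH : SpecHad) : SpecFlatD := by
  intro ρ g hρ hg h0 M
  suffices H : ∃ h : E → ℝ, Sm h ∧ (∀ x, g x = ρ x ^ M * h x) ∧ ∀ x, ρ x ≤ 0 → h x = 0 by
    obtain ⟨h, h1, h2, -⟩ := H
    exact ⟨h, h1, h2⟩
  induction M with
  | zero => exact ⟨g, hg, fun x => by rw [pow_zero, one_mul], h0⟩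
  | succ M ih =>
    obtain ⟨h, h1, h2, h3⟩ := ih
    obtain ⟨k, k1, k2⟩ := hH ℝ ρ h hρ h1 (fun x hx => h3 x hx.le)
    refine ⟨k, k1, fun x => ?_, ?_⟩
    · rw [h2 x, k2 x, smul_eq_mul]; ring
    · refine Ler.eq_closure hρ.toDom k1.continuous continuous_const fun x hx => ?_
      have hx' : ρ x < 0 := hx
      have h4 := k2 x
      rw [h3 x hx'.le, smul_eq_mul] at h4
      rcases mul_eq_zero.mp h4.symm with h5 | h5
      · exact absurd h5 hx'.ne
      · exact h5

theorem specLayer : SpecLayer := by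
  intro ρ hρ ε hε
  have hmeas : MeasurableSet (D ρ) := Neu.measurableSet_D hρ
  have hlt := Neu.volume_D_lt hρ
  let S : ℕ → Set E := fun n => D ρ ∩ {x | |ρ x| ≤ 1 / ((n : ℝ) + 1)}
  have hS : ∀ n, MeasurableSet (S n) := fun n => hmeas.inter
    (isClosed_le hρ.smooth.continuous.abs continuous_const).measurableSet
  have hanti : Antitone S := by
    intro n m hnm x hx
    refine ⟨hx.1, ?_⟩
    have h1 : |ρ x| ≤ 1 / ((m : ℝ) + 1) := hx.2
    exact h1.trans (one_div_le_one_div_of_le (by positivity) (by exact_mod_cast Nat.succ_le_succ hnm))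
  have hinter : ⋂ n, S n = ∅ := by
    ext x
    simp only [mem_iInter, mem_empty_iff_false, iff_false, not_forall]
    by_cases hx : x ∈ D ρ
    · have hx' : ρ x < 0 := hx
      obtain ⟨n, hn⟩ := exists_nat_one_div_lt (abs_pos.mpr hx'.ne)
      exact ⟨n, fun h => absurd h.2 (not_le.mpr hn)⟩
    · exact ⟨0, fun h => hx h.1⟩
  have htend := tendsto_measure_iInter_atTop (μ := volume) (s := S)
    (fun n => (hS n).nullMeasurableSet) hanti
    ⟨0, ((measure_mono inter_subset_left).trans_lt hlt).ne⟩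
  rw [hinter, measure_empty] at htend
  obtain ⟨n, hn⟩ := (htend.eventually (gt_mem_nhds (ENNReal.ofReal_pos.mpr hε))).exists
  exact ⟨1 / ((n : ℝ) + 1), by positivity, hn⟩

end MPfab
end

section
/-! MP_fabde4_an, part F, module ELLD (helper45). -/
set_option autoImplicit false
open MeasureTheory Set Filter Topology

namespace MPfab

namespace FEll

lemma dv_congr {v w : E → E} {x : E} (h : v =ᶠ[𝓝 x] w) : dv v x = dv w x := by
  have h1 : ∀ i, pd i v x = pd i w x := fun i => by
    unfold pd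
    rw [h.fderiv_eq]
  unfold dv
  simp only [h1]

/-- the potential part has the divergence of the field -/
lemma dv_pot {ρ : E → ℝ} {R : ℝ} {P : (E → E) → E → E} {Q : (E → E) → E → ℝ} (hρ : DomN ρ)
    (hL : Leray ρ R P Q) {w : E → E} (hw : Sm w) {x : E} (hx : x ∈ D ρ) :
    dv (gr (Q w)) x = dv w x := by
  have hx' : ρ x < 0 := hx
  have h1 : (fun y => w y - P w y) =ᶠ[𝓝 x] gr (Q w) := by
    filter_upwards [(Neu.isOpen_D hρ.toDom).mem_nhds hx] with y hy
    have hy' : ρ y < 0 := hy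
    exact hL.dec w hw y hy'.le
  rw [← dv_congr h1, Ler.dv_sub hw (hL.inX w hw).smooth, (hL.inX w hw).dv0 x hx'.le, sub_zero]

lemma tan_pot {ρ : E → ℝ} {R : ℝ} {P : (E → E) → E → E} {Q : (E → E) → E → ℝ}
    (hL : Leray ρ R P Q) {w : E → E} (hw : Sm w) (ht : Tan ρ w) : Tan ρ (gr (Q w)) := by
  intro x hx
  rw [← hL.dec w hw x hx.le, map_sub, ht x hx, (hL.inX w hw).tan x hx, sub_zero]

/-- `L²` bound of a tangential gradient by its divergence -/
lemma l2 (hG : SpecGauss) {ρ : E → ℝ} (hρ : Dom ρ) {C : ℝ} (hC : 0 < C)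
    {φ : E → ℝ} (hφ : Sm φ) (ht : Tan ρ (gr φ)) {c : ℝ}
    (hc : (∫ x in D ρ, (φ x - c) ^ 2) ≤ C * ∫ x in D ρ, ‖gr φ x‖ ^ 2) :
    hs (D ρ) 0 (gr φ) ≤ C * hs (D ρ) 0 (dv (gr φ)) := by
  have hg : Sm (gr φ) := hφ.gr
  have hψ : Sm fun x => φ x - c := hφ.sub contDiff_const
  have h1 := hG ρ hρ (fun x => (φ x - c) • gr φ x) (hψ.smul hg) (fun x hx => by
    rw [map_smul, ht x hx, smul_zero])
  have h2 : ∀ x, dv (fun x => (φ x - c) • gr φ x) x =
      (φ x - c) * dv (gr φ) x + ‖gr φ x‖ ^ 2 := by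
    intro x
    have e1 := Ler.dv_mul hψ hg x
    have e2 : gr (fun y => φ y - c) x = gr φ x := by
      ext i
      simp only [gr_apply]
      unfold pd
      rw [fderiv_sub_const]
    rw [e1, e2, real_inner_self_eq_norm_sq]
  simp only [h2] at h1
  have i1 : IntegrableOn (fun x => (φ x - c) * dv (gr φ) x) (D ρ) :=
    Ler.integrableOn_D hρ (hψ.continuous.mul hg.dv.continuous)
  have i2 : IntegrableOn (fun x => ‖gr φ x‖ ^ 2) (D ρ) :=
    Ler.integrableOn_D hρ (hg.continuous.norm.pow 2)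
  have i3 : IntegrableOn (fun x => (φ x - c) ^ 2) (D ρ) :=
    Ler.integrableOn_D hρ (hψ.continuous.pow 2)
  have i4 : IntegrableOn (fun x => ‖dv (gr φ) x‖ ^ 2) (D ρ) :=
    Ler.integrableOn_D hρ (hg.dv.continuous.norm.pow 2)
  rw [integral_add i1 i2] at h1
  have h3 : -∫ x in D ρ, (φ x - c) * dv (gr φ) x ≤
      ∫ x in D ρ, ((1 / (2 * C)) * (φ x - c) ^ 2 + (C / 2) * ‖dv (gr φ) x‖ ^ 2) := by
    rw [← integral_neg]
    refine integral_mono i1.neg ((i3.const_mul _).add (i4.const_mul _)) fun x => ?_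
    show -((φ x - c) * dv (gr φ) x) ≤
      (1 / (2 * C)) * (φ x - c) ^ 2 + (C / 2) * ‖dv (gr φ) x‖ ^ 2
    rw [Real.norm_eq_abs, sq_abs]
    have : 0 ≤ (1 / (2 * C)) * ((φ x - c) + C * dv (gr φ) x) ^ 2 := by positivity
    have e : (1 / (2 * C)) * ((φ x - c) + C * dv (gr φ) x) ^ 2 =
      (1 / (2 * C)) * (φ x - c) ^ 2 + (C / 2) * (dv (gr φ) x) ^ 2 +
        (φ x - c) * dv (gr φ) x := by
      field_simp
      ring
    linarith
  rw [integral_add (i3.const_mul _) (i4.const_mul _), integral_const_mul, integral_const_mul] at h3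
  have h4 : (1 / (2 * C)) * (∫ x in D ρ, (φ x - c) ^ 2) ≤
      (1 / 2) * ∫ x in D ρ, ‖gr φ x‖ ^ 2 := by
    have := mul_le_mul_of_nonneg_left hc (by positivity : 0 ≤ 1 / (2 * C))
    refine this.trans (le_of_eq ?_)
    field_simp
  show (∫ x in D ρ, ‖gr φ x‖ ^ 2) ≤ C * ∫ x in D ρ, ‖dv (gr φ) x‖ ^ 2
  linarith

end FEll

open FEll in
theorem specEllD (hG : SpecGauss) (hD : SpecDivCurl) (hS : SpecSob) (hPoin : SpecPoin) :
    SpecEllD := by
  intro ρ R P Q hρ hc hL
  obtain ⟨C1, C10, h1⟩ := hS ρ hρ.toDom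
  obtain ⟨C2, C20, h2⟩ := hD ρ hρ.toDom 2
  obtain ⟨C3, h3⟩ := hPoin ρ hρ.toDom hc
  have hC : 0 < max C3 1 := lt_max_of_lt_right one_pos
  refine ⟨C1 * (C2 * (1 + max C3 1)), by positivity, fun w hw ht x hx => ?_⟩
  have hQ : Sm (Q w) := (hL.inQ w hw).smooth
  have hg : Sm (gr (Q w)) := hQ.gr
  have htan := tan_pot hL hw ht
  obtain ⟨c, hc1⟩ := h3 (Q w) hQ
  have hc2 : (∫ x in D ρ, (Q w x - c) ^ 2) ≤ max C3 1 * ∫ x in D ρ, ‖gr (Q w) x‖ ^ 2 :=
    hc1.trans (mul_le_mul_of_nonneg_right (le_max_left _ _) (integral_nonneg fun _ => by positivity))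
  have h4 := l2 hG hρ.toDom hC hQ htan hc2
  have h5 := h2 (gr (Q w)) hg htan
  have h6 := h1 E (gr (Q w)) hg x hx
  have e0 : hs (D ρ) 2 (curl (gr (Q w))) = 0 := by
    have : curl (gr (Q w)) = fun _ => 0 := funext fun x => PDC.curl_gr hQ x
    rw [this]
    exact Ler.hs_zero_fun _ _
  have e1 : ∀ k, hs (D ρ) k (dv (gr (Q w))) = hs (D ρ) k (dv w) := fun k =>
    HSB.congr k _ _ (Neu.isOpen_D hρ.toDom) fun x hx => dv_pot hρ hL hw hx
  rw [e0, e1, zero_add] at h5
  rw [e1] at h4
  have h7 : hs (D ρ) 0 (dv w) ≤ hs (D ρ) 2 (dv w) := HSB.mono _ _ (by norm_num)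
  have h8 : hs (D ρ) (2 + 1) (gr (Q w)) ≤ C2 * ((1 + max C3 1) * hs (D ρ) 2 (dv w)) := by
    refine h5.trans (mul_le_mul_of_nonneg_left ?_ C20)
    nlinarith
  calc ‖gr (Q w) x‖ ^ 2 ≤ C1 * hs (D ρ) 3 (gr (Q w)) := h6
    _ ≤ C1 * (C2 * ((1 + max C3 1) * hs (D ρ) 2 (dv w))) := mul_le_mul_of_nonneg_left h8 C10
    _ = _ := by ring

end MPfab
end
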