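import Pool.Agent.Lib.MP_fabde4_an.SpecF
import Pool.Agent.Lib.MP_fabde4_an.M.Lop

section
/-!
MP_fabde4_an, modules THETA, NEUC, BRKG (helper90).
-/
set_option autoImplicit false
open MeasureTheory Set

namespace MPfab

namespace FCalc

open PDC

/-! ### calculus of gradients -/

lemma gr_add {f g : E → ℝ} (hf : Sm f) (hg : Sm g) (x : E) :
    gr (fun y => f y + g y) x = gr f x + gr g x := by
  ext i
  show pd i (fun y => f y + g y) x = pd i f x + pd i g x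
  exact pd_add (hf.differentiable x) (hg.differentiable x) i

lemma gr_sub {f g : E → ℝ} (hf : Sm f) (hg : Sm g) (x : E) :
    gr (fun y => f y - g y) x = gr f x - gr g x := by
  ext i
  show pd i (fun y => f y - g y) x = pd i f x - pd i g x
  exact pd_sub (hf.differentiable x) (hg.differentiable x) i

lemma gr_mul {f g : E → ℝ} (hf : Sm f) (hg : Sm g) (x : E) :
    gr (fun y => f y * g y) x = f x • gr g x + g x • gr f x := by
  ext i
  show pd i (fun y => f y * g y) x = f x * pd i g x + g x * pd i f x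
  rw [pd_mul (hf.differentiable x) (hg.differentiable x) i]
  ring

lemma gr_const_mul {f : E → ℝ} (c : ℝ) (hf : Sm f) (x : E) :
    gr (fun y => c * f y) x = c • gr f x := by
  ext i
  show pd i (fun y => c * f y) x = c * pd i f x
  exact pd_const_smul c (hf.differentiable x) i

lemma gr_sum {ι : Type*} (s : Finset ι) {f : ι → E → ℝ} (hf : ∀ k ∈ s, Sm (f k)) (x : E) :
    gr (fun y => ∑ k ∈ s, f k y) x = ∑ k ∈ s, gr (f k) x := by
  ext i
  rw [WithLp.ofLp_sum, Finset.sum_apply]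
  show pd i (fun y => ∑ k ∈ s, f k y) x = ∑ k ∈ s, pd i (f k) x
  exact pd_sum (fun k hk => (hf k hk).differentiable x) i

lemma sm_inner {X Y : E → E} (hX : Sm X) (hY : Sm Y) : Sm fun x => (inner ℝ (X x) (Y x) : ℝ) :=
  hX.inner ℝ hY

lemma sm_nsq {X : E → E} (hX : Sm X) : Sm fun x => ‖X x‖ ^ 2 := hX.norm_sq ℝ

lemma gr_ne {ρ : E → ℝ} {x : E} (h : fderiv ℝ ρ x ≠ 0) : gr ρ x ≠ 0 := by
  intro h0
  apply h
  ext v
  rw [← inner_gr, h0, inner_zero_right]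
  rfl

lemma tan_inner {ρ : E → ℝ} {w : E → E} :
    Tan ρ w ↔ ∀ x, ρ x = 0 → inner ℝ (w x) (gr ρ x) = 0 := by
  unfold Tan
  simp only [inner_gr]

lemma nsq_ne {ρ : E → ℝ} (hρ : Dom ρ) {x : E} (hx : ρ x = 0) : ‖gr ρ x‖ ^ 2 ≠ 0 :=
  pow_ne_zero 2 (norm_ne_zero_iff.2 (gr_ne (hρ.reg x hx)))

end FCalc

open FCalc PDC

theorem specTheta : SpecTheta := by
  intro ρ hρ
  have hN : Sm fun x => ‖gr ρ x‖ ^ 2 := sm_nsq hρ.smooth.gr
  have hpos : ∀ x, (‖gr ρ x‖ ^ 2) ^ 2 + ρ x ^ 2 ≠ 0 := by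
    intro x
    by_cases hx : ρ x = 0
    · have h1 := nsq_ne hρ hx
      have h2 : 0 < (‖gr ρ x‖ ^ 2) ^ 2 := by positivity
      nlinarith [sq_nonneg (ρ x)]
    · have h2 : 0 < ρ x ^ 2 := by positivity
      nlinarith [sq_nonneg (‖gr ρ x‖ ^ 2)]
  refine ⟨fun x => ‖gr ρ x‖ ^ 2 / ((‖gr ρ x‖ ^ 2) ^ 2 + ρ x ^ 2),
    hN.div ((hN.pow 2).add (hρ.smooth.pow 2)) hpos, fun x hx => ?_⟩
  have h1 := nsq_ne hρ hx
  show ‖gr ρ x‖ ^ 2 / ((‖gr ρ x‖ ^ 2) ^ 2 + ρ x ^ 2) * ‖gr ρ x‖ ^ 2 = 1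
  rw [hx]
  generalize ‖gr ρ x‖ ^ 2 = a at h1
  rw [zero_pow two_ne_zero, add_zero]
  field_simp

theorem specNeuC : SpecNeuC := by
  intro ρ hρ f hf
  obtain ⟨θ, hθ, hθ1⟩ := specTheta ρ hρ
  have hg : Sm fun x => θ x * inner ℝ (gr f x) (gr ρ x) :=
    hθ.mul (sm_inner hf.gr hρ.smooth.gr)
  have hρg : Sm fun x => ρ x * (θ x * inner ℝ (gr f x) (gr ρ x)) := hρ.smooth.mul hg
  have hgr : ∀ x, ρ x = 0 → gr (fun y => f y - ρ y * (θ y * inner ℝ (gr f y) (gr ρ y))) x =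
      gr f x - (θ x * inner ℝ (gr f x) (gr ρ x)) • gr ρ x := by
    intro x hx
    rw [gr_sub hf hρg, gr_mul hρ.smooth hg, hx, zero_smul, zero_add]
  refine ⟨fun x => f x - ρ x * (θ x * inner ℝ (gr f x) (gr ρ x)), hf.sub hρg, ?_, ?_, ?_⟩
  · rw [tan_inner]
    intro x hx
    rw [hgr x hx, inner_sub_left, inner_smul_left, real_inner_self_eq_norm_sq]
    have := hθ1 x hx
    simp only [conj_trivial]
    linear_combination (-(inner ℝ (gr f x) (gr ρ x) : ℝ)) * this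
  · intro x hx
    simp only [hx, zero_mul, sub_zero]
  · intro θ' hθ' x hx
    rw [hgr x hx]
    have h1 := nsq_ne hρ hx
    have h2 : θ x = θ' x := mul_right_cancel₀ h1 ((hθ1 x hx).trans (hθ' x hx).symm)
    rw [h2]

namespace FBrkG

lemma pd_rk {ρ k : E → ℝ} (hρ : Sm ρ) (hk : Sm k) (i : Fin 3) (y : E) :
    pd i (fun y => ρ y ^ 2 * k y) y = ρ y * (2 * pd i ρ y * k y + ρ y * pd i k y) := by
  have e : (fun y => ρ y ^ 2 * k y) = fun y => ρ y * (ρ y * k y) := by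
    funext y
    ring
  rw [e, pd_mul (hρ.differentiable y) ((hρ.mul hk).differentiable (by simp) y),
    pd_mul (hρ.differentiable y) (hk.differentiable y)]
  ring

lemma pd_pd_rk {ρ k : E → ℝ} (hρ : Sm ρ) (hk : Sm k) (i j : Fin 3) (x : E) (hx : ρ x = 0) :
    pd j (pd i (fun y => ρ y ^ 2 * k y)) x = 2 * pd j ρ x * pd i ρ x * k x := by
  have e : pd i (fun y => ρ y ^ 2 * k y) =
      fun y => ρ y * (2 * pd i ρ y * k y + ρ y * pd i k y) := funext (pd_rk hρ hk i)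
  have hs : Sm fun y => (2 * pd i ρ y * k y + ρ y * pd i k y) :=
    (((contDiff_const.mul (hρ.pd i)).mul hk).add (hρ.mul (hk.pd i)))
  rw [e, pd_mul (hρ.differentiable x) (hs.differentiable x), hx]
  ring

end FBrkG

open FBrkG in
theorem specBrkG : SpecBrkG := by
  intro ρ hρ f g k l hf hg hk hl tf tg x hx
  have hrk : Sm fun y => ρ y ^ 2 * k y := (hρ.pow 2).mul hk
  have hrl : Sm fun y => ρ y ^ 2 * l y := (hρ.pow 2).mul hl
  have h1 : ∀ (f k : E → ℝ), Sm f → Sm k → ∀ i,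
      pd i (fun y => f y + ρ y ^ 2 * k y) x = pd i f x := by
    intro f k hf hk i
    rw [pd_add (hf.differentiable x) (((hρ.pow 2).mul hk).differentiable (by simp) x),
      pd_rk hρ hk, hx]
    ring
  have h2 : ∀ (f k : E → ℝ), Sm f → Sm k → ∀ i j,
      pd j (pd i (fun y => f y + ρ y ^ 2 * k y)) x =
        pd j (pd i f) x + 2 * pd j ρ x * pd i ρ x * k x := by
    intro f k hf hk i j
    have hrk : Sm fun y => ρ y ^ 2 * k y := (hρ.pow 2).mul hk
    have e : pd i (fun y => f y + ρ y ^ 2 * k y) =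
        fun y => pd i f y + pd i (fun y => ρ y ^ 2 * k y) y :=
      funext fun y => pd_add (hf.differentiable y) (hrk.differentiable y) i
    rw [e, pd_add ((hf.pd i).differentiable x) ((hrk.pd i).differentiable x),
      pd_pd_rk hρ hk i j x hx]
  have h3 : ∀ (F : E → ℝ), Sm F → ∀ i j, pd j (gr F) x i = pd j (pd i F) x := by
    intro F hF i j
    rw [pd_comp_apply hF.gr]
    rfl
  have tf' : ∑ j, pd j f x * pd j ρ x = 0 := by
    have := (tan_inner.1 tf) x hx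
    rwa [inner_eq] at this
  have tg' : ∑ j, pd j g x * pd j ρ x = 0 := by
    have := (tan_inner.1 tg) x hx
    rwa [inner_eq] at this
  constructor
  · ext i
    rw [brk_apply, brk_apply]
    simp only [gr_apply, h3 _ (hf.add hrk), h3 _ (hg.add hrl), h3 _ hf, h3 _ hg,
      h1 f k hf hk, h1 g l hg hl, h2 f k hf hk, h2 g l hg hl]
    rw [Fin.sum_univ_three] at tf' tg' ⊢
    rw [Fin.sum_univ_three]
    linear_combination (2 * pd i ρ x * l x) * tf' - (2 * pd i ρ x * k x) * tg'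
  · ext i
    show pd i (fun y => f y + ρ y ^ 2 * k y) x = pd i f x
    exact h1 f k hf hk i

end MPfab
end

section
/-!
MP_fabde4_an, modules CUBA, DIVB (helper90).
-/
set_option autoImplicit false
open MeasureTheory Set

namespace MPfab

namespace FCuba

/-- vectors from coordinates -/
noncomputable def vec (x y z : ℝ) : E := WithLp.toLp 2 ![x, y, z]

@[simp] lemma vec0 (x y z : ℝ) : vec x y z 0 = x := rfl
@[simp] lemma vec1 (x y z : ℝ) : vec x y z 1 = y := rfl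
@[simp] lemma vec2 (x y z : ℝ) : vec x y z 2 = z := rfl

/-- the nodes -/
noncomputable def nodes : Fin 7 → E :=
  ![vec 1 0 0, vec 0 1 0, vec 0 0 1, vec 1 1 1, vec 1 1 (-1), vec 1 (-1) 1, vec 1 (-1) (-1)]

/-- the weights -/
noncomputable def wts : Fin 7 → ℝ := ![1 / 2, 1 / 2, 1 / 2, 1 / 16, 1 / 16, 1 / 16, 1 / 16]

lemma n0 : nodes 0 = vec 1 0 0 := rfl
lemma n1 : nodes 1 = vec 0 1 0 := rfl
lemma n2 : nodes 2 = vec 0 0 1 := rfl
lemma n3 : nodes 3 = vec 1 1 1 := rfl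
lemma n4 : nodes 4 = vec 1 1 (-1) := rfl
lemma n5 : nodes 5 = vec 1 (-1) 1 := rfl
lemma n6 : nodes 6 = vec 1 (-1) (-1) := rfl
lemma w0 : wts 0 = 1 / 2 := rfl
lemma w1 : wts 1 = 1 / 2 := rfl
lemma w2 : wts 2 = 1 / 2 := rfl
lemma w3 : wts 3 = 1 / 16 := rfl
lemma w4 : wts 4 = 1 / 16 := rfl
lemma w5 : wts 5 = 1 / 16 := rfl
lemma w6 : wts 6 = 1 / 16 := rfl

lemma proj_norm (a n : E) (hn : ‖n‖ = 1) :
    ‖a - (inner ℝ a n : ℝ) • n‖ ^ 2 = ‖a‖ ^ 2 - (inner ℝ a n : ℝ) ^ 2 := by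
  rw [norm_sub_sq_real, inner_smul_right, norm_smul, hn, mul_one, Real.norm_eq_abs, sq_abs]
  ring

lemma nsq_eq (a : E) : ‖a‖ ^ 2 = a 0 ^ 2 + a 1 ^ 2 + a 2 ^ 2 := by
  rw [← real_inner_self_eq_norm_sq, inner_eq, Fin.sum_univ_three]
  ring

lemma inner3 (a b : E) : (inner ℝ a b : ℝ) = a 0 * b 0 + a 1 * b 1 + a 2 * b 2 := by
  rw [inner_eq, Fin.sum_univ_three]

end FCuba

open FCuba in
theorem specCuba : SpecCuba := by
  refine ⟨nodes, wts, fun n X hn hX => ?_⟩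
  have h1 : n 0 ^ 2 + n 1 ^ 2 + n 2 ^ 2 = 1 := by
    rw [← nsq_eq, hn]
    norm_num
  have h2 : X 0 * n 0 + X 1 * n 1 + X 2 * n 2 = 0 := by
    rw [← inner3]
    exact hX
  have h3 : ∀ i, (wts i * ‖nodes i - (inner ℝ (nodes i) n : ℝ) • n‖ ^ 2 *
      inner ℝ X (nodes i)) • (nodes i - (inner ℝ (nodes i) n : ℝ) • n) =
      (wts i * (‖nodes i‖ ^ 2 - (inner ℝ (nodes i) n : ℝ) ^ 2) *
      inner ℝ X (nodes i)) • (nodes i - (inner ℝ (nodes i) n : ℝ) • n) := by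
    intro i
    rw [proj_norm _ _ hn]
  simp only [h3]
  have h4 : ∀ (c : ℝ) (a : E) (s : ℝ) (j : Fin 3), (c • (a - s • n)) j = c * (a j - s * n j) :=
    fun _ _ _ _ => rfl
  ext j
  rw [WithLp.ofLp_sum, Finset.sum_apply]
  have h5 : ∀ i, (((wts i * (‖nodes i‖ ^ 2 - (inner ℝ (nodes i) n : ℝ) ^ 2) *
      inner ℝ X (nodes i)) • (nodes i - (inner ℝ (nodes i) n : ℝ) • n)).ofLp j : ℝ) =
      (wts i * (‖nodes i‖ ^ 2 - (inner ℝ (nodes i) n : ℝ) ^ 2) *
      inner ℝ X (nodes i)) * (nodes i j - (inner ℝ (nodes i) n : ℝ) * n j) := fun i => h4 _ _ _ _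
  rw [Fin.sum_univ_seven]
  rw [h5, h5, h5, h5, h5, h5, h5, n0, n1, n2, n3, n4, n5, n6, w0, w1, w2, w3, w4, w5, w6]
  simp only [nsq_eq, inner3, vec0, vec1, vec2]
  fin_cases j
  · simp only [Fin.zero_eta, vec0]
    linear_combination (-(1 / 4) * X 0) * h1 +
      (n 0 * (-7 / 4 + 3 / 4 * (n 0 ^ 2 + n 1 ^ 2 + n 2 ^ 2))) * h2
  · simp only [Fin.mk_one, vec1]
    linear_combination (-(1 / 4) * X 1) * h1 +
      (n 1 * (-7 / 4 + 3 / 4 * (n 0 ^ 2 + n 1 ^ 2 + n 2 ^ 2))) * h2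
  · simp only [Fin.reduceFinMk, vec2]
    linear_combination (-(1 / 4) * X 2) * h1 +
      (n 2 * (-7 / 4 + 3 / 4 * (n 0 ^ 2 + n 1 ^ 2 + n 2 ^ 2))) * h2

end MPfab
end

section
/-!
MP_fabde4_an, module HARM (helper90): formal harmonic correction.
-/
set_option autoImplicit false
open MeasureTheory Set

namespace MPfab

namespace FHarm

open PDC FCalc

lemma pd_pow {ρ : E → ℝ} (hρ : Sm ρ) (n : ℕ) (i : Fin 3) (x : E) :
    pd i (fun y => ρ y ^ (n + 1)) x = ((n : ℝ) + 1) * ρ x ^ n * pd i ρ x := by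
  induction n with
  | zero =>
    simp
  | succ n ih =>
    have e : (fun y => ρ y ^ (n + 1 + 1)) = fun y => ρ y ^ (n + 1) * ρ y := by
      funext y
      ring
    rw [e, pd_mul ((hρ.pow (n + 1)).differentiable (by simp) x) (hρ.differentiable x), ih]
    push_cast
    ring

/-- the remainder of the Laplacian -/
noncomputable def rem (ρ κ : E → ℝ) (j : ℕ) (x : E) : ℝ :=
  ∑ i, (((j : ℝ) + 1) * pd i ρ x * pd i κ x +
    pd i (fun y => ((j : ℝ) + 2) * pd i ρ y * κ y + ρ y * pd i κ y) x)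

lemma rem_smooth {ρ κ : E → ℝ} (hρ : Sm ρ) (hκ : Sm κ) (j : ℕ) : Sm (rem ρ κ j) := by
  unfold rem
  refine ContDiff.sum fun i _ => ?_
  have h1 : Sm fun y => ((j : ℝ) + 2) * pd i ρ y * κ y + ρ y * pd i κ y :=
    ((contDiff_const.mul (hρ.pd i)).mul hκ).add (hρ.mul (hκ.pd i))
  exact ((contDiff_const.mul (hρ.pd i)).mul (hκ.pd i)).add (h1.pd i)

lemma lap_pow {ρ κ : E → ℝ} (hρ : Sm ρ) (hκ : Sm κ) (j : ℕ) (x : E) :
    lap (fun y => ρ y ^ (j + 2) * κ y) x =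
      ρ x ^ j * (((j : ℝ) + 1) * ((j : ℝ) + 2) * ‖gr ρ x‖ ^ 2 * κ x) +
        ρ x ^ (j + 1) * rem ρ κ j x := by
  have h1 : ∀ i, pd i (fun y => ρ y ^ (j + 2) * κ y) =
      fun y => ρ y ^ (j + 1) * (((j : ℝ) + 2) * pd i ρ y * κ y + ρ y * pd i κ y) := by
    intro i
    funext y
    rw [pd_mul ((hρ.pow (j + 2)).differentiable (by simp) y) (hκ.differentiable y),
      pd_pow hρ (j + 1)]
    push_cast
    ring
  have hs : ∀ i, Sm fun y => ((j : ℝ) + 2) * pd i ρ y * κ y + ρ y * pd i κ y := fun i =>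
    ((contDiff_const.mul (hρ.pd i)).mul hκ).add (hρ.mul (hκ.pd i))
  have h2 : ‖gr ρ x‖ ^ 2 = ∑ i, pd i ρ x ^ 2 := by
    rw [← real_inner_self_eq_norm_sq, inner_eq]
    exact Finset.sum_congr rfl fun i _ => by rw [gr_apply]; ring
  unfold lap rem
  rw [h2]
  simp only [h1]
  have h3 : ∀ i, pd i (fun y => ρ y ^ (j + 1) *
      (((j : ℝ) + 2) * pd i ρ y * κ y + ρ y * pd i κ y)) x =
      ρ x ^ j * (((j : ℝ) + 1) * ((j : ℝ) + 2) * pd i ρ x ^ 2 * κ x) +
      ρ x ^ (j + 1) * (((j : ℝ) + 1) * pd i ρ x * pd i κ x +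
        pd i (fun y => ((j : ℝ) + 2) * pd i ρ y * κ y + ρ y * pd i κ y) x) := by
    intro i
    rw [pd_mul ((hρ.pow (j + 1)).differentiable (by simp) x) ((hs i).differentiable x),
      pd_pow hρ j]
    ring
  simp only [h3]
  rw [Finset.sum_add_distrib]
  congr 1
  · rw [Finset.mul_sum, Finset.sum_mul, Finset.mul_sum]
  · rw [Finset.mul_sum]

lemma lap_sub {f g : E → ℝ} (hf : Sm f) (hg : Sm g) (x : E) :
    lap (fun y => f y - g y) x = lap f x - lap g x := by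
  unfold lap
  rw [← Finset.sum_sub_distrib]
  refine Finset.sum_congr rfl fun i _ => ?_
  have h1 : pd i (fun y => f y - g y) = fun y => pd i f y - pd i g y :=
    funext fun y => pd_sub (hf.differentiable y) (hg.differentiable y) i
  rw [h1, pd_sub ((hf.pd i).differentiable x) ((hg.pd i).differentiable x)]

lemma tan_corr {ρ f k : E → ℝ} (hρ : Sm ρ) (hf : Sm f) (hk : Sm k) (tf : Tan ρ (gr f)) :
    Tan ρ (gr fun y => f y + ρ y ^ 2 * k y) := by
  intro x hx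
  have h := (specBrkG ρ hρ f f k k hf hf hk hk tf tf x hx).2
  rw [h]
  exact tf x hx

end FHarm

open FHarm FCalc PDC in
theorem specHarm (hHad : SpecHad) : SpecHarm := by
  intro ρ hρ M f hf tf
  obtain ⟨θ, hθ, hθ1⟩ := specTheta ρ hρ.toDom
  have hs := hρ.smooth
  have key : ∀ j : ℕ, ∃ k g : E → ℝ, Sm k ∧ Sm g ∧
      ∀ x, lap (fun y => f y + ρ y ^ 2 * k y) x = ρ x ^ j * g x := by
    intro j
    induction j with
    | zero =>
      refine ⟨fun _ => 0, lap f, contDiff_const, hf.lap, fun x => ?_⟩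
      simp
    | succ j ih =>
      obtain ⟨k, g, hk, hg, hlap⟩ := ih
      set κ : E → ℝ := fun x => (((j : ℝ) + 1) * ((j : ℝ) + 2))⁻¹ * (θ x * g x) with hκdef
      have hκ : Sm κ := contDiff_const.mul (hθ.mul hg)
      have hv : ∀ x, ρ x = 0 → g x * (1 - θ x * ‖gr ρ x‖ ^ 2) = 0 := by
        intro x hx
        rw [hθ1 x hx]
        ring
      obtain ⟨h, hh, hhe⟩ := hHad ℝ ρ (fun x => g x * (1 - θ x * ‖gr ρ x‖ ^ 2)) hρ
        (hg.mul (contDiff_const.sub (hθ.mul (sm_nsq hs.gr)))) hv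
      refine ⟨fun x => k x - ρ x ^ j * κ x, fun x => h x - rem ρ κ j x,
        hk.sub ((hs.pow j).mul hκ), hh.sub (rem_smooth hs hκ j), fun x => ?_⟩
      have e : (fun y => f y + ρ y ^ 2 * (k y - ρ y ^ j * κ y)) =
          fun y => (f y + ρ y ^ 2 * k y) - ρ y ^ (j + 2) * κ y := by
        funext y
        ring
      rw [e, lap_sub (hf.add ((hs.pow 2).mul hk)) ((hs.pow (j + 2)).mul hκ), hlap,
        lap_pow hs hκ]
      have h1 := hhe x
      rw [smul_eq_mul] at h1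
      have h2 : ((j : ℝ) + 1) * ((j : ℝ) + 2) * ‖gr ρ x‖ ^ 2 * κ x =
          ‖gr ρ x‖ ^ 2 * (θ x * g x) := by
        rw [hκdef]
        have : ((j : ℝ) + 1) * ((j : ℝ) + 2) ≠ 0 := by positivity
        field_simp
      rw [h2, pow_succ]
      linear_combination (ρ x ^ j) * h1
  obtain ⟨k, g, hk, hg, hlap⟩ := key M
  exact ⟨k, hk, hf.add ((hs.pow 2).mul hk), tan_corr hs hf hk tf, g, hg, hlap⟩

end MPfab
end

section
/-!
MP_fabde4_an, module IDENT (helper90): the algebraic identity.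
-/
set_option autoImplicit false
open MeasureTheory Set

namespace MPfab

namespace FIdent

open PDC FCalc

lemma pd_gr {F : E → ℝ} (hF : Sm F) (i j : Fin 3) (x : E) :
    pd j (gr F) x i = pd j (pd i F) x := by
  rw [pd_comp_apply hF.gr]
  rfl

/-- `S(h,χ) = 2 Hess χ ∇h` -/
lemma Sx_apply {h χ : E → ℝ} (hh : Sm h) (hχ : Sm χ) (x : E) (i : Fin 3) :
    Sx h χ x i = 2 * ∑ j, pd j h x * pd i (pd j χ) x := by
  have e : (fun y => (inner ℝ (gr h y) (gr χ y) : ℝ)) = fun y => ∑ j, pd j h y * pd j χ y := by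
    funext y
    rw [inner_eq]
    rfl
  have h1 : gr (fun y => (inner ℝ (gr h y) (gr χ y) : ℝ)) x i =
      ∑ j, (pd j h x * pd i (pd j χ) x + pd i (pd j h) x * pd j χ x) := by
    rw [e, gr_apply, pd_sum (fun j _ => (((hh.pd j).mul (hχ.pd j)).differentiable (by simp)) x)]
    exact Finset.sum_congr rfl fun j _ =>
      pd_mul ((hh.pd j).differentiable x) ((hχ.pd j).differentiable x) i
  have h2 : Sx h χ x i = brk (gr h) (gr χ) x i +
      gr (fun y => (inner ℝ (gr h y) (gr χ y) : ℝ)) x i := rfl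
  rw [h2, h1, brk_apply, ← Finset.sum_add_distrib, Finset.mul_sum]
  refine Finset.sum_congr rfl fun j _ => ?_
  rw [pd_gr hχ, pd_gr hh, gr_apply, gr_apply, pd_comm hχ i j, pd_comm hh i j]
  ring

variable {χ h : E → ℝ} (c : ℝ)

lemma pd_const (a : ℝ) (i : Fin 3) (x : E) : pd i (fun _ : E => a) x = 0 := by
  unfold pd
  rw [fderiv_fun_const]
  rfl

lemma pd_chi (hχ : Sm χ) (j : Fin 3) (y : E) : pd j (fun y => χ y + c) y = pd j χ y := by
  rw [pd_add (hχ.differentiable y) (differentiableAt_const c), pd_const, add_zero]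

lemma pd_sq (hχ : Sm χ) (j : Fin 3) (y : E) : pd j (fun y => χ y ^ 2) y = 2 * χ y * pd j χ y := by
  have e : (fun y => χ y ^ 2) = fun y => χ y * χ y := by
    funext y
    ring
  rw [e, pd_mul (hχ.differentiable y) (hχ.differentiable y)]
  ring

lemma pd_p (hχ : Sm χ) (j : Fin 3) (y : E) :
    pd j (fun y => χ y ^ 2 / 2 + c * χ y) y = (χ y + c) * pd j χ y := by
  have e : (fun y => χ y ^ 2 / 2 + c * χ y) = fun y => (1 / 2) * χ y ^ 2 + c * χ y := by
    funext y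
    ring
  have h1 : pd j (fun y => (1 / 2) * χ y ^ 2) y = (1 / 2) * (2 * χ y * pd j χ y) := by
    rw [← pd_sq hχ]
    exact pd_const_smul (1 / 2) ((hχ.pow 2).differentiable (by simp) y) j
  have h2 : pd j (fun y => c * χ y) y = c * pd j χ y := pd_const_smul c (hχ.differentiable y) j
  rw [e, pd_add (((contDiff_const.mul (hχ.pow 2)).differentiable (by simp)) y)
    (((contDiff_const.mul hχ).differentiable (by simp)) y), h1, h2]
  ring

lemma sm_p (hχ : Sm χ) : Sm fun y => χ y ^ 2 / 2 + c * χ y :=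
  ((hχ.pow 2).div_const 2).add (contDiff_const.mul hχ)

lemma sm_c (hχ : Sm χ) : Sm fun y => χ y + c := hχ.add contDiff_const

lemma pd2_p (hχ : Sm χ) (i j : Fin 3) (x : E) :
    pd i (pd j (fun y => χ y ^ 2 / 2 + c * χ y)) x =
      (χ x + c) * pd i (pd j χ) x + pd i χ x * pd j χ x := by
  rw [show pd j (fun y => χ y ^ 2 / 2 + c * χ y) = fun y => (χ y + c) * pd j χ y from
    funext (pd_p c hχ j), pd_mul ((sm_c c hχ).differentiable x) ((hχ.pd j).differentiable x),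
    pd_chi c hχ]

lemma pd2_sq (hχ : Sm χ) (i j : Fin 3) (x : E) :
    pd i (pd j (fun y => χ y ^ 2)) x = 2 * χ x * pd i (pd j χ) x + 2 * pd i χ x * pd j χ x := by
  rw [show pd j (fun y => χ y ^ 2) = fun y => 2 * χ y * pd j χ y from funext (pd_sq hχ j),
    pd_mul (((contDiff_const.mul hχ).differentiable (by simp)) x) ((hχ.pd j).differentiable x)]
  have h2 : pd i (fun y => 2 * χ y) x = 2 * pd i χ x := pd_const_smul 2 (hχ.differentiable x) i
  rw [h2]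

lemma pd_psq (hχ : Sm χ) (j : Fin 3) (y : E) :
    pd j (fun y => (χ y ^ 2 / 2 + c * χ y) ^ 2) y =
      2 * (χ y ^ 2 / 2 + c * χ y) * ((χ y + c) * pd j χ y) := by
  rw [pd_sq (sm_p c hχ), pd_p c hχ]

lemma pd2_psq (hχ : Sm χ) (i j : Fin 3) (x : E) :
    pd i (pd j (fun y => (χ y ^ 2 / 2 + c * χ y) ^ 2)) x =
      2 * (χ x ^ 2 / 2 + c * χ x) * ((χ x + c) * pd i (pd j χ) x + pd i χ x * pd j χ x) +
      2 * ((χ x + c) * pd i χ x) * ((χ x + c) * pd j χ x) := by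
  rw [pd2_sq (sm_p c hχ), pd2_p c hχ, pd_p c hχ, pd_p c hχ]

end FIdent

open FIdent FCalc PDC in
theorem specIdent : SpecIdent := by
  intro h χ c hh hχ x
  have sp := sm_p c hχ
  have sc := sm_c c hχ
  have sk : Sm fun y => (χ y + c) ^ 2 * h y := (sc.pow 2).mul hh
  have e1 : ∀ j, pd j (fun y => (χ y ^ 2 / 2 + c * χ y) * h y) x =
      (χ x ^ 2 / 2 + c * χ x) * pd j h x + (χ x + c) * pd j χ x * h x := by
    intro j
    rw [pd_mul (sp.differentiable x) (hh.differentiable x), pd_p c hχ]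
  have e2 : ∀ j, pd j (fun y => (χ y + c) ^ 2 * h y) x =
      (χ x + c) ^ 2 * pd j h x + 2 * (χ x + c) * pd j χ x * h x := by
    intro j
    rw [pd_mul ((sc.pow 2).differentiable (by simp) x) (hh.differentiable x), pd_sq sc,
      pd_chi c hχ]
  have e3 : ∀ j, pd j (fun y => χ y * ((χ y + c) ^ 2 * h y)) x =
      χ x * ((χ x + c) ^ 2 * pd j h x + 2 * (χ x + c) * pd j χ x * h x) +
        pd j χ x * ((χ x + c) ^ 2 * h x) := by
    intro j
    rw [pd_mul (hχ.differentiable x) (sk.differentiable x), e2]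
  have hn : ‖gr χ x‖ ^ 2 = ∑ j, pd j χ x ^ 2 := by
    rw [← real_inner_self_eq_norm_sq, inner_eq]
    exact Finset.sum_congr rfl fun i _ => by rw [gr_apply]; ring
  ext i
  have L : ((1 / 4 : ℝ) • Sx h (fun y => (χ y ^ 2 / 2 + c * χ y) ^ 2) x
      - (1 / 2 : ℝ) • Sx (fun y => (χ y ^ 2 / 2 + c * χ y) * h y)
        (fun y => χ y ^ 2 / 2 + c * χ y) x
      - (1 / 4 : ℝ) • Sx (fun y => (χ y + c) ^ 2 * h y) (fun y => χ y ^ 2) x
      + (1 / 2 : ℝ) • Sx (fun y => χ y * ((χ y + c) ^ 2 * h y)) χ x) i =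
      (1 / 4 : ℝ) * Sx h (fun y => (χ y ^ 2 / 2 + c * χ y) ^ 2) x i
      - (1 / 2 : ℝ) * Sx (fun y => (χ y ^ 2 / 2 + c * χ y) * h y)
        (fun y => χ y ^ 2 / 2 + c * χ y) x i
      - (1 / 4 : ℝ) * Sx (fun y => (χ y + c) ^ 2 * h y) (fun y => χ y ^ 2) x i
      + (1 / 2 : ℝ) * Sx (fun y => χ y * ((χ y + c) ^ 2 * h y)) χ x i := rfl
  rw [L, Sx_apply hh (sp.pow 2), Sx_apply (sp.mul hh) sp, Sx_apply sk (hχ.pow 2),
    Sx_apply (hχ.mul sk) hχ]
  have R : (-(3 * h x * (χ x + c) * ‖gr χ x‖ ^ 2) • gr χ x) i =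
      -(3 * h x * (χ x + c) * ‖gr χ x‖ ^ 2) * pd i χ x := rfl
  rw [R, hn]
  simp only [e1, e2, e3, pd2_psq c hχ, pd2_p c hχ, pd2_sq hχ, Fin.sum_univ_three]
  ring

end MPfab
end
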