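import Pool.Agent.Lib.MP_fabde4_an.M.Lop
import Pool.Agent.Lib.MP_fabde4_an.F.Ident
import Pool.Agent.Lib.MP_fabde4_an.Gauss

section
/-!
MP_fabde4_an, module BRKT (helper87): the bracket of tangential fields.
-/
set_option autoImplicit false
open MeasureTheory Set

namespace MPfab

namespace Brkt

open PDC

/-- partial derivatives of the components of the bracket -/
theorem pd_brk {T w : E → E} (hT : Sm T) (hw : Sm w) (k i : Fin 3) (x : E) :
    pd k (brk T w) x i = ∑ j, ((T x j * pd k (pd j (fun y => w y i)) x +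
      pd k (fun y => T y j) x * pd j (fun y => w y i) x) -
      (w x j * pd k (pd j (fun y => T y i)) x +
      pd k (fun y => w y j) x * pd j (fun y => T y i) x)) := by
  have hT0 : ∀ j, Sm (fun y => T y j) := fun j => hT.comp_apply j
  have hw0 : ∀ j, Sm (fun y => w y j) := fun j => hw.comp_apply j
  rw [pd_comp_apply (hT.brk hw)]
  simp only [brk_apply]
  simp only [pd_comp_apply hT, pd_comp_apply hw]
  rw [pd_sum (fun j _ => ((((hT0 j).mul ((hw0 i).pd j)).sub
    ((hw0 j).mul ((hT0 i).pd j))).differentiable (by simp)) x)]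
  refine Finset.sum_congr rfl fun j _ => ?_
  rw [pd_sub ((((hT0 j).mul ((hw0 i).pd j)).differentiable (by simp)) x)
    ((((hw0 j).mul ((hT0 i).pd j)).differentiable (by simp)) x),
    pd_mul ((hT0 j).differentiable x) (((hw0 i).pd j).differentiable x),
    pd_mul ((hw0 j).differentiable x) (((hT0 i).pd j).differentiable x)]

theorem dv_brk {X Y : E → E} (hX : Sm X) (hY : Sm Y) (x : E) :
    dv (brk X Y) x = fderiv ℝ (dv Y) x (X x) - fderiv ℝ (dv X) x (Y x) := by
  have hX0 : ∀ j, Sm (fun y => X y j) := fun j => hX.comp_apply j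
  have hY0 : ∀ j, Sm (fun y => Y y j) := fun j => hY.comp_apply j
  have e : ∀ Z : E → E, Sm Z → ∀ k, pd k (dv Z) x = ∑ i, pd k (pd i (fun y => Z y i)) x := by
    intro Z hZ k
    have h0 : ∀ j, Sm (fun y => Z y j) := fun j => hZ.comp_apply j
    have h1 : dv Z = fun y => ∑ i, pd i (fun z => Z z i) y := by
      funext y
      unfold dv
      exact Finset.sum_congr rfl fun i _ => pd_comp_apply hZ i i y
    rw [h1, pd_sum (fun j _ => ((h0 j).pd j).differentiable x)]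
  rw [fderiv_eq_sum, fderiv_eq_sum]
  simp only [e X hX, e Y hY, smul_eq_mul]
  show ∑ k, pd k (brk X Y) x k = _
  simp only [pd_brk hX hY, Fin.sum_univ_three]
  rw [pd_comm (hX0 0) 1 0, pd_comm (hX0 1) 1 0, pd_comm (hX0 0) 2 0, pd_comm (hX0 2) 2 0,
    pd_comm (hX0 1) 2 1, pd_comm (hX0 2) 2 1, pd_comm (hY0 0) 1 0, pd_comm (hY0 1) 1 0,
    pd_comm (hY0 0) 2 0, pd_comm (hY0 2) 2 0, pd_comm (hY0 1) 2 1, pd_comm (hY0 2) 2 1]
  ring

theorem tan_brk (hTan : SpecTanD) {ρ : E → ℝ} (hρ : Sm ρ)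
    (hreg : ∀ x, ρ x = 0 → fderiv ℝ ρ x ≠ 0) {X Y : E → E} (hX : Sm X) (hY : Sm Y)
    (tX : Tan ρ X) (tY : Tan ρ Y) : Tan ρ (brk X Y) := by
  intro x hx
  have hX0 : ∀ j, Sm (fun y => X y j) := fun j => hX.comp_apply j
  have hY0 : ∀ j, Sm (fun y => Y y j) := fun j => hY.comp_apply j
  have e : ∀ Z : E → E, Sm Z → (fun y => fderiv ℝ ρ y (Z y)) = fun y => ∑ j, Z y j * pd j ρ y := by
    intro Z hZ
    funext y
    rw [fderiv_eq_sum]
    simp only [smul_eq_mul]
  have hs : ∀ Z : E → E, Sm Z → Sm (fun y => fderiv ℝ ρ y (Z y)) := by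
    intro Z hZ
    rw [e Z hZ]
    exact ContDiff.sum fun i _ => (hZ.comp_apply i).mul (hρ.pd i)
  have h1 := hTan ρ hρ hreg (fun y => fderiv ℝ ρ y (Y y)) (hs Y hY) tY x (X x) hx (tX x hx)
  have h2 := hTan ρ hρ hreg (fun y => fderiv ℝ ρ y (X y)) (hs X hX) tX x (Y x) hx (tY x hx)
  have d : ∀ Z : E → E, Sm Z → ∀ k, pd k (fun y => fderiv ℝ ρ y (Z y)) x =
      ∑ j, (Z x j * pd k (pd j ρ) x + pd k (fun y => Z y j) x * pd j ρ x) := by
    intro Z hZ k
    have h0 : ∀ j, Sm (fun y => Z y j) := fun j => hZ.comp_apply j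
    rw [e Z hZ, pd_sum (fun j _ => (((h0 j).mul (hρ.pd j)).differentiable (by simp)) x)]
    refine Finset.sum_congr rfl fun j _ => ?_
    rw [pd_mul ((h0 j).differentiable x) ((hρ.pd j).differentiable x)]
  rw [fderiv_eq_sum] at h1 h2 ⊢
  simp only [d X hX, d Y hY, smul_eq_mul, Fin.sum_univ_three] at h1 h2
  simp only [brk_apply, smul_eq_mul, Fin.sum_univ_three, pd_comp_apply hX, pd_comp_apply hY]
  rw [pd_comm hρ 1 0, pd_comm hρ 2 0, pd_comm hρ 2 1] at h1 h2
  linear_combination h1 - h2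

theorem curl_brk {T : E → E} (hT : Sm T) : ∃ (a : Fin 3 → Fin 3 → Fin 3 → E → ℝ)
    (b : Fin 3 → Fin 3 → E → ℝ), (∀ i j l, Sm (a i j l)) ∧ (∀ i j, Sm (b i j)) ∧
    ∀ w : E → E, Sm w → ∀ x i,
      MPfab.curl (brk T w) x i = fderiv ℝ (MPfab.curl w) x (T x) i +
        (∑ j, ∑ l, a i j l x * pd j w x l) + ∑ j, b i j x * w x j := by
  have hT0 : ∀ j, Sm (fun y => T y j) := fun j => hT.comp_apply j
  refine ⟨fun i j l x => (if l = i + 2 then pd (i + 1) (fun y => T y j) x else 0) -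
      (if j = i + 1 then pd l (fun y => T y (i + 2)) x else 0) -
      (if l = i + 1 then pd (i + 2) (fun y => T y j) x else 0) +
      (if j = i + 2 then pd l (fun y => T y (i + 1)) x else 0),
    fun i j x => pd (i + 2) (pd j (fun y => T y (i + 1))) x -
      pd (i + 1) (pd j (fun y => T y (i + 2))) x, ?_, ?_, ?_⟩
  · intro i j l
    have h : ∀ (P : Prop) [Decidable P] (k m : Fin 3),
        Sm (fun x => if P then pd k (fun y => T y m) x else 0) := by
      intro P _ k m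
      by_cases hP : P
      · simp only [hP, if_true]
        exact (hT0 m).pd k
      · simp only [hP, if_false]
        exact contDiff_const
    exact (((h _ _ _).sub (h _ _ _)).sub (h _ _ _)).add (h _ _ _)
  · intro i j
    exact (((hT0 _).pd j).pd _).sub (((hT0 _).pd j).pd _)
  · intro w hw x i
    have hw0 : ∀ j, Sm (fun y => w y j) := fun j => hw.comp_apply j
    have c0 := fun k => (pd_curl hw k x).1
    have c1 := fun k => (pd_curl hw k x).2.1
    have c2 := fun k => (pd_curl hw k x).2.2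
    have hf : ∀ i, (fderiv ℝ (MPfab.curl w) x (T x)) i =
        ∑ k, T x k * pd k (MPfab.curl w) x i := by
      intro i
      rw [fderiv_eq_sum]
      simp [Fin.sum_univ_three]
    rw [hf]
    fin_cases i
    · show MPfab.curl (brk T w) x 0 = (∑ k, T x k * pd k (MPfab.curl w) x 0) + _ + _
      rw [curl_apply0, pd_brk hT hw, pd_brk hT hw]
      simp only [Fin.sum_univ_three, c0, pd_comp_apply hw]
      rw [pd_comm (hw0 2) 1 0, pd_comm (hw0 1) 2 0, pd_comm (hw0 1) 2 1, pd_comm (hw0 2) 2 1]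
      simp
      ring
    · show MPfab.curl (brk T w) x 1 = (∑ k, T x k * pd k (MPfab.curl w) x 1) + _ + _
      rw [curl_apply1, pd_brk hT hw, pd_brk hT hw]
      simp only [Fin.sum_univ_three, c1, pd_comp_apply hw]
      rw [pd_comm (hw0 0) 2 0, pd_comm (hw0 0) 2 1, pd_comm (hw0 2) 1 0, pd_comm (hw0 2) 2 0]
      simp
      ring
    · show MPfab.curl (brk T w) x 2 = (∑ k, T x k * pd k (MPfab.curl w) x 2) + _ + _
      rw [curl_apply2, pd_brk hT hw, pd_brk hT hw]
      simp only [Fin.sum_univ_three, c2, pd_comp_apply hw]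
      rw [pd_comm (hw0 0) 1 0, pd_comm (hw0 0) 2 1, pd_comm (hw0 1) 1 0, pd_comm (hw0 1) 2 0]
      simp
      ring

end Brkt

/-- module BRKT -/
theorem specBrkT (hTan : SpecTanD) : SpecBrkT where
  tan _ hρ hreg _ _ hX hY tX tY := Brkt.tan_brk hTan hρ hreg hX hY tX tY
  dv _ _ hX hY x := Brkt.dv_brk hX hY x
  curl _ hT := Brkt.curl_brk hT

end MPfab
end

section
/-!
MP_fabde4_an, modules BDRY, DIVB (helper90).
-/
set_option autoImplicit false
open MeasureTheory Set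

namespace MPfab

namespace FDivB

open PDC FCalc FIdent

lemma dv_gr {H : E → ℝ} (hH : Sm H) (x : E) : dv (gr H) x = lap H x := by
  unfold dv lap
  exact Finset.sum_congr rfl fun i _ => pd_gr hH i i x

lemma dv_add {X Y : E → E} (hX : Sm X) (hY : Sm Y) (x : E) :
    dv (fun y => X y + Y y) x = dv X x + dv Y x := by
  unfold dv
  rw [← Finset.sum_add_distrib]
  refine Finset.sum_congr rfl fun i _ => ?_
  rw [pd_add (hX.differentiable x) (hY.differentiable x)]
  rfl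

lemma dv_sum {ι : Type*} (s : Finset ι) {X : ι → E → E} (hX : ∀ i, Sm (X i)) (x : E) :
    dv (fun y => ∑ i ∈ s, X i y) x = ∑ i ∈ s, dv (X i) x := by
  classical
  induction s using Finset.induction_on with
  | empty =>
    simp only [Finset.sum_empty]
    unfold dv pd
    simp
  | insert a s ha ih =>
    have e : (fun y => ∑ i ∈ insert a s, X i y) = fun y => X a y + ∑ i ∈ s, X i y := by
      funext y
      rw [Finset.sum_insert ha]
    rw [e, dv_add (hX a) (ContDiff.sum fun i _ => hX i), ih, Finset.sum_insert ha]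

/-- the quotient of the derivative of `ρ² g` in the direction `∇F` -/
noncomputable def qq (ρ F g : E → ℝ) (x : E) : ℝ :=
  ∑ j, pd j F x * (2 * pd j ρ x * g x + ρ x * pd j g x)

lemma qq_smooth {ρ F g : E → ℝ} (hρ : Sm ρ) (hF : Sm F) (hg : Sm g) : Sm (qq ρ F g) := by
  unfold qq
  exact ContDiff.sum fun j _ => (hF.pd j).mul (((contDiff_const.mul (hρ.pd j)).mul hg).add
    (hρ.mul (hg.pd j)))

lemma fd_rk {ρ F g : E → ℝ} (hρ : Sm ρ) (hg : Sm g) (x : E) :
    fderiv ℝ (fun y => ρ y ^ 2 * g y) x (gr F x) = ρ x * qq ρ F g x := by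
  rw [fderiv_eq_sum]
  unfold qq
  rw [Finset.mul_sum]
  refine Finset.sum_congr rfl fun j _ => ?_
  rw [FBrkG.pd_rk hρ hg, smul_eq_mul, gr_apply]
  ring

end FDivB

open FDivB FCalc PDC in
theorem specDivB : SpecDivB := by
  intro ρ hρ n F G H hF hG hH
  have hs := hρ.smooth
  obtain ⟨hH0, hHs, hHl⟩ := hH.harm
  choose f hf hfl using fun i => (hF i).harm
  choose g hg hgl using fun i => (hG i).harm
  have hb : ∀ i, Sm (brk (gr (F i)) (gr (G i))) := fun i =>
    (hF i).smooth.gr.brk (hG i).smooth.gr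
  refine ⟨fun x => ρ x * hH0 x + ∑ i, (qq ρ (F i) (g i) x - qq ρ (G i) (f i) x),
    (hs.mul hHs).add (ContDiff.sum fun i _ => (qq_smooth hs (hF i).smooth (hg i)).sub
      (qq_smooth hs (hG i).smooth (hf i))), fun x => ?_⟩
  rw [dv_add hH.smooth.gr (ContDiff.sum fun i _ => hb i), dv_gr hH.smooth, hHl,
    dv_sum _ hb]
  have e1 : ∀ i, dv (brk (gr (F i)) (gr (G i))) x =
      ρ x * (qq ρ (F i) (g i) x - qq ρ (G i) (f i) x) := by
    intro i
    have e2 : dv (gr (G i)) = fun y => ρ y ^ 2 * g i y := by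
      funext y
      rw [dv_gr (hG i).smooth, hgl]
    have e3 : dv (gr (F i)) = fun y => ρ y ^ 2 * f i y := by
      funext y
      rw [dv_gr (hF i).smooth, hfl]
    rw [Brkt.dv_brk (hF i).smooth.gr (hG i).smooth.gr, e2, e3, fd_rk hs (hg i),
      fd_rk hs (hf i)]
    ring
  simp only [e1]
  rw [← Finset.mul_sum]
  ring

namespace FBdry

open PDC FCalc FIdent

/-- Neumann functions -/
structure Neu (ρ f : E → ℝ) : Prop where
  sm : Sm f
  tan : Tan ρ (gr f)

lemma Neu.inner {ρ f : E → ℝ} (h : Neu ρ f) {x : E} (hx : ρ x = 0) :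
    (inner ℝ (gr f x) (gr ρ x) : ℝ) = 0 := tan_inner.1 h.tan x hx

lemma Neu.mul {ρ f g : E → ℝ} (hf : Neu ρ f) (hg : Neu ρ g) : Neu ρ fun x => f x * g x := by
  refine ⟨hf.sm.mul hg.sm, tan_inner.2 fun x hx => ?_⟩
  rw [gr_mul hf.sm hg.sm, inner_add_left, inner_smul_left, inner_smul_left, hf.inner hx,
    hg.inner hx]
  simp

lemma Neu.add {ρ f g : E → ℝ} (hf : Neu ρ f) (hg : Neu ρ g) : Neu ρ fun x => f x + g x := by
  refine ⟨hf.sm.add hg.sm, tan_inner.2 fun x hx => ?_⟩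
  rw [gr_add hf.sm hg.sm, inner_add_left, hf.inner hx, hg.inner hx, add_zero]

lemma gr_const (c : ℝ) (x : E) : gr (fun _ => c) x = 0 := by
  ext i
  show pd i (fun _ => c) x = 0
  exact pd_const c i x

lemma Neu.const (ρ : E → ℝ) (c : ℝ) : Neu ρ fun _ => c := by
  refine ⟨contDiff_const, tan_inner.2 fun x _ => ?_⟩
  rw [gr_const, inner_zero_left]

lemma Neu.cmul {ρ f : E → ℝ} (c : ℝ) (hf : Neu ρ f) : Neu ρ fun x => c * f x :=
  (Neu.const ρ c).mul hf

lemma Neu.sq {ρ f : E → ℝ} (hf : Neu ρ f) : Neu ρ fun x => f x ^ 2 := by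
  have : (fun x => f x ^ 2) = fun x => f x * f x := by
    funext x
    ring
  rw [this]
  exact hf.mul hf

lemma Neu.p {ρ f : E → ℝ} (c : ℝ) (hf : Neu ρ f) : Neu ρ fun x => f x ^ 2 / 2 + c * f x := by
  have : (fun x => f x ^ 2 / 2 + c * f x) = fun x => (1 / 2) * f x ^ 2 + c * f x := by
    funext x
    ring
  rw [this]
  exact (hf.sq.cmul (1 / 2)).add (hf.cmul c)

/-- fields of the required form on the boundary -/
def Rep (ρ : E → ℝ) (Y : E → E) : Prop :=
  ∃ (L : List ((E → ℝ) × (E → ℝ))) (H : E → ℝ), (∀ p ∈ L, Neu ρ p.1 ∧ Neu ρ p.2) ∧ Sm H ∧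
    ∀ x, ρ x = 0 → Y x = gr H x + (L.map fun p => brk (gr p.1) (gr p.2) x).sum

lemma Rep.add {ρ : E → ℝ} {Y Z : E → E} (hY : Rep ρ Y) (hZ : Rep ρ Z) :
    Rep ρ fun x => Y x + Z x := by
  obtain ⟨L, H, hL, hH, h⟩ := hY
  obtain ⟨L', H', hL', hH', h'⟩ := hZ
  refine ⟨L ++ L', fun x => H x + H' x, ?_, hH.add hH', fun x hx => ?_⟩
  · intro p hp
    rcases List.mem_append.1 hp with hp | hp
    · exact hL p hp
    · exact hL' p hp
  · show Y x + Z x = _
    rw [h x hx, h' x hx, gr_add hH hH', List.map_append, List.sum_append]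
    abel

lemma Rep.zero (ρ : E → ℝ) : Rep ρ fun _ => 0 :=
  ⟨[], fun _ => 0, by simp, contDiff_const, fun x _ => by
    rw [gr_const]
    simp⟩

lemma Rep.sum {ρ : E → ℝ} {ι : Type*} (s : Finset ι) {Y : ι → E → E}
    (h : ∀ i ∈ s, Rep ρ (Y i)) : Rep ρ fun x => ∑ i ∈ s, Y i x := by
  classical
  induction s using Finset.induction_on with
  | empty =>
    simp only [Finset.sum_empty]
    exact Rep.zero ρ
  | insert a s ha ih =>
    have e : (fun x => ∑ i ∈ insert a s, Y i x) = fun x => Y a x + ∑ i ∈ s, Y i x := by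
      funext x
      rw [Finset.sum_insert ha]
    rw [e]
    exact (h a (Finset.mem_insert_self a s)).add
      (ih fun i hi => h i (Finset.mem_insert_of_mem hi))

lemma Rep.congr {ρ : E → ℝ} {Y Z : E → E} (hY : Rep ρ Y) (h : ∀ x, ρ x = 0 → Z x = Y x) :
    Rep ρ Z := by
  obtain ⟨L, H, hL, hH, h'⟩ := hY
  exact ⟨L, H, hL, hH, fun x hx => (h x hx).trans (h' x hx)⟩

lemma brk_cmul {F G : E → ℝ} (hF : Sm F) (c : ℝ) (x : E) :
    brk (gr fun y => c * F y) (gr G) x = c • brk (gr F) (gr G) x := by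
  have hcF : Sm fun y => c * F y := contDiff_const.mul hF
  have e1 : ∀ j y, pd j (fun y => c * F y) y = c * pd j F y := fun j y =>
    pd_const_smul c (hF.differentiable y) j
  have e2 : ∀ i j, pd j (gr fun y => c * F y) x i = c * pd j (gr F) x i := by
    intro i j
    rw [pd_gr hcF, pd_gr hF, show pd i (fun y => c * F y) = fun y => c * pd i F y from
      funext (e1 i)]
    exact pd_const_smul c ((hF.pd i).differentiable x) j
  ext i
  show brk (gr fun y => c * F y) (gr G) x i = c * brk (gr F) (gr G) x i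
  rw [brk_apply, brk_apply, Finset.mul_sum]
  refine Finset.sum_congr rfl fun j _ => ?_
  rw [e2, gr_apply, e1, gr_apply, gr_apply]
  ring

lemma Rep.sx {ρ F G : E → ℝ} (hF : Neu ρ F) (hG : Neu ρ G) (c : ℝ) :
    Rep ρ fun x => c • Sx F G x := by
  have hi : Sm fun y => (inner ℝ (gr F y) (gr G y) : ℝ) := sm_inner hF.sm.gr hG.sm.gr
  refine ⟨[(fun x => c * F x, G)], fun y => c * inner ℝ (gr F y) (gr G y), ?_,
    contDiff_const.mul hi, fun x _ => ?_⟩
  · intro p hp
    rw [List.mem_singleton] at hp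
    subst hp
    exact ⟨hF.cmul c, hG⟩
  · simp only [List.map_cons, List.map_nil, List.sum_cons, List.sum_nil, add_zero]
    rw [brk_cmul hF.sm, gr_const_mul c hi]
    unfold Sx
    rw [smul_add, add_comm]

/-- one node of the cubature -/
lemma node {ρ : E → ℝ} (hρ : DomN ρ) {θ : E → ℝ}
    (hθ1 : ∀ x, ρ x = 0 → θ x * ‖gr ρ x‖ ^ 2 = 1) {X : E → E} (hX : Sm X) (a : E) (w : ℝ) :
    Rep ρ fun x => (w * ‖a - (θ x * inner ℝ a (gr ρ x)) • gr ρ x‖ ^ 2 * inner ℝ (X x) a) •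
      (a - (θ x * inner ℝ a (gr ρ x)) • gr ρ x) := by
  have hs := hρ.smooth
  have hlin : Sm fun x : E => (inner ℝ a x : ℝ) := contDiff_const.inner ℝ contDiff_id
  obtain ⟨χ, hχs, hχt, hχe, hχg⟩ := specNeuC ρ hρ.toDom (fun x => inner ℝ a x) hlin
  have hχ : Neu ρ χ := ⟨hχs, hχt⟩
  have hgrlin : ∀ x, gr (fun x : E => (inner ℝ a x : ℝ)) x = a := by
    intro x
    ext i
    show fderiv ℝ (fun x : E => (inner ℝ a x : ℝ)) x (eb i) = a i
    have : HasFDerivAt (fun x : E => (inner ℝ a x : ℝ)) (innerSL ℝ a) x :=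
      (innerSL ℝ a).hasFDerivAt
    rw [this.fderiv]
    show (inner ℝ a (eb i) : ℝ) = a i
    rw [eb, EuclideanSpace.inner_single_right]
    simp
  obtain ⟨R, hR⟩ := hρ.nrm
  set c : ℝ := ‖a‖ * |R| + 1 with hc
  have hpos : ∀ x, ρ x = 0 → 0 < χ x + c := by
    intro x hx
    have h1 : ‖x‖ < R := by
      by_contra hcon
      rw [hR x (not_lt.1 hcon)] at hx
      norm_num at hx
    have h2 : |(inner ℝ a x : ℝ)| ≤ ‖a‖ * ‖x‖ := abs_real_inner_le_norm a x
    have h3 : ‖a‖ * ‖x‖ ≤ ‖a‖ * |R| :=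
      mul_le_mul_of_nonneg_left (h1.le.trans (le_abs_self R)) (norm_nonneg a)
    rw [hχe x hx, hc]
    have := (abs_le.1 h2).1
    linarith
  have hden : ∀ x, (χ x + c) ^ 2 + ρ x ^ 2 ≠ 0 := by
    intro x
    by_cases hx : ρ x = 0
    · have h1 := hpos x hx
      have h2 : 0 < (χ x + c) ^ 2 := by positivity
      nlinarith [sq_nonneg (ρ x)]
    · have h2 : 0 < ρ x ^ 2 := by positivity
      nlinarith [sq_nonneg (χ x + c)]
  have hXa : Sm fun x => (inner ℝ (X x) a : ℝ) := hX.inner ℝ contDiff_const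
  have hh0 : Sm fun x => -(w / 3) * (inner ℝ (X x) a * ((χ x + c) /
      ((χ x + c) ^ 2 + ρ x ^ 2))) :=
    contDiff_const.mul (hXa.mul ((hχs.add contDiff_const).div
      (((hχs.add contDiff_const).pow 2).add (hs.pow 2)) hden))
  obtain ⟨h, hhs, hht, hhe, -⟩ := specNeuC ρ hρ.toDom _ hh0
  have hh : Neu ρ h := ⟨hhs, hht⟩
  have hcc : Neu ρ fun x => χ x + c := hχ.add (Neu.const ρ c)
  have hp : Neu ρ fun x => χ x ^ 2 / 2 + c * χ x := hχ.p c
  have hk : Neu ρ fun x => (χ x + c) ^ 2 * h x := hcc.sq.mul hh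
  have hrep : Rep ρ fun x => (1 / 4 : ℝ) • Sx h (fun y => (χ y ^ 2 / 2 + c * χ y) ^ 2) x +
      (-(1 / 2) : ℝ) • Sx (fun y => (χ y ^ 2 / 2 + c * χ y) * h y)
        (fun y => χ y ^ 2 / 2 + c * χ y) x +
      (-(1 / 4) : ℝ) • Sx (fun y => (χ y + c) ^ 2 * h y) (fun y => χ y ^ 2) x +
      (1 / 2 : ℝ) • Sx (fun y => χ y * ((χ y + c) ^ 2 * h y)) χ x :=
    (((Rep.sx hh hp.sq (1 / 4)).add (Rep.sx (hp.mul hh) hp (-(1 / 2)))).add
      (Rep.sx hk hχ.sq (-(1 / 4)))).add (Rep.sx (hχ.mul hk) hχ (1 / 2))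
  refine hrep.congr fun x hx => ?_
  have hid := specIdent h χ c hhs hχs x
  have hgx : gr χ x = a - (θ x * inner ℝ a (gr ρ x)) • gr ρ x := by
    rw [hχg θ hθ1 x hx, hgrlin]
  have hh1 : -(3 * h x * (χ x + c) * ‖gr χ x‖ ^ 2) =
      w * ‖gr χ x‖ ^ 2 * inner ℝ (X x) a := by
    have h1 := hpos x hx
    rw [hhe x hx, hx]
    field_simp
    ring
  rw [hh1, hgx] at hid
  rw [hid]
  module

end FBdry

open FBdry FCalc PDC FCuba in
theorem specBdry (hHad : SpecHad) : SpecBdry := by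
  intro ρ hρ M X hX tX
  have hs := hρ.smooth
  have hTan := specTanD specBnd
  obtain ⟨θ, hθ, hθ1⟩ := specTheta ρ hρ.toDom
  obtain ⟨a, w, hcub⟩ := specCuba
  have hrep : Rep ρ fun x => ∑ i, (w i * ‖a i - (θ x * inner ℝ (a i) (gr ρ x)) • gr ρ x‖ ^ 2 *
      inner ℝ (X x) (a i)) • (a i - (θ x * inner ℝ (a i) (gr ρ x)) • gr ρ x) :=
    Rep.sum Finset.univ fun i _ => node hρ hθ1 hX (a i) (w i)
  have hrepX : Rep ρ X := by
    refine hrep.congr fun x hx => ?_
    have hN : ‖gr ρ x‖ ≠ 0 := norm_ne_zero_iff.2 (gr_ne (hρ.reg x hx))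
    set n : E := ‖gr ρ x‖⁻¹ • gr ρ x with hn
    have hn1 : ‖n‖ = 1 := by
      rw [hn, norm_smul, norm_inv, norm_norm, inv_mul_cancel₀ hN]
    have hXn : (inner ℝ (X x) n : ℝ) = 0 := by
      rw [hn, inner_smul_right, tan_inner.1 tX x hx, mul_zero]
    have hθx : θ x = ‖gr ρ x‖⁻¹ * ‖gr ρ x‖⁻¹ := by
      have h1 := hθ1 x hx
      field_simp
      linarith
    have e : ∀ i, (θ x * inner ℝ (a i) (gr ρ x)) • gr ρ x = (inner ℝ (a i) n : ℝ) • n := by
      intro i
      rw [hn, inner_smul_right, smul_smul, hθx]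
      congr 1
      ring
    simp only [e]
    exact (hcub n (X x) hn1 hXn).symm
  obtain ⟨L, H, hL, hH, hE⟩ := hrepX
  have hbs : ∀ p ∈ L, Tan ρ (brk (gr p.1) (gr p.2)) := fun p hp =>
    Brkt.tan_brk hTan hs hρ.reg (hL p hp).1.sm.gr (hL p hp).2.sm.gr (hL p hp).1.tan
      (hL p hp).2.tan
  have htH : Tan ρ (gr H) := by
    intro x hx
    have h1 : gr H x = X x - (L.map fun p => brk (gr p.1) (gr p.2) x).sum := by
      rw [hE x hx]
      abel
    rw [h1, map_sub, tX x hx, map_list_sum, List.map_map, zero_sub, neg_eq_zero]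
    refine List.sum_eq_zero fun y hy => ?_
    rw [List.mem_map] at hy
    obtain ⟨p, hp, rfl⟩ := hy
    exact hbs p hp x hx
  obtain ⟨k, hk, hkF⟩ := specHarm hHad ρ hρ M H hH htH
  have hL' : ∀ i : Fin L.length, Neu ρ (L.get i).1 ∧ Neu ρ (L.get i).2 := fun i =>
    hL _ (List.get_mem L i)
  choose kF hkF1 hkF2 using fun i => specHarm hHad ρ hρ M (L.get i).1 (hL' i).1.sm (hL' i).1.tan
  choose kG hkG1 hkG2 using fun i => specHarm hHad ρ hρ M (L.get i).2 (hL' i).2.sm (hL' i).2.tan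
  refine ⟨L.length, fun i x => (L.get i).1 x + ρ x ^ 2 * kF i x,
    fun i x => (L.get i).2 x + ρ x ^ 2 * kG i x, fun x => H x + ρ x ^ 2 * k x, hkF2, hkG2, hkF,
    fun x hx => ?_⟩
  have h1 := (specBrkG ρ hs H H k k hH hH hk hk htH htH x hx).2
  rw [h1, hE x hx]
  congr 1
  have h2 : ∀ i : Fin L.length, brk (gr fun x => (L.get i).1 x + ρ x ^ 2 * kF i x)
      (gr fun x => (L.get i).2 x + ρ x ^ 2 * kG i x) x =
      brk (gr (L.get i).1) (gr (L.get i).2) x := fun i =>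
    (specBrkG ρ hs _ _ _ _ (hL' i).1.sm (hL' i).2.sm (hkF1 i) (hkG1 i) (hL' i).1.tan
      (hL' i).2.tan x hx).1
  rw [Finset.sum_congr rfl fun i _ => h2 i]
  exact (Fin.sum_univ_fun_getElem L fun p => brk (gr p.1) (gr p.2) x).symm

end MPfab
end
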