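import Pool.Agent.Lib.MP_fabde4_an.SpecF

/-! MP_fabde4_an, modules IDBASE, IDSTEP, IDEAL. -/

set_option autoImplicit false
open MeasureTheory Set

namespace MPfab

namespace FIdeal

/-! ### vector algebra -/

lemma cr_cr (a b c : E) : cr a (cr b c) = (inner ℝ a c : ℝ) • b - (inner ℝ a b : ℝ) • c := by
  have h1 := inner_eq a c
  have h2 := inner_eq a b
  simp only [Fin.sum_univ_three] at h1 h2
  rw [h1, h2]
  ext i
  fin_cases i <;> simp <;> ring

lemma cr_add (a b c : E) : cr a (b + c) = cr a b + cr a c := by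
  ext i
  fin_cases i <;> simp <;> ring

lemma cr_smul (a b : E) (s : ℝ) : cr a (s • b) = s • cr a b := by
  ext i
  fin_cases i <;> simp <;> ring

lemma add_cr (a b c : E) : cr (a + b) c = cr a c + cr b c := by
  ext i
  fin_cases i <;> simp <;> ring

lemma smul_cr (a b : E) (s : ℝ) : cr (s • a) b = s • cr a b := by
  ext i
  fin_cases i <;> simp <;> ring

lemma cr_self (a : E) : cr a a = 0 := by
  ext i
  fin_cases i <;> simp <;> ring

lemma cr_zero (a : E) : cr a 0 = 0 := by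
  ext i
  fin_cases i <;> simp

lemma inner_cr_left (a b : E) : inner ℝ a (cr a b) = 0 := by
  rw [inner_eq]
  simp only [Fin.sum_univ_three]
  simp
  ring

lemma inner_cr_left' (a b : E) : inner ℝ (cr a b) a = 0 := by
  rw [inner_eq]
  simp only [Fin.sum_univ_three]
  simp
  ring

/-- the cross product as a bilinear map -/
noncomputable def crL : E →L[ℝ] E →L[ℝ] E :=
  LinearMap.toContinuousLinearMap
    { toFun := fun a => LinearMap.toContinuousLinearMap
        { toFun := fun b => cr a b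
          map_add' := fun b c => cr_add a b c
          map_smul' := fun s b => cr_smul a b s }
      map_add' := fun a b => by
        ext c
        simp [add_cr]
      map_smul' := fun s a => by
        ext c
        simp [smul_cr] }

@[simp] lemma crL_apply (a b : E) : crL a b = cr a b := rfl

/-! ### calculus -/

lemma gr_mul {f g : E → ℝ} (hf : Sm f) (hg : Sm g) (x : E) :
    gr (fun y => f y * g y) x = f x • gr g x + g x • gr f x := by
  have h : HasFDerivAt (fun y => f y * g y) (f x • fderiv ℝ g x + g x • fderiv ℝ f x) x :=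
    (hf.differentiable x).hasFDerivAt.mul (hg.differentiable x).hasFDerivAt
  ext i
  rw [gr_apply, pd_def, h.fderiv]
  simp [pd_def]

lemma gr_pow {ρ : E → ℝ} (hρ : Sm ρ) (n : ℕ) (x : E) :
    gr (fun y => ρ y ^ (n + 1)) x = (((n : ℝ) + 1) * ρ x ^ n) • gr ρ x := by
  have h : HasFDerivAt (fun y => ρ y ^ (n + 1)) (((n + 1 : ℕ) * ρ x ^ n : ℝ) • fderiv ℝ ρ x) x := by
    have := (hρ.differentiable x).hasFDerivAt.pow (n + 1)
    simpa using this
  ext i
  rw [gr_apply, pd_def, h.fderiv]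
  simp [pd_def]

lemma pd_smul' {f : E → ℝ} {Y : E → E} (hf : Sm f) (hY : Sm Y) (i : Fin 3) (x : E) :
    pd i (fun y => f y • Y y) x = pd i f x • Y x + f x • pd i Y x := by
  have h : HasFDerivAt (fun y => f y • Y y)
      (f x • fderiv ℝ Y x + (fderiv ℝ f x).smulRight (Y x)) x :=
    (hf.differentiable x).hasFDerivAt.smul (hY.differentiable x).hasFDerivAt
  rw [pd_def, h.fderiv]
  simp only [_root_.add_apply, _root_.smul_apply,
    ContinuousLinearMap.smulRight_apply, pd_def]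
  abel

lemma curl_smul' {f : E → ℝ} {Y : E → E} (hf : Sm f) (hY : Sm Y) (x : E) :
    curl (fun y => f y • Y y) x = cr (gr f x) (Y x) + f x • curl Y x := by
  have h := fun i => pd_smul' hf hY i x
  ext i
  fin_cases i <;> simp [h] <;> ring

lemma dv_smul' {f : E → ℝ} {Y : E → E} (hf : Sm f) (hY : Sm Y) (x : E) :
    dv (fun y => f y • Y y) x = inner ℝ (gr f x) (Y x) + f x * dv Y x := by
  have h := fun i => pd_smul' hf hY i x
  unfold dv
  rw [inner_eq]
  simp only [Fin.sum_univ_three, h]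
  simp
  ring

lemma curl_add' {a b : E → E} (ha : Sm a) (hb : Sm b) (x : E) :
    curl (fun y => a y + b y) x = curl a x + curl b x := by
  have h4 : ∀ i, pd i (fun y => a y + b y) x = pd i a x + pd i b x := by
    intro i
    rw [pd_def, fderiv_fun_add (ha.differentiable x) (hb.differentiable x)]
    rfl
  ext i
  fin_cases i <;> simp [h4] <;> ring

lemma dv_add' {a b : E → E} (ha : Sm a) (hb : Sm b) (x : E) :
    dv (fun y => a y + b y) x = dv a x + dv b x := by
  have h4 : ∀ i, pd i (fun y => a y + b y) x = pd i a x + pd i b x := by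
    intro i
    rw [pd_def, fderiv_fun_add (ha.differentiable x) (hb.differentiable x)]
    rfl
  unfold dv
  simp only [Fin.sum_univ_three, h4]
  simp
  ring

lemma gr_add' {a b : E → ℝ} (ha : Sm a) (hb : Sm b) (x : E) :
    gr (fun y => a y + b y) x = gr a x + gr b x := by
  ext i
  rw [gr_apply, pd_def, fderiv_fun_add (ha.differentiable x) (hb.differentiable x)]
  rfl

/-- curl of a power of `ρ` times a field -/
lemma curl_pow {ρ : E → ℝ} (hρ : Sm ρ) (n : ℕ) {Y : E → E} (hY : Sm Y) (x : E) :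
    curl (fun y => ρ y ^ (n + 1) • Y y) x =
      ρ x ^ n • (((n : ℝ) + 1) • cr (gr ρ x) (Y x) + ρ x • curl Y x) := by
  rw [curl_smul' (f := fun y => ρ y ^ (n + 1)) (hρ.pow _) hY, gr_pow hρ, smul_cr, pow_succ]
  rw [smul_add, smul_smul, smul_smul, mul_comm (ρ x ^ n) ((n : ℝ) + 1)]

lemma smsm {f : E → ℝ} {Y : E → E} (hf : Sm f) (hY : Sm Y) : Sm (fun y => f y • Y y) :=
  hf.smul hY

lemma smpow {ρ : E → ℝ} (hρ : Sm ρ) (n : ℕ) {Y : E → E} (hY : Sm Y) :
    Sm (fun y => ρ y ^ n • Y y) := (hρ.pow n).smul hY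

/-! ### time dependent fields -/

/-- curl of a time dependent field -/
noncomputable def cT (W : ℝ × E → E) : ℝ × E → E := fun p => curl (sl W p.1) p.2

/-- gradient of a time dependent function -/
noncomputable def gT (k : ℝ × E → ℝ) : ℝ × E → E := fun p => gr (sl k p.1) p.2

lemma sm_sl {F : Type*} [NormedAddCommGroup F] [NormedSpace ℝ F] {f : ℝ × E → F} (h : Sm f)
    (t : ℝ) : Sm (sl f t) := h.comp (contDiff_const.prodMk contDiff_id)

lemma sm_pdT (hP : SpecPDC) {F : Type} [NormedAddCommGroup F] [NormedSpace ℝ F] {f : ℝ × E → F}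
    (h : Sm f) (i : Fin 3) : Sm (fun p : ℝ × E => pd i (sl f p.1) p.2) :=
  hP.pdt_smooth F f h [i]

lemma sm_comps {f : ℝ × E → E} (h : Sm f) (i : Fin 3) : Sm (fun p : ℝ × E => f p i) :=
  contDiff_euclidean.mp h i

lemma sm_of_comps {f : ℝ × E → E} (h : ∀ i, Sm (fun p : ℝ × E => f p i)) : Sm f :=
  contDiff_euclidean.mpr h

lemma sm_cT (hP : SpecPDC) {W : ℝ × E → E} (h : Sm W) : Sm (cT W) := by
  have h1 := fun i j => sm_comps (sm_pdT hP h i) j
  apply sm_of_comps
  intro i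
  fin_cases i
  · exact (h1 1 2).sub (h1 2 1)
  · exact (h1 2 0).sub (h1 0 2)
  · exact (h1 0 1).sub (h1 1 0)

lemma sm_gT (hP : SpecPDC) {k : ℝ × E → ℝ} (h : Sm k) : Sm (gT k) := by
  apply sm_of_comps
  intro i
  exact sm_pdT hP h i

lemma sm_cr {a b : ℝ × E → E} (ha : Sm a) (hb : Sm b) : Sm (fun p => cr (a p) (b p)) := by
  have h1 := fun i => sm_comps ha i
  have h2 := fun i => sm_comps hb i
  apply sm_of_comps
  intro i
  fin_cases i
  · exact ((h1 1).mul (h2 2)).sub ((h1 2).mul (h2 1))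
  · exact ((h1 2).mul (h2 0)).sub ((h1 0).mul (h2 2))
  · exact ((h1 0).mul (h2 1)).sub ((h1 1).mul (h2 0))

lemma sm_snd {F : Type*} [NormedAddCommGroup F] [NormedSpace ℝ F] {f : E → F} (h : Sm f) :
    Sm (fun p : ℝ × E => f p.2) := h.comp contDiff_snd

lemma sm_slice {F : Type*} [NormedAddCommGroup F] [NormedSpace ℝ F] {f : ℝ × E → F} (h : Sm f)
    (x : E) : Sm (fun s => f (s, x)) := h.comp (contDiff_id.prodMk contDiff_const)

lemma hasDt {F : Type*} [NormedAddCommGroup F] [NormedSpace ℝ F] {f : ℝ × E → F} (h : Sm f)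
    (t : ℝ) (x : E) : HasDerivAt (fun s => f (s, x)) (dt f (t, x)) t :=
  ((sm_slice h x).differentiable t).hasDerivAt

lemma dt_add' {F : Type*} [NormedAddCommGroup F] [NormedSpace ℝ F] {f g : ℝ × E → F} (hf : Sm f)
    (hg : Sm g) (t : ℝ) (x : E) : dt (fun p => f p + g p) (t, x) = dt f (t, x) + dt g (t, x) :=
  ((hasDt hf t x).add (hasDt hg t x)).deriv

lemma dt_smulx {F : Type*} [NormedAddCommGroup F] [NormedSpace ℝ F] {f : ℝ × E → F} (hf : Sm f)
    (c : E → ℝ) (t : ℝ) (x : E) : dt (fun p => c p.2 • f p) (t, x) = c x • dt f (t, x) :=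
  ((hasDt hf t x).const_smul (c x)).deriv

lemma dt_crx {f : ℝ × E → E} (hf : Sm f) (a : E → E) (t : ℝ) (x : E) :
    dt (fun p => cr (a p.2) (f p)) (t, x) = cr (a x) (dt f (t, x)) := by
  have h := ((crL (a x)).hasFDerivAt.comp_hasDerivAt t (hasDt hf t x))
  exact h.deriv

end FIdeal

open FIdeal

theorem specIdBase (hH : SpecHad) : SpecIdBase := by
  intro ρ V0 B hρ hV hB h0
  have hg : Sm (fun x => cr (curl V0 x) (V0 x + B x)) := Sm.cr hV.curl (hV.add hB)
  obtain ⟨h, hh, heq⟩ := hH E ρ _ hρ hg (fun x hx => by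
    change cr (curl V0 x) (V0 x + B x) = 0
    rw [h0 x hx, cr_zero])
  have hVc : Vc ρ V0 (fun _ => 0) = fun p => V0 p.2 := by
    funext p
    have h1 : curl (fun y : E => ρ y ^ 2 • (0 : E)) p.2 = 0 := by
      have h2 : (fun y : E => ρ y ^ 2 • (0 : E)) = fun _ => 0 := by
        funext y
        simp
      rw [h2]
      have h3 : ∀ i, pd i (fun _ : E => (0 : E)) p.2 = 0 := by
        intro i
        simp [pd_def]
      ext i
      fin_cases i <;> simp [h3]
    simp only [Vc]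
    rw [h1, add_zero]
  refine ⟨fun p => h p.2, contDiff_const, contDiff_const, sm_snd hh, fun x => rfl, ?_⟩
  intro t x
  rw [hVc]
  have h1 : dt (fun p : ℝ × E => V0 p.2) (t, x) = 0 := by
    change deriv (fun _ : ℝ => V0 x) t = 0
    simp
  have h2 : gr (sl (fun _ : ℝ × E => (0 : ℝ)) t) x = 0 := by
    ext i
    rw [gr_apply, pd_def]
    change fderiv ℝ (fun _ : E => (0 : ℝ)) x (eb i) = 0
    simp
  rw [h1, h2]
  have h3 := heq x
  have h4 : sl (fun p : ℝ × E => V0 p.2) t = V0 := rfl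
  rw [h4, zero_add, zero_add, pow_one]
  exact h3


namespace FIdeal

/-- the final algebra on the boundary: `K` is parallel to `N` -/
lemma alg {N Y r Yp cV Yt W1t K W1 W2 : E} {θ κ : ℝ} {j : ℝ} (hj : j + 1 ≠ 0)
    (hθ : θ * ‖N‖ ^ 2 = 1) (hY : inner ℝ N Y = 0) (hYp : inner ℝ N Yp = 0)
    (hκ : inner ℝ cV N = κ)
    (hYt : Yt = -(θ * κ) • cr N Y + (θ / (j + 1)) • cr N r)
    (hW1t : W1t = (j + 1) • cr N Yt) (hW1 : W1 = (j + 1) • cr N Y) (hW2 : W2 = j • cr N W1)
    (c : ℝ) (hK : K = r + W1t + cr W2 Yp + cr cV W1 + c • cr W2 W1) :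
    K = (θ * inner ℝ K N) • N := by
  have hNN : inner ℝ N N = ‖N‖ ^ 2 := real_inner_self_eq_norm_sq N
  have hYN : inner ℝ Y N = 0 := by rw [real_inner_comm]; exact hY
  have hYpN : inner ℝ Yp N = 0 := by rw [real_inner_comm]; exact hYp
  have hκ' : inner ℝ N cV = κ := by rw [real_inner_comm]; exact hκ
  -- first `cr N K = 0`
  have e1 : cr N W1t = cr N (-(r) + ((j + 1) * κ) • Y) := by
    rw [hW1t, hYt]
    simp only [cr_add, cr_smul]
    have h1 : cr N (cr N Y) = -(‖N‖ ^ 2) • Y := by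
      rw [cr_cr, hNN, hY, zero_smul, zero_sub, neg_smul]
    have h2 : cr N (cr N (cr N Y)) = -(‖N‖ ^ 2) • cr N Y := by
      rw [h1, cr_smul]
    have h3 : cr N (cr N (cr N r)) = -(‖N‖ ^ 2) • cr N r := by
      rw [cr_cr N N r, hNN]
      rw [sub_eq_add_neg, cr_add, cr_smul, cr_self, smul_zero, zero_add, ← neg_smul, cr_smul]
    rw [h2, h3]
    have h4 : cr N (-r) = -cr N r := by
      have := cr_smul N r (-1)
      simpa using this
    rw [h4]
    simp only [smul_smul, smul_add]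
    have h5 : (j + 1) * (-(θ * κ) * -‖N‖ ^ 2) = (j + 1) * κ := by
      linear_combination (j + 1) * κ * hθ
    have h6 : (j + 1) * (θ / (j + 1) * -‖N‖ ^ 2) = -1 := by
      field_simp
      linear_combination -hθ
    rw [h5, h6]
    rw [neg_one_smul]
    abel
  have e2 : cr N (cr W2 Yp) = 0 := by
    have h1 : W2 = (-(j * (j + 1) * ‖N‖ ^ 2)) • Y := by
      rw [hW2, hW1, cr_smul, cr_cr, hNN, hY, zero_smul, zero_sub, smul_neg, smul_neg, smul_smul,
        smul_smul, ← neg_smul]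
    rw [h1, smul_cr, cr_smul, cr_cr, hYp, hY, zero_smul, zero_smul, sub_zero, smul_zero]
  have e3 : cr N (cr cV W1) = -((j + 1) * κ) • cr N Y := by
    rw [hW1, cr_smul, cr_smul, cr_cr cV N Y, hκ, sub_eq_add_neg, cr_add, cr_smul, cr_self,
      smul_zero, zero_add, ← neg_smul, cr_smul, smul_smul]
    congr 1
    ring
  have e4 : cr N (cr W2 W1) = 0 := by
    have h1 : W2 = (-(j * (j + 1) * ‖N‖ ^ 2)) • Y := by
      rw [hW2, hW1, cr_smul, cr_cr, hNN, hY, zero_smul, zero_sub, smul_neg, smul_neg, smul_smul,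
        smul_smul, ← neg_smul]
    rw [h1, hW1, smul_cr, cr_smul, cr_smul, cr_smul, cr_cr Y N Y, hYN, zero_smul, sub_zero,
      cr_smul, cr_self, smul_zero, smul_zero, smul_zero]
  have hNK : cr N K = 0 := by
    rw [hK]
    simp only [cr_add, cr_smul]
    rw [e1, e2, e3, e4]
    simp only [cr_add, cr_smul]
    have h4 : cr N (-r) = -cr N r := by
      have := cr_smul N r (-1)
      simpa using this
    rw [h4, neg_smul]
    simp
  have h7 : cr N (cr N K) = (inner ℝ N K : ℝ) • N - (inner ℝ N N : ℝ) • K := cr_cr N N K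
  rw [hNK, cr_zero, hNN] at h7
  have h8 : (‖N‖ ^ 2) • K = (inner ℝ N K : ℝ) • N := by
    have := sub_eq_zero.mp h7.symm
    exact this.symm
  calc K = (θ * ‖N‖ ^ 2) • K := by rw [hθ, one_smul]
    _ = θ • ((‖N‖ ^ 2) • K) := by rw [smul_smul]
    _ = θ • ((inner ℝ N K : ℝ) • N) := by rw [h8]
    _ = (θ * inner ℝ K N) • N := by rw [smul_smul, real_inner_comm]

end FIdeal

theorem specIdStep (hP : SpecPDC) (hHT : SpecHadT) (hΘ : SpecTheta) (hL : SpecLode) :
    SpecIdStep := by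
  intro ρ V0 B hρN hV0 hB h0 hdiv j C q r hj hd
  obtain ⟨h, hh, hdv⟩ := hdiv
  have hρ : Sm ρ := hρN.smooth
  obtain ⟨θ, hθs, hθ⟩ := hΘ ρ hρN.toDom
  set N : E → E := gr ρ with hN
  have hNs : Sm N := hρ.gr
  -- the velocity
  set V : ℝ × E → E := Vc ρ V0 C with hV
  have hρT : Sm (fun p : ℝ × E => ρ p.2) := sm_snd hρ
  have hNT : Sm (fun p : ℝ × E => N p.2) := sm_snd hNs
  have hVs : Sm V := by
    have h1 : Sm (cT (fun p : ℝ × E => ρ p.2 ^ 2 • C p)) := sm_cT hP ((hρT.pow 2).smul hd.smC)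
    exact (sm_snd hV0).add h1
  have hVsl : ∀ t, sl V t = fun x => V0 x + curl (fun y => ρ y ^ 2 • sl C t y) x := fun t => rfl
  -- `V - V0 = ρ w`
  set w : ℝ × E → E := fun p => (2 : ℝ) • cr (N p.2) (C p) + ρ p.2 • cT C p with hw
  have hws : Sm w := ((sm_cr hNT hd.smC).const_smul (2 : ℝ)).add (hρT.smul (sm_cT hP hd.smC))
  have hVw : ∀ t x, V (t, x) = V0 x + ρ x • w (t, x) := by
    intro t x
    have h1 := curl_pow hρ 1 (sm_sl hd.smC t) x
    have h2 : V (t, x) = V0 x + curl (fun y => ρ y ^ (1 + 1) • sl C t y) x := rfl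
    rw [h2, h1, pow_one]
    congr 2
    have h3 : (((1 : ℕ) : ℝ) + 1) = 2 := by norm_num
    rw [h3]
    rfl
  -- `V + B = ρ Yp`
  obtain ⟨Yp, hYps, hYp⟩ := hHT E ρ (fun p => V p + B p.2) hρN (hVs.add (sm_snd hB)) (by
    intro t x hx
    change V (t, x) + B x = 0
    rw [hVw, hx, zero_smul, add_zero, h0 x hx])
  have hYp' : ∀ t x, V (t, x) + B x = ρ x • Yp (t, x) := hYp
  -- `N · Yp = 0` on the boundary
  have hNYp : ∀ t x, ρ x = 0 → inner ℝ (N x) (Yp (t, x)) = 0 := by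
    intro t x hx
    have e1 : dv (fun y => sl V t y + B y) x = ρ x * h x := by
      have e3 : Sm (fun y => curl (fun y => ρ y ^ 2 • sl C t y) y) :=
        Sm.curl (smpow hρ 2 (sm_sl hd.smC t))
      rw [dv_add' (sm_sl hVs t) hB, hVsl, dv_add' hV0 e3]
      have e4 : dv (fun y => curl (fun y => ρ y ^ 2 • sl C t y) y) x = 0 :=
        hP.dv_curl _ (smpow hρ 2 (sm_sl hd.smC t)) x
      rw [e4, add_zero]
      exact hdv x
    have e2 : (fun y => sl V t y + B y) = fun y => ρ y • sl Yp t y := by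
      funext y
      exact hYp' t y
    rw [e2, dv_smul' hρ (sm_sl hYps t), hx, zero_mul, zero_mul, add_zero] at e1
    exact e1
  -- `κ`
  set κ : E → ℝ := fun x => inner ℝ (curl V0 x) (N x) with hκ
  have hκs : Sm κ := (Sm.curl hV0).inner ℝ hNs
  have hcV : ∀ t x, ρ x = 0 → inner ℝ (cT V (t, x)) (N x) = κ x := by
    intro t x hx
    have e1 : sl V t = fun y => V0 y + ρ y • sl w t y := by
      funext y
      exact hVw t y
    have e2 : cT V (t, x) = curl V0 x + (cr (N x) (w (t, x)) + ρ x • curl (sl w t) x) := by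
      change curl (sl V t) x = _
      rw [e1, curl_add' hV0 (smsm hρ (sm_sl hws t)), curl_smul' hρ (sm_sl hws t)]
      rfl
    rw [e2, hx, zero_smul, add_zero, inner_add_left, inner_cr_left', add_zero]
  -- the linear ODE
  set A : E → E →L[ℝ] E := fun x => (-(θ x * κ x)) • crL (N x) with hA
  have hAs : Sm A := ((hθs.mul hκs).neg).smul (crL.contDiff.comp hNs)
  set b : ℝ × E → E := fun p => (θ p.2 / ((j : ℝ) + 1)) • cr (N p.2) (r p) with hb
  have hbs : Sm b := ((sm_snd hθs).div_const _).smul (sm_cr hNT hd.smr)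
  obtain ⟨Y, hYs, hY0, hYt⟩ := hL A b hAs hbs
  have hdY : ∀ t x, dt Y (t, x) = -(θ x * κ x) • cr (N x) (Y (t, x)) +
      (θ x / ((j : ℝ) + 1)) • cr (N x) (r (t, x)) := by
    intro t x
    have h1 := (hYt t x).deriv
    exact h1
  have hNY : ∀ t x, inner ℝ (N x) (Y (t, x)) = 0 := by
    intro t x
    have h1 : ∀ s, HasDerivAt (fun s => inner ℝ (N x) (Y (s, x))) (0 : ℝ) s := by
      intro s
      have h2 := (hasDerivAt_const s (N x)).inner ℝ (hYt s x)
      have h3 : inner ℝ (N x) (A x (Y (s, x)) + b (s, x)) + inner ℝ (0 : E) (Y (s, x)) = 0 := by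
        rw [inner_zero_left, add_zero, inner_add_right]
        have h4 : A x (Y (s, x)) = (-(θ x * κ x)) • cr (N x) (Y (s, x)) := rfl
        have h5 : b (s, x) = (θ x / ((j : ℝ) + 1)) • cr (N x) (r (s, x)) := rfl
        rw [h4, h5, inner_smul_right, inner_smul_right, inner_cr_left, inner_cr_left]
        simp
      rw [h3] at h2
      exact h2
    have h6 : ∀ s, (fun s => inner ℝ (N x) (Y (s, x))) s = (fun s => inner ℝ (N x) (Y (s, x))) 0 := by
      intro s
      exact is_const_of_deriv_eq_zero (fun s => (h1 s).differentiableAt)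
        (fun s => (h1 s).deriv) s 0
    have h7 := h6 t
    simp only [hY0 x, inner_zero_right] at h7
    exact h7
  -- the new fields
  set W1 : ℝ × E → E := fun p => ((j : ℝ) + 1) • cr (N p.2) (Y p) + ρ p.2 • cT Y p with hW1
  have hW1s : Sm W1 := ((sm_cr hNT hYs).const_smul _).add (hρT.smul (sm_cT hP hYs))
  obtain ⟨j', rfl⟩ : ∃ j', j = j' + 1 := ⟨j - 1, by omega⟩
  set W2 : ℝ × E → E := fun p => (((j' : ℝ) + 1)) • cr (N p.2) (W1 p) + ρ p.2 • cT W1 p with hW2
  have hW2s : Sm W2 := ((sm_cr hNT hW1s).const_smul _).add (hρT.smul (sm_cT hP hW1s))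
  set K : ℝ × E → E := fun p => r p + dt W1 p + cr (W2 p) (Yp p) + cr (cT V p) (W1 p) +
    ρ p.2 ^ j' • cr (W2 p) (W1 p) with hK
  have hKs : Sm K := ((((hd.smr.add (hP.dt_smooth E W1 hW1s)).add (sm_cr hW2s hYps)).add
    (sm_cr (sm_cT hP hVs) hW1s)).add ((hρT.pow j').smul (sm_cr hW2s hW1s)))
  have hj1 : (((j' + 1 : ℕ) : ℝ)) = (j' : ℝ) + 1 := by push_cast; ring
  have hjne : ((j' + 1 : ℕ) : ℝ) + 1 ≠ 0 := by positivity
  -- `K` is parallel to `N` on the boundary
  set k : ℝ × E → ℝ := fun p => θ p.2 * inner ℝ (K p) (N p.2) with hk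
  have hks : Sm k := (sm_snd hθs).mul (hKs.inner ℝ hNT)
  have hpar : ∀ t x, ρ x = 0 → K (t, x) - k (t, x) • N x = 0 := by
    intro t x hx
    have hW1x : W1 (t, x) = (((j' + 1 : ℕ) : ℝ) + 1) • cr (N x) (Y (t, x)) := by
      simp only [hW1]
      rw [hx, zero_smul, add_zero]
    have hW2x : W2 (t, x) = ((j' + 1 : ℕ) : ℝ) • cr (N x) (W1 (t, x)) := by
      simp only [hW2]
      rw [hx, zero_smul, add_zero, hj1]
    have hW1t : dt W1 (t, x) = (((j' + 1 : ℕ) : ℝ) + 1) • cr (N x) (dt Y (t, x)) := by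
      have h1 : Sm (fun p : ℝ × E => cr (N p.2) (Y p)) := sm_cr hNT hYs
      have h2 := dt_add' (h1.const_smul (((j' + 1 : ℕ) : ℝ) + 1)) (hρT.smul (sm_cT hP hYs)) t x
      have h3 := dt_smulx h1 (fun _ => ((j' + 1 : ℕ) : ℝ) + 1) t x
      have h4 := dt_smulx (sm_cT hP hYs) ρ t x
      have h5 := dt_crx hYs N t x
      rw [hx, zero_smul] at h4
      change dt (fun p : ℝ × E => (((j' + 1 : ℕ) : ℝ) + 1) • cr (N p.2) (Y p) +
        ρ p.2 • cT Y p) (t, x) = _
      calc _ = dt (fun p : ℝ × E => (((j' + 1 : ℕ) : ℝ) + 1) • cr (N p.2) (Y p)) (t, x) +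
            dt (fun p : ℝ × E => ρ p.2 • cT Y p) (t, x) := h2
        _ = _ := by rw [h3, h4, h5, add_zero]
    have := alg (N := N x) (Y := Y (t, x)) (r := r (t, x)) (Yp := Yp (t, x)) (cV := cT V (t, x))
      (Yt := dt Y (t, x)) (W1t := dt W1 (t, x)) (K := K (t, x)) (W1 := W1 (t, x))
      (W2 := W2 (t, x)) (θ := θ x) (κ := κ x) (j := ((j' + 1 : ℕ) : ℝ)) hjne (hθ x hx)
      (hNY t x) (hNYp t x hx) (hcV t x hx) (hdY t x) hW1t hW1x hW2x (ρ x ^ j') rfl
    rw [sub_eq_zero]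
    exact this
  obtain ⟨K1, hK1s, hK1⟩ := hHT E ρ (fun p => K p - k p • N p.2) hρN
    (hKs.sub (hks.smul hNT)) hpar
  have hK1' : ∀ t x, K (t, x) - k (t, x) • N x = ρ x • K1 (t, x) := hK1
  -- the new path
  refine ⟨fun p => C p + ρ p.2 ^ j' • Y p,
    fun p => q p + (ρ p.2 ^ (j' + 1 + 1) / (((j' + 1 : ℕ) : ℝ) + 1)) * k p,
    fun p => K1 p - (1 / (((j' + 1 : ℕ) : ℝ) + 1)) • gT k p, ?_, ?_, ?_, ?_, ?_⟩
  · exact hd.smC.add ((hρT.pow j').smul hYs)
  · exact hd.smq.add (((hρT.pow _).div_const _).mul hks)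
  · exact hK1s.sub ((sm_gT hP hks).const_smul _)
  · intro x
    change C (0, x) + ρ x ^ j' • Y (0, x) = 0
    rw [hd.init x, hY0 x, smul_zero, add_zero]
  · intro t x
    -- the new velocity
    have hVc : Vc ρ V0 (fun p => C p + ρ p.2 ^ j' • Y p) =
        fun p => V p + ρ p.2 ^ (j' + 1) • W1 p := by
      funext p
      obtain ⟨t, x⟩ := p
      have h1 : (fun y => ρ y ^ 2 • (C (t, y) + ρ y ^ j' • Y (t, y))) =
          fun y => ρ y ^ 2 • sl C t y + ρ y ^ (j' + 1 + 1) • sl Y t y := by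
        funext y
        change ρ y ^ 2 • (C (t, y) + ρ y ^ j' • Y (t, y)) =
          ρ y ^ 2 • C (t, y) + ρ y ^ (j' + 1 + 1) • Y (t, y)
        rw [smul_add, smul_smul]
        congr 2
        ring
      change V0 x + curl (fun y => ρ y ^ 2 • (C (t, y) + ρ y ^ j' • Y (t, y))) x = _
      rw [h1, curl_add' (smpow hρ 2 (sm_sl hd.smC t)) (smpow hρ _ (sm_sl hYs t)),
        curl_pow hρ (j' + 1) (sm_sl hYs t), ← add_assoc]
      rfl
    rw [hVc]
    have hdt : dt (fun p : ℝ × E => V p + ρ p.2 ^ (j' + 1) • W1 p) (t, x) =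
        dt V (t, x) + ρ x ^ (j' + 1) • dt W1 (t, x) := by
      have e0 : Sm (fun p : ℝ × E => ρ p.2 ^ (j' + 1) • W1 p) := (hρT.pow _).smul hW1s
      rw [dt_add' hVs e0]
      congr 1
      exact dt_smulx hW1s (fun y => ρ y ^ (j' + 1)) t x
    have hcurl : curl (sl (fun p : ℝ × E => V p + ρ p.2 ^ (j' + 1) • W1 p) t) x =
        cT V (t, x) + ρ x ^ j' • W2 (t, x) := by
      change curl (fun y => sl V t y + ρ y ^ (j' + 1) • sl W1 t y) x = _
      rw [curl_add' (sm_sl hVs t) (smpow hρ _ (sm_sl hW1s t)),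
        curl_pow hρ j' (sm_sl hW1s t)]
      rfl
    have hgr : gr (sl (fun p : ℝ × E => q p +
        (ρ p.2 ^ (j' + 1 + 1) / (((j' + 1 : ℕ) : ℝ) + 1)) * k p) t) x =
        gr (sl q t) x + (ρ x ^ (j' + 1) * k (t, x)) • N x +
          (ρ x ^ (j' + 1 + 1) / (((j' + 1 : ℕ) : ℝ) + 1)) • gT k (t, x) := by
      change gr (fun y => sl q t y + (ρ y ^ (j' + 1 + 1) / (((j' + 1 : ℕ) : ℝ) + 1)) * sl k t y)
        x = _
      have s1 : Sm (fun y => ρ y ^ (j' + 1 + 1) / (((j' + 1 : ℕ) : ℝ) + 1)) :=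
        (hρ.pow _).div_const _
      rw [gr_add' (sm_sl hd.smq t) (s1.mul (sm_sl hks t)), gr_mul s1 (sm_sl hks t)]
      have h2 : gr (fun y => ρ y ^ (j' + 1 + 1) / (((j' + 1 : ℕ) : ℝ) + 1)) x =
          (ρ x ^ (j' + 1)) • N x := by
        have h3 : (fun y => ρ y ^ (j' + 1 + 1) / (((j' + 1 : ℕ) : ℝ) + 1)) =
            fun y => (1 / (((j' + 1 : ℕ) : ℝ) + 1)) * ρ y ^ (j' + 1 + 1) := by
          funext y
          ring
        have h4 := gr_mul (f := fun _ => 1 / (((j' + 1 : ℕ) : ℝ) + 1)) contDiff_const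
          (hρ.pow (j' + 1 + 1)) x
        have h5 : gr (fun _ : E => 1 / (((j' + 1 : ℕ) : ℝ) + 1)) x = 0 := by
          ext i
          rw [gr_apply, pd_def]
          simp
        rw [h3, h4, h5, smul_zero, add_zero, gr_pow hρ, smul_smul]
        congr 1
        field_simp
      rw [h2]
      rw [smul_smul]
      have h6 : sl k t x = k (t, x) := rfl
      have h7 : gr (sl k t) x = gT k (t, x) := rfl
      rw [h6, h7, mul_comm (k (t, x))]
      abel
    rw [hdt, hcurl, hgr]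
    -- expand the nonlinear term
    have hold := hd.eq t x
    have hold' : dt V (t, x) + cr (cT V (t, x)) (V (t, x) + B x) =
        gr (sl q t) x + ρ x ^ (j' + 1) • r (t, x) := hold
    have hnew : cr (cT V (t, x) + ρ x ^ j' • W2 (t, x))
        ((V (t, x) + ρ x ^ (j' + 1) • W1 (t, x)) + B x) =
        cr (cT V (t, x)) (V (t, x) + B x) + ρ x ^ (j' + 1) • cr (W2 (t, x)) (Yp (t, x)) +
        ρ x ^ (j' + 1) • cr (cT V (t, x)) (W1 (t, x)) +
        (ρ x ^ (j' + 1) * ρ x ^ j') • cr (W2 (t, x)) (W1 (t, x)) := by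
      have h1 : (V (t, x) + ρ x ^ (j' + 1) • W1 (t, x)) + B x =
          (V (t, x) + B x) + ρ x ^ (j' + 1) • W1 (t, x) := by abel
      have h2 : cr (W2 (t, x)) (V (t, x) + B x) = ρ x • cr (W2 (t, x)) (Yp (t, x)) := by
        rw [hYp' t x, cr_smul]
      have h3 : ∀ (a b X c : E) (s s' : ℝ), cr (a + s • b) (X + s' • c) =
          cr a X + s • cr b X + s' • cr a c + (s' * s) • cr b c := by
        intro a b X c s s'
        rw [add_cr, cr_add, smul_cr, cr_add, cr_smul, cr_smul, smul_add, smul_smul, mul_comm s s']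
        abel
      rw [h1, h3, h2, smul_smul, ← pow_succ]
    have hsl : (fun p : ℝ × E => V p + ρ p.2 ^ (j' + 1) • W1 p) (t, x) =
        V (t, x) + ρ x ^ (j' + 1) • W1 (t, x) := rfl
    have hKx : K (t, x) = k (t, x) • N x + ρ x • K1 (t, x) := by
      rw [← hK1' t x]
      abel
    have hKdef : K (t, x) = r (t, x) + dt W1 (t, x) + cr (W2 (t, x)) (Yp (t, x)) +
        cr (cT V (t, x)) (W1 (t, x)) + ρ x ^ j' • cr (W2 (t, x)) (W1 (t, x)) := rfl
    change dt V (t, x) + ρ x ^ (j' + 1) • dt W1 (t, x) +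
      cr (cT V (t, x) + ρ x ^ j' • W2 (t, x))
        ((V (t, x) + ρ x ^ (j' + 1) • W1 (t, x)) + B x) = _
    rw [hnew]
    have hsum : dt V (t, x) + ρ x ^ (j' + 1) • dt W1 (t, x) +
        (cr (cT V (t, x)) (V (t, x) + B x) + ρ x ^ (j' + 1) • cr (W2 (t, x)) (Yp (t, x)) +
        ρ x ^ (j' + 1) • cr (cT V (t, x)) (W1 (t, x)) +
        (ρ x ^ (j' + 1) * ρ x ^ j') • cr (W2 (t, x)) (W1 (t, x))) =
        (dt V (t, x) + cr (cT V (t, x)) (V (t, x) + B x)) - ρ x ^ (j' + 1) • r (t, x) +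
          ρ x ^ (j' + 1) • K (t, x) := by
      rw [hKdef]
      simp only [smul_add, smul_smul]
      abel
    rw [hsum, hold', hKx]
    simp only [smul_add, smul_sub, smul_smul]
    have p1 : ρ x ^ (j' + 1) * ρ x = ρ x ^ (j' + 1 + 1) := by ring
    have p2 : ρ x ^ (j' + 1 + 1) * (1 / (((j' + 1 : ℕ) : ℝ) + 1)) =
        ρ x ^ (j' + 1 + 1) / (((j' + 1 : ℕ) : ℝ) + 1) := by ring
    rw [p1, p2]
    abel

theorem specIdeal (hB : SpecIdBase) (hS : SpecIdStep) : SpecIdeal := by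
  intro ρ V0 B hρ hV0 hBs h0 hdiv j
  have key : ∀ n : ℕ, ∃ C q r, IdJ ρ V0 B (n + 1) C q r := by
    intro n
    induction n with
    | zero =>
      obtain ⟨r, hr⟩ := hB ρ V0 B hρ hV0 hBs h0
      exact ⟨_, _, r, hr⟩
    | succ n ih =>
      obtain ⟨C, q, r, h⟩ := ih
      exact hS ρ V0 B hρ hV0 hBs h0 hdiv (n + 1) C q r (by omega) h
  cases j with
  | zero =>
    obtain ⟨C, q, r, h⟩ := key 0
    refine ⟨C, q, fun p => ρ p.2 • r p, ⟨h.smC, h.smq,
      (sm_snd hρ.smooth).smul h.smr, h.init, fun t x => ?_⟩⟩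
    rw [h.eq t x]
    simp
  | succ n => exact key n

end MPfab
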