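import Pool.Agent.Lib.MP_fabde4_an.SpecF
import Pool.Agent.Lib.MP_fabde4_an.F.EllD
import Pool.Agent.Lib.MP_fabde4_an.M.Lop

/-! MP_fabde4_an, part F, module LAST (helper45). -/

set_option autoImplicit false
open MeasureTheory Set Filter Topology

namespace MPfab

namespace FLast

/-- extension by zero outside of the domain -/
noncomputable def ze (ρ : E → ℝ) (f : E → E) (x : E) : E := if ρ x < 0 then f x else 0

lemma ze_in {ρ : E → ℝ} {f : E → E} {x : E} (h : ρ x < 0) : ze ρ f x = f x := if_pos h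

lemma ze_out {ρ : E → ℝ} {f : E → E} {δ : ℝ} (h : ∀ x, |ρ x| ≤ δ → f x = 0) {x : E}
    (hx : -δ < ρ x) : ze ρ f x = 0 := by
  unfold ze
  split_ifs with h1
  · exact h x (by rw [abs_of_neg h1]; linarith)
  · rfl

lemma ze_sm {ρ : E → ℝ} (hρ : Continuous ρ) {f : E → E} (hf : Sm f) {δ : ℝ} (hδ : 0 < δ)
    (h : ∀ x, |ρ x| ≤ δ → f x = 0) : Sm (ze ρ f) := by
  refine contDiff_iff_contDiffAt.mpr fun x => ?_
  by_cases hx : ρ x < 0
  · have h1 : ze ρ f =ᶠ[𝓝 x] f := by
      filter_upwards [hρ.continuousAt.eventually (gt_mem_nhds hx)] with y hy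
      exact ze_in hy
    exact hf.contDiffAt.congr_of_eventuallyEq h1
  · have hx' : -δ < ρ x := by push Not at hx; linarith
    have h1 : ze ρ f =ᶠ[𝓝 x] fun _ => 0 := by
      filter_upwards [hρ.continuousAt.eventually (lt_mem_nhds hx')] with y hy
      exact ze_out h hy
    exact contDiffAt_const.congr_of_eventuallyEq h1

lemma ze_test {ρ : E → ℝ} (hρ : Dom ρ) {f : E → E} (hf : Sm f) {δ : ℝ} (hδ : 0 < δ)
    (h : ∀ x, |ρ x| ≤ δ → f x = 0) : Test (D ρ) (ze ρ f) := by
  have h1 : tsupport (ze ρ f) ⊆ {x | ρ x ≤ -δ} := by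
    refine closure_minimal (fun x hx => ?_) (isClosed_le hρ.smooth.continuous continuous_const)
    by_contra hc
    have hc' : -δ < ρ x := not_le.mp hc
    exact hx (ze_out h hc')
  have h2 : tsupport (ze ρ f) ⊆ D ρ := fun x hx => by
    have : ρ x ≤ -δ := h1 hx
    show ρ x < 0
    linarith
  exact ⟨ze_sm hρ.smooth.continuous hf hδ h,
    Metric.isCompact_of_isClosed_isBounded (isClosed_tsupport _) (hρ.bdd.subset h2), h2⟩

lemma test_add {U : Set E} {f g : E → E} (hf : Test U f) (hg : Test U g) :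
    Test U fun x => f x + g x :=
  ⟨hf.smooth.add hg.smooth, hf.cpt.add hg.cpt,
    (tsupport_add f g).trans (union_subset hf.sub hg.sub)⟩

lemma test_mono {U V : Set E} {f : E → E} (hf : Test U f) (h : U ⊆ V) : Test V f :=
  ⟨hf.smooth, hf.cpt, hf.sub.trans h⟩

/-- `hs` of a function supported in the smaller set -/
lemma hs_supp {F : Type*} [NormedAddCommGroup F] [NormedSpace ℝ F] {S T U : Set E}
    (hT : MeasurableSet T) (hU : IsOpen U) (hST : S ⊆ T) (hTU : T \ S ⊆ U) (k : ℕ) :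
    ∀ f : E → F, (∀ x ∈ U, f x = 0) → hs T k f = hs S k f := by
  have h0 : ∀ f : E → F, (∀ x ∈ U, f x = 0) → ∫ x in T, ‖f x‖ ^ 2 = ∫ x in S, ‖f x‖ ^ 2 := by
    intro f hf
    refine setIntegral_eq_of_subset_of_forall_sdiff_eq_zero hT hST fun x hx => ?_
    rw [hf x (hTU hx), norm_zero]
    norm_num
  induction k with
  | zero => exact h0
  | succ k ih =>
    intro f hf
    rw [HSB.succ_eq, HSB.succ_eq, h0 f hf]
    congr 1
    refine Finset.sum_congr rfl fun i _ => ih _ fun x hx => ?_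
    have h1 : f =ᶠ[𝓝 x] fun _ => 0 := by
      filter_upwards [hU.mem_nhds hx] with y hy
      exact hf y hy
    unfold pd
    rw [h1.fderiv_eq]
    simp

lemma dv_zero (x : E) : dv (fun _ => (0 : E)) x = 0 := by
  simp [dv, pd]

lemma norm_le_layer {μ : Measure E} {S : Set E} (hS : MeasurableSet S) {f : E → E} {p : ENNReal}
    {C : ℝ} (h0 : ∀ x, x ∉ S → f x = 0) (hb : ∀ᵐ x ∂μ, ‖f x‖ ≤ C) :
    eLpNorm f p μ ≤ μ S ^ p.toReal⁻¹ * ENNReal.ofReal C := by
  have h1 : f = S.indicator f := by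
    funext x
    by_cases hx : x ∈ S
    · rw [indicator_of_mem hx]
    · rw [indicator_of_notMem hx, h0 x hx]
  rw [h1, eLpNorm_indicator_eq_eLpNorm_restrict hS]
  have h2 := eLpNorm_le_of_ae_bound (p := p) (ae_restrict_of_ae (s := S) hb)
  rwa [Measure.restrict_apply_univ] at h2

/-- the arithmetic of the layers -/
lemma pow_bound {p : ENNReal} (hp : 1 ≤ p) (hp' : p ≠ ⊤) {ε C : ℝ} (hε : 0 < ε) (hC : 0 ≤ C) :
    ∃ ε' : ℝ, 0 < ε' ∧ ∀ m : ENNReal, m < ENNReal.ofReal ε' →
      m ^ p.toReal⁻¹ * ENNReal.ofReal C < ENNReal.ofReal ε := by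
  have hp0 : 0 < p.toReal := ENNReal.toReal_pos (by intro h; rw [h] at hp; simp at hp) hp'
  have hq : 0 < ε / (C + 1) := by positivity
  refine ⟨(ε / (C + 1)) ^ p.toReal, Real.rpow_pos_of_pos hq _, fun m hm => ?_⟩
  have h1 : m ^ p.toReal⁻¹ ≤ ENNReal.ofReal (ε / (C + 1)) := by
    have h2 : m ^ p.toReal⁻¹ ≤ ENNReal.ofReal ((ε / (C + 1)) ^ p.toReal) ^ p.toReal⁻¹ :=
      ENNReal.rpow_le_rpow hm.le (by positivity)
    rw [ENNReal.ofReal_rpow_of_pos (Real.rpow_pos_of_pos hq _), ← Real.rpow_mul hq.le,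
      mul_inv_cancel₀ hp0.ne', Real.rpow_one] at h2
    exact h2
  calc m ^ p.toReal⁻¹ * ENNReal.ofReal C
      ≤ ENNReal.ofReal (ε / (C + 1)) * ENNReal.ofReal C := mul_le_mul_left h1 _
    _ = ENNReal.ofReal (ε / (C + 1) * C) := by rw [ENNReal.ofReal_mul hq.le]
    _ < ENNReal.ofReal ε := by
      refine (ENNReal.ofReal_lt_ofReal_iff hε).mpr ?_
      rw [div_mul_eq_mul_div, div_lt_iff₀ (by positivity)]
      nlinarith

lemma sub_layer {ρ σ : E → ℝ} (hρ : Dom ρ) (hsub : D σ ⊆ D ρ) {p : ENNReal} {w : E → E}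
    {δ δ0 C : ℝ} (h2 : 2 * δ ≤ δ0) (h0 : ∀ x, 2 * δ ≤ |ρ x| → w x = 0)
    (hb : ∀ x ∈ D ρ, ‖w x‖ ≤ C) :
    eLpNorm w p (volume.restrict (D σ)) ≤
      volume (D ρ ∩ {x | |ρ x| ≤ δ0}) ^ p.toReal⁻¹ * ENNReal.ofReal C := by
  have hm : MeasurableSet {x | |ρ x| ≤ δ0} :=
    (isClosed_le hρ.smooth.continuous.abs continuous_const).measurableSet
  have h1 : eLpNorm w p (volume.restrict (D ρ)) ≤
      (volume.restrict (D ρ)) {x | |ρ x| ≤ δ0} ^ p.toReal⁻¹ * ENNReal.ofReal C := by
    refine norm_le_layer hm (fun x hx => h0 x ?_) ?_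
    · have : δ0 < |ρ x| := not_le.mp hx
      linarith
    · rw [ae_restrict_iff' (Neu.measurableSet_D hρ)]
      exact Eventually.of_forall hb
  rw [Measure.restrict_apply hm, inter_comm] at h1
  exact (eLpNorm_mono_measure _ (Measure.restrict_mono hsub le_rfl)).trans h1

end FLast

open FLast in
theorem specLast (hCut : SpecCutF) (hEll : SpecEllD) : SpecLast := by
  intro ρ σ R P Q hρ hσ hsub hc hL u v hu hv p hp hp' ε hε
  obtain ⟨C1, C10, h1⟩ := hCut ρ u hρ hu 2
  obtain ⟨C2, C20, h2⟩ := hCut σ v hσ hv 2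
  obtain ⟨C3, C30, h3⟩ := hEll ρ R P Q hρ hc hL
  have hε3 : 0 < ε / 3 := by positivity
  obtain ⟨ε1, e10, e1⟩ := pow_bound hp hp' hε3 C10
  obtain ⟨ε2, e20, e2⟩ := pow_bound hp hp' hε3 C20
  obtain ⟨δ1, d10, d1⟩ := specLayer ρ hρ.toDom ε1 e10
  obtain ⟨δ2, d20, d2⟩ := specLayer σ hσ.toDom ε2 e20
  have hp0 : 0 < p.toReal := ENNReal.toReal_pos (by intro h; rw [h] at hp; simp at hp) hp'
  set K : ℝ := C3 * (2 * C1 + 2 * C2) with hK
  have hK0 : 0 ≤ K := by positivity
  set V : ENNReal := volume (D σ) ^ p.toReal⁻¹ with hV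
  have hVt : V ≠ ⊤ := ENNReal.rpow_ne_top_of_nonneg (by positivity) (Neu.volume_D_lt hσ.toDom).ne
  set η : ℝ := ε / (3 * (V.toReal + 1)) with hη
  have hη0 : 0 < η := by have : 0 ≤ V.toReal := ENNReal.toReal_nonneg; positivity
  set δ : ℝ := min (min 1 (min (δ1 / 2) (δ2 / 2))) (η ^ 2 / (K + 1)) with hδd
  have hδ : 0 < δ := by
    refine lt_min (lt_min one_pos (lt_min (by positivity) (by positivity))) (by positivity)
  have hδ1 : δ ≤ 1 := (min_le_left _ _).trans (min_le_left _ _)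
  have hδa : 2 * δ ≤ δ1 := by
    have : δ ≤ δ1 / 2 := (min_le_left _ _).trans ((min_le_right _ _).trans (min_le_left _ _))
    linarith
  have hδb : 2 * δ ≤ δ2 := by
    have : δ ≤ δ2 / 2 := (min_le_left _ _).trans ((min_le_right _ _).trans (min_le_right _ _))
    linarith
  have hδc : K * δ ≤ η ^ 2 := by
    have h4 : δ ≤ η ^ 2 / (K + 1) := min_le_right _ _
    rw [le_div_iff₀ (by positivity)] at h4
    nlinarith
  obtain ⟨a, as, a1, a2, a3, a4⟩ := h1 δ hδ hδ1
  obtain ⟨b, bs, b1, b2, b3, b4⟩ := h2 δ hδ hδ1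
  have hfa : ∀ x, |ρ x| ≤ δ → a x - u x = 0 := fun x hx => by rw [a1 x hx, sub_self]
  have hfb : ∀ x, |σ x| ≤ δ → v x - b x = 0 := fun x hx => by rw [b1 x hx, sub_self]
  have tA : Test (D ρ) (ze ρ fun x => a x - u x) := ze_test hρ.toDom (as.sub hu.smooth) hδ hfa
  have tB : Test (D σ) (ze σ fun x => v x - b x) := ze_test hσ.toDom (hv.smooth.sub bs) hδ hfb
  set w : E → E := fun x => u x + (ze ρ (fun x => a x - u x) x + ze σ (fun x => v x - b x) x)
    with hw
  have hws : Sm w := hu.smooth.add (tA.smooth.add tB.smooth)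
  have hwin : ∀ x ∈ D ρ, w x = a x + ze σ (fun x => v x - b x) x := by
    intro x hx
    rw [hw]
    simp only
    rw [ze_in (show ρ x < 0 from hx)]
    abel
  have hwt : Tan ρ w := by
    intro x hx
    have h4 : w x = u x := by
      rw [hw]
      simp only
      have h5 : ze ρ (fun x => a x - u x) x = 0 := if_neg (by rw [hx]; exact lt_irrefl 0)
      have h6 : ze σ (fun x => v x - b x) x = 0 := by
        refine if_neg fun h7 => ?_
        have : ρ x < 0 := hsub h7
        linarith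
      rw [h5, h6, add_zero, add_zero]
    rw [h4]
    exact hu.tan x hx
  -- the divergence of `w`
  have hdvB : hs (D ρ) 2 (dv (ze σ fun x => v x - b x)) ≤ C2 * δ := by
    rw [hs_supp (Neu.measurableSet_D hρ.toDom) (U := {x | -δ < σ x})
      (isOpen_lt continuous_const hσ.smooth.continuous) hsub (fun x hx => ?_) 2 _
      (fun x hx => ?_)]
    · have e : ∀ x ∈ D σ, dv (ze σ fun x => v x - b x) x = (-1 : ℝ) • dv b x := by
        intro x hx
        have h4 : (ze σ fun x => v x - b x) =ᶠ[𝓝 x] fun x => v x - b x := by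
          filter_upwards [(Neu.isOpen_D hσ.toDom).mem_nhds hx] with y hy
          exact ze_in hy
        have hx' : σ x < 0 := hx
        rw [FEll.dv_congr h4, Ler.dv_sub hv.smooth bs, hv.dv0 x hx'.le, zero_sub, smul_eq_mul,
          neg_one_mul]
      rw [HSB.congr 2 _ _ (Neu.isOpen_D hσ.toDom) e, HSB.smul _ _ _ _ bs.dv]
      simpa using b4
    · have h4 : ¬ σ x < 0 := hx.2
      show -δ < σ x
      push Not at h4
      linarith
    · have hx' : -δ < σ x := hx
      have h4 : (ze σ fun x => v x - b x) =ᶠ[𝓝 x] fun _ => 0 := by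
        filter_upwards [hσ.smooth.continuous.continuousAt.eventually (lt_mem_nhds hx')] with y hy
        exact ze_out hfb hy
      rw [FEll.dv_congr h4, dv_zero]
  have hdvw : hs (D ρ) 2 (dv w) ≤ (2 * C1 + 2 * C2) * δ := by
    have e : ∀ x ∈ D ρ, dv w x = dv a x + dv (ze σ fun x => v x - b x) x := by
      intro x hx
      have h4 : w =ᶠ[𝓝 x] fun x => a x + ze σ (fun x => v x - b x) x := by
        filter_upwards [(Neu.isOpen_D hρ.toDom).mem_nhds hx] with y hy
        exact hwin y hy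
      rw [FEll.dv_congr h4, Ler.dv_add as tB.smooth]
    rw [HSB.congr 2 _ _ (Neu.isOpen_D hρ.toDom) e]
    have h4 := HSB.add_le (S := D ρ) 2 (dv a) (dv (ze σ fun x => v x - b x))
      (Or.inl hρ.bdd) as.dv tB.smooth.dv
    linarith
  have hgr : ∀ x ∈ D ρ, ‖gr (Q w) x‖ ≤ η := by
    intro x hx
    have h4 := h3 w hws hwt x hx
    have h5 : ‖gr (Q w) x‖ ^ 2 ≤ η ^ 2 := by
      refine h4.trans ((mul_le_mul_of_nonneg_left hdvw C30).trans ?_)
      rw [← mul_assoc]
      exact hδc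
    exact abs_le_of_sq_le_sq' h5 hη0.le |>.2
  refine ⟨w, hws, ?_, ?_⟩
  · have e : (fun x => w x - u x) = fun x => ze ρ (fun x => a x - u x) x +
        ze σ (fun x => v x - b x) x := by
      funext x
      rw [hw]
      simp
    rw [e]
    exact test_add tA (test_mono tB hsub)
  · have e : ∀ x ∈ D σ, P w x - v x = a x - b x - gr (Q w) x := by
      intro x hx
      have hx1 : ρ x < 0 := hsub hx
      have h4 := hL.dec w hws x hx1.le
      have h5 := hwin x (hsub hx)
      rw [ze_in (show σ x < 0 from hx)] at h5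
      have h6 : P w x = w x - gr (Q w) x := by rw [← h4]; abel
      rw [h6, h5]
      abel
    have hQ : Sm (gr (Q w)) := (hL.inQ w hws).smooth.gr
    have h4 : eLpNorm (fun x => P w x - v x) p (volume.restrict (D σ)) =
        eLpNorm (fun x => a x - b x - gr (Q w) x) p (volume.restrict (D σ)) := by
      refine eLpNorm_congr_ae ?_
      rw [Filter.EventuallyEq, ae_restrict_iff' (Neu.measurableSet_D hσ.toDom)]
      exact Eventually.of_forall e
    rw [h4]
    have ma : AEStronglyMeasurable a (volume.restrict (D σ)) := as.continuous.aestronglyMeasurable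
    have mb : AEStronglyMeasurable b (volume.restrict (D σ)) := bs.continuous.aestronglyMeasurable
    have mg : AEStronglyMeasurable (gr (Q w)) (volume.restrict (D σ)) :=
      hQ.continuous.aestronglyMeasurable
    have t1 := eLpNorm_sub_le (ma.sub mb) mg hp
    have t2 := eLpNorm_sub_le ma mb hp
    have n1 : eLpNorm a p (volume.restrict (D σ)) < ENNReal.ofReal (ε / 3) :=
      (sub_layer hρ.toDom hsub hδa a2 a3).trans_lt (e1 _ d1)
    have n2 : eLpNorm b p (volume.restrict (D σ)) < ENNReal.ofReal (ε / 3) :=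
      (sub_layer hσ.toDom subset_rfl hδb b2 b3).trans_lt (e2 _ d2)
    have n3 : eLpNorm (gr (Q w)) p (volume.restrict (D σ)) < ENNReal.ofReal (ε / 3) := by
      have h5 : eLpNorm (gr (Q w)) p (volume.restrict (D σ)) ≤
          (volume.restrict (D σ)) univ ^ p.toReal⁻¹ * ENNReal.ofReal η := by
        refine eLpNorm_le_of_ae_bound ?_
        rw [ae_restrict_iff' (Neu.measurableSet_D hσ.toDom)]
        exact Eventually.of_forall fun x hx => hgr x (hsub hx)
      rw [Measure.restrict_apply_univ, ← hV] at h5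
      refine h5.trans_lt ?_
      rw [← ENNReal.ofReal_toReal hVt, ← ENNReal.ofReal_mul ENNReal.toReal_nonneg]
      refine (ENNReal.ofReal_lt_ofReal_iff hε3).mpr ?_
      have hV0 : 0 ≤ V.toReal := ENNReal.toReal_nonneg
      rw [hη, ← mul_div_assoc, div_lt_div_iff₀ (by positivity) (by norm_num)]
      nlinarith
    calc eLpNorm (fun x => a x - b x - gr (Q w) x) p (volume.restrict (D σ))
        ≤ eLpNorm (fun x => a x - b x) p (volume.restrict (D σ)) +
          eLpNorm (gr (Q w)) p (volume.restrict (D σ)) := t1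
      _ ≤ eLpNorm a p (volume.restrict (D σ)) + eLpNorm b p (volume.restrict (D σ)) +
          eLpNorm (gr (Q w)) p (volume.restrict (D σ)) := by gcongr; exact t2
      _ < ENNReal.ofReal (ε / 3) + ENNReal.ofReal (ε / 3) + ENNReal.ofReal (ε / 3) :=
          ENNReal.add_lt_add (ENNReal.add_lt_add n1 n2) n3
      _ = ENNReal.ofReal ε := by
          rw [← ENNReal.ofReal_add hε3.le hε3.le, ← ENNReal.ofReal_add (by positivity) hε3.le]
          congr 1
          ring

end MPfab
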