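import Pool.Agent.Lib.MP_fabde4_an.SpecF

/-! MP_fabde4_an, part F, module LODE (helper45). -/

set_option autoImplicit false
open MeasureTheory Set

namespace MPfab

namespace FLode

section
variable {V : Type} [NormedAddCommGroup V] [NormedSpace ℝ V] [CompleteSpace V]

lemma exp_sm : Sm (NormedSpace.exp : (V →L[ℝ] V) → (V →L[ℝ] V)) :=
  contDiff_iff_contDiffAt.mpr fun x => (NormedSpace.exp_analytic (𝕂 := ℝ) x).contDiffAt

lemma exp_cancel (A : V →L[ℝ] V) (t : ℝ) (v : V) :
    (NormedSpace.exp (t • A)) ((NormedSpace.exp (-t • A)) v) = v := by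
  let _ : NormedAlgebra ℚ (V →L[ℝ] V) := NormedAlgebra.restrictScalars ℚ ℝ (V →L[ℝ] V)
  have : NormedSpace.exp (t • A) * NormedSpace.exp (-t • A) = 1 := by
    rw [neg_smul, ← NormedSpace.exp_add_of_commute ((Commute.refl _).neg_right), add_neg_cancel,
      NormedSpace.exp_zero]
  calc (NormedSpace.exp (t • A)) ((NormedSpace.exp (-t • A)) v)
      = (NormedSpace.exp (t • A) * NormedSpace.exp (-t • A)) v := rfl
    _ = v := by rw [this]; rfl

lemma duhamel (A : V →L[ℝ] V) (b : ℝ → V) (hb : Continuous b) (t : ℝ) :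
    HasDerivAt (fun s => (NormedSpace.exp (s • A))
      (∫ r in (0 : ℝ)..s, (NormedSpace.exp (-r • A)) (b r)))
      (A ((NormedSpace.exp (t • A)) (∫ r in (0 : ℝ)..t, (NormedSpace.exp (-r • A)) (b r))) + b t)
      t := by
  have h1 : HasDerivAt (fun s : ℝ => NormedSpace.exp (s • A))
      (A * NormedSpace.exp (t • A)) t := hasDerivAt_exp_smul_const' A t
  have hc : Continuous fun s : ℝ => (NormedSpace.exp (-s • A)) (b s) := by
    refine Continuous.clm_apply ?_ hb
    exact exp_sm.continuous.comp (continuous_neg.smul continuous_const)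
  have h2 : HasDerivAt (fun s : ℝ => ∫ r in (0 : ℝ)..s, (NormedSpace.exp (-r • A)) (b r))
      ((NormedSpace.exp (-t • A)) (b t)) t :=
    intervalIntegral.integral_hasDerivAt_right (hc.intervalIntegrable _ _)
      (hc.stronglyMeasurableAtFilter _ _) hc.continuousAt
  have h3 := h1.clm_apply h2
  rw [exp_cancel] at h3
  exact h3

end

/-- the integrand -/
noncomputable def f (A : E → E →L[ℝ] E) (b : ℝ × E → E) (p : ℝ × (ℝ × E)) : E :=
  p.2.1 • (NormedSpace.exp (-(p.2.1 * p.1) • A p.2.2)) (b (p.2.1 * p.1, p.2.2))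

lemma f_sm {A : E → E →L[ℝ] E} {b : ℝ × E → E} (hA : Sm A) (hb : Sm b) : Sm (f A b) := by
  unfold f
  have h1 : Sm fun p : ℝ × (ℝ × E) => p.2.1 := contDiff_fst.comp contDiff_snd
  have h2 : Sm fun p : ℝ × (ℝ × E) => p.2.2 := contDiff_snd.comp contDiff_snd
  have h3 : Sm fun p : ℝ × (ℝ × E) => p.2.1 * p.1 := h1.mul contDiff_fst
  refine h1.smul ?_
  refine ContDiff.clm_apply ?_ (hb.comp (h3.prodMk h2))
  exact exp_sm.comp (h3.neg.smul (hA.comp h2))

lemma int_eq (A : E → E →L[ℝ] E) (b : ℝ × E → E) (t : ℝ) (x : E) :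
    ∫ θ in (0 : ℝ)..1, f A b (θ, (t, x)) =
      ∫ s in (0 : ℝ)..t, (NormedSpace.exp (-s • A x)) (b (s, x)) := by
  unfold f
  simp only
  rw [intervalIntegral.integral_smul]
  have h := intervalIntegral.smul_integral_comp_mul_left (a := 0) (b := 1)
    (fun s => (NormedSpace.exp (-s • A x)) (b (s, x))) t
  simp only [mul_zero, mul_one] at h
  exact h

end FLode

theorem specLode (hP : SpecPint) : SpecLode := by
  intro A b hA hb
  have hI : Sm fun p : ℝ × E => ∫ θ in (0 : ℝ)..1, FLode.f A b (θ, p) :=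
    hP (ℝ × E) E (FLode.f A b) (FLode.f_sm hA hb)
  refine ⟨fun p => (NormedSpace.exp (p.1 • A p.2)) (∫ θ in (0 : ℝ)..1, FLode.f A b (θ, p)),
    ?_, ?_, ?_⟩
  · refine ContDiff.clm_apply ?_ hI
    exact FLode.exp_sm.comp (ContDiff.smul contDiff_fst (hA.comp contDiff_snd))
  · intro x
    have := FLode.int_eq A b 0 x
    simp only [this, intervalIntegral.integral_same, map_zero]
  · intro t x
    simp only [FLode.int_eq]
    exact FLode.duhamel (A x) (fun s => b (s, x))
      (hb.continuous.comp (continuous_id.prodMk continuous_const)) t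

end MPfab
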