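import Pool.Agent.Lib.MP_fabde4_an.SpecF
import Pool.Agent.Lib.MP_fabde4_an.M.Lop
import Pool.Agent.Lib.MP_fabde4_an.F.EllD

/-!
MP_fabde4_an, part F: modules CTAN and ORBIT.
-/

set_option autoImplicit false
open MeasureTheory Set

namespace MPfab

/-- module CTAN -/
theorem specCTan : SpecCTan := by
  intro ρ R P Q B Ψ _ hL hB hΨ hR
  have hQ := hL.inQ Ψ hΨ.smooth
  refine ⟨⟨hQ.smooth.gr, fun x hx => ?_⟩, ?_⟩
  · ext i
    exact INC.pd_supp hR hQ.smooth hQ.supp i x hx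
  · intro x hx
    have h1 : Ψ x = 0 := by
      by_contra hne
      have h2 : x ∈ tsupport Ψ := subset_tsupport _ hne
      have h3 : ρ x < 0 := hB (hΨ.sub h2)
      linarith
    have h2 := hL.dec Ψ hΨ.smooth x hx.le
    rw [h1, zero_sub] at h2
    rw [← h2, map_neg, (hL.inX Ψ hΨ.smooth).tan x hx, neg_zero]

namespace FOrbit

/-- the value of a list of flows -/
def go (Fl : (E → E) → ℝ × E → E) (L : List (E → E)) (y : E) : E :=
  L.foldl (fun x Ψ => Fl Ψ (1, x)) y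

theorem go_append (Fl : (E → E) → ℝ × E → E) (L L' : List (E → E)) (y : E) :
    go Fl (L ++ L') y = go Fl L' (go Fl L y) := by
  simp [go, List.foldl_append]

theorem test_smul {B : Set E} {Ψ : E → E} (h : Test B Ψ) (c : ℝ) : Test B (fun x => c • Ψ x) where
  smooth := h.smooth.const_smul c
  cpt := h.cpt.smul_left (f := fun _ => c)
  sub := (closure_mono (by
    intro x hx
    rw [Function.mem_support] at hx ⊢
    intro h0
    exact hx (by rw [h0, smul_zero]))).trans h.sub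

theorem go_continuous {B : Set E} {Fl : (E → E) → ℝ × E → E} {Q : (E → E) → E → ℝ}
    (hFl : ∀ Ψ, Test B Ψ → IsFlow (gr (Q Ψ)) (Fl Ψ)) :
    ∀ L : List (E → E), (∀ Ψ ∈ L, Test B Ψ) → Continuous (go Fl L) := by
  intro L
  induction L with
  | nil => exact fun _ => continuous_id
  | cons Ψ L ih =>
    intro h
    have h1 := ih fun Ψ' hΨ' => h Ψ' (List.mem_cons_of_mem _ hΨ')
    have h2 : Continuous fun x => Fl Ψ (1, x) :=
      (hFl Ψ (h Ψ List.mem_cons_self)).smooth.continuous.comp (by fun_prop)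
    exact h1.comp h2

/-- rescaled control fields -/
theorem flow_smul {ρ : E → ℝ} {R : ℝ} {P : (E → E) → E → E} {Q : (E → E) → E → ℝ}
    (hL : Leray ρ R P Q) {B : Set E} {Fl : (E → E) → ℝ × E → E}
    (hFl : ∀ Ψ, Test B Ψ → IsFlow (gr (Q Ψ)) (Fl Ψ)) {Ψ : E → E} (hΨ : Test B Ψ) (s : ℝ) (x : E) :
    Fl (fun x => s • Ψ x) (1, x) = Fl Ψ (s, x) := by
  have h1 := hFl _ (test_smul hΨ s)
  have h2 := hFl Ψ hΨ
  have hQs : Sm (Q Ψ) := (hL.inQ Ψ hΨ.smooth).smooth
  have hgr : gr (Q (fun x => s • Ψ x)) = fun x => s • gr (Q Ψ) x := by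
    rw [hL.smulQ s Ψ hΨ.smooth]
    funext z
    ext i
    show pd i (fun x => s * Q Ψ x) z = s * pd i (Q Ψ) z
    exact PDC.pd_const_smul s (hQs.differentiable z) i
  have hX : ContDiff ℝ 1 (fun x => s • gr (Q Ψ) x) :=
    (hQs.gr.const_smul s).of_le (by
      show ((1 : ENat) : WithTop ENat) ≤ ((⊤ : ENat) : WithTop ENat)
      exact WithTop.coe_le_coe.2 le_top)
  have h3 := FlowC.uniq hX (t₀ := 0) (γ := fun r => Fl (fun x => s • Ψ x) (r, x))
    (γ' := fun r => Fl Ψ (r * s, x))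
    (fun t => by
      have := h1.deriv t x
      rw [hgr] at this
      exact this)
    (fun t => by
      have h4 := h2.deriv (t * s) x
      have h5 : HasDerivAt (fun r : ℝ => r * s) s t := by
        simpa using (hasDerivAt_id t).mul_const s
      exact h4.scomp t h5)
    (by simp [h1.zero, h2.zero]) 1
  simpa using h3

/-- derivative of a flow at time `0` -/
theorem flow_fderiv {X : E → E} {F : ℝ × E → E} (hF : IsFlow X F) (y : E) :
    HasFDerivAt F ((ContinuousLinearMap.toSpanSingleton ℝ (X y)).coprod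
      (ContinuousLinearMap.id ℝ E)) ((0 : ℝ), y) := by
  have h1 := (hF.smooth.differentiable ((0 : ℝ), y)).hasFDerivAt
  have h2 : fderiv ℝ F ((0 : ℝ), y) = (ContinuousLinearMap.toSpanSingleton ℝ (X y)).coprod
      (ContinuousLinearMap.id ℝ E) := by
    have ha : fderiv ℝ F ((0 : ℝ), y) ((1 : ℝ), (0 : E)) = X y := by
      have h3 : HasDerivAt (fun s : ℝ => (s, y)) ((1 : ℝ), (0 : E)) 0 :=
        (hasDerivAt_id (0 : ℝ)).prodMk (hasDerivAt_const 0 y)
      have h4 := h1.comp_hasDerivAt (0 : ℝ) h3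
      have h5 := hF.deriv 0 y
      rw [hF.zero] at h5
      exact h4.unique h5
    have hb : ∀ v : E, fderiv ℝ F ((0 : ℝ), y) ((0 : ℝ), v) = v := by
      intro v
      have h3 : HasFDerivAt (fun z : E => ((0 : ℝ), z))
          ((0 : E →L[ℝ] ℝ).prod (ContinuousLinearMap.id ℝ E)) y :=
        (hasFDerivAt_const (0 : ℝ) y).prodMk (hasFDerivAt_id y)
      have h4 := h1.comp y h3
      have h5 : (F ∘ fun z : E => ((0 : ℝ), z)) = fun z => z := funext fun z => hF.zero z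
      rw [h5] at h4
      have h6 := h4.unique (hasFDerivAt_id y)
      have h7 := congrArg (fun A => A v) h6
      simpa using h7
    ext v
    · simp only [ContinuousLinearMap.comp_apply, ContinuousLinearMap.inl_apply]
      rw [ha]
      simp
    · simp only [ContinuousLinearMap.comp_apply, ContinuousLinearMap.inr_apply]
      rw [hb]
      simp
  rw [h2] at h1
  exact h1

/-- points near `y` are reached from `y` -/
theorem near {F : Fin 3 → ℝ × E → E} {X : Fin 3 → E → E} (hF : ∀ i, IsFlow (X i) (F i)) (y : E)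
    (hX : ∀ i, X i y = eb i) :
    ∀ᶠ z in nhds y, ∃ s : E, F 2 (s 2, F 1 (s 1, F 0 (s 0, y))) = z := by
  set H : E → E := fun s => F 2 (s 2, F 1 (s 1, F 0 (s 0, y))) with hH
  have hpr : ∀ i : Fin 3, Sm fun s : E => s i := fun i => contDiff_euclidean.1 contDiff_id i
  have hs0 : Sm fun s : E => F 0 (s 0, y) := (hF 0).smooth.comp ((hpr 0).prodMk contDiff_const)
  have hs1 : Sm fun s : E => F 1 (s 1, F 0 (s 0, y)) := (hF 1).smooth.comp ((hpr 1).prodMk hs0)
  have hHs : Sm H := (hF 2).smooth.comp ((hpr 2).prodMk hs1)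
  have hprd : ∀ i : Fin 3, HasFDerivAt (fun s : E => s i) (EuclideanSpace.proj i : E →L[ℝ] ℝ)
      (0 : E) := fun i => (EuclideanSpace.proj i : E →L[ℝ] ℝ).hasFDerivAt
  have e0 : (fun s : E => F 0 (s 0, y)) 0 = y := (hF 0).zero y
  have d0 : HasFDerivAt (fun s : E => F 0 (s 0, y))
      (((ContinuousLinearMap.toSpanSingleton ℝ (X 0 y)).coprod (ContinuousLinearMap.id ℝ E)) ∘L
        ((EuclideanSpace.proj 0 : E →L[ℝ] ℝ).prod (0 : E →L[ℝ] E))) (0 : E) :=
    HasFDerivAt.comp (0 : E) (flow_fderiv (hF 0) y) ((hprd 0).prodMk (hasFDerivAt_const y 0))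
  have e1 : (fun s : E => F 1 (s 1, F 0 (s 0, y))) 0 = y := by
    show F 1 (0, F 0 (0, y)) = y
    rw [(hF 0).zero, (hF 1).zero]
  have d1 : HasFDerivAt (fun s : E => F 1 (s 1, F 0 (s 0, y)))
      (((ContinuousLinearMap.toSpanSingleton ℝ (X 1 y)).coprod (ContinuousLinearMap.id ℝ E)) ∘L
        ((EuclideanSpace.proj 1 : E →L[ℝ] ℝ).prod
        (((ContinuousLinearMap.toSpanSingleton ℝ (X 0 y)).coprod (ContinuousLinearMap.id ℝ E)) ∘L
        ((EuclideanSpace.proj 0 : E →L[ℝ] ℝ).prod (0 : E →L[ℝ] E))))) (0 : E) := by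
    have h1 : HasFDerivAt (F 1) ((ContinuousLinearMap.toSpanSingleton ℝ (X 1 y)).coprod
      (ContinuousLinearMap.id ℝ E)) ((fun s : E => (s 1, F 0 (s 0, y))) 0) := by
      show HasFDerivAt (F 1) _ ((0 : ℝ), F 0 ((0 : ℝ), y))
      rw [(hF 0).zero]
      exact flow_fderiv (hF 1) y
    exact HasFDerivAt.comp (0 : E) h1 ((hprd 1).prodMk d0)
  have d2 : HasFDerivAt H
      (((ContinuousLinearMap.toSpanSingleton ℝ (X 2 y)).coprod (ContinuousLinearMap.id ℝ E)) ∘L
        ((EuclideanSpace.proj 2 : E →L[ℝ] ℝ).prod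
      (((ContinuousLinearMap.toSpanSingleton ℝ (X 1 y)).coprod (ContinuousLinearMap.id ℝ E)) ∘L
        ((EuclideanSpace.proj 1 : E →L[ℝ] ℝ).prod
        (((ContinuousLinearMap.toSpanSingleton ℝ (X 0 y)).coprod (ContinuousLinearMap.id ℝ E)) ∘L
        ((EuclideanSpace.proj 0 : E →L[ℝ] ℝ).prod (0 : E →L[ℝ] E))))))) (0 : E) := by
    have h1 : HasFDerivAt (F 2) ((ContinuousLinearMap.toSpanSingleton ℝ (X 2 y)).coprod
      (ContinuousLinearMap.id ℝ E)) ((fun s : E => (s 2, F 1 (s 1, F 0 (s 0, y)))) 0) := by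
      show HasFDerivAt (F 2) _ ((0 : ℝ), F 1 ((0 : ℝ), F 0 ((0 : ℝ), y)))
      rw [(hF 0).zero, (hF 1).zero]
      exact flow_fderiv (hF 2) y
    exact HasFDerivAt.comp (0 : E) h1 ((hprd 2).prodMk d1)
  have hid : (((ContinuousLinearMap.toSpanSingleton ℝ (X 2 y)).coprod
        (ContinuousLinearMap.id ℝ E)) ∘L
        ((EuclideanSpace.proj 2 : E →L[ℝ] ℝ).prod
      (((ContinuousLinearMap.toSpanSingleton ℝ (X 1 y)).coprod (ContinuousLinearMap.id ℝ E)) ∘L
        ((EuclideanSpace.proj 1 : E →L[ℝ] ℝ).prod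
        (((ContinuousLinearMap.toSpanSingleton ℝ (X 0 y)).coprod (ContinuousLinearMap.id ℝ E)) ∘L
        ((EuclideanSpace.proj 0 : E →L[ℝ] ℝ).prod (0 : E →L[ℝ] E))))))) =
      ((ContinuousLinearEquiv.refl ℝ E : E ≃L[ℝ] E) : E →L[ℝ] E) := by
    ext v i
    rw [hX 0, hX 1, hX 2]
    fin_cases i <;> simp [eb, ContinuousLinearMap.toSpanSingleton_apply]
  rw [hid] at d2
  have hstrict : HasStrictFDerivAt H ((ContinuousLinearEquiv.refl ℝ E : E ≃L[ℝ] E) : E →L[ℝ] E)
      (0 : E) := hHs.contDiffAt.hasStrictFDerivAt' d2 (by simp)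
  have hmap := hstrict.map_nhds_eq_of_equiv
  have e2 : H 0 = y := by
    show F 2 (0, F 1 (0, F 0 (0, y))) = y
    rw [(hF 0).zero, (hF 1).zero, (hF 2).zero]
  rw [e2] at hmap
  rw [← hmap]
  exact Filter.Eventually.of_forall (fun s => ⟨s, rfl⟩) |> Filter.eventually_map.2

end FOrbit

open FOrbit in
/-- module ORBIT -/
theorem specOrbit (hSpan : SpecSpan) : SpecOrbit := by
  intro ρ R P Q B y hD hconn hL hR hBo hBne hBs hy Fl hFl
  -- the set of points which reach `B`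
  set A : Set E := {z | z ∈ D ρ ∧ ∃ L : List (E → E), (∀ Ψ ∈ L, Test B Ψ) ∧ go Fl L z ∈ B}
    with hA
  have hDo : IsOpen (D ρ) := isOpen_lt hD.smooth.continuous continuous_const
  have hAo : IsOpen A := by
    rw [isOpen_iff_mem_nhds]
    rintro z ⟨hz, L, hL1, hL2⟩
    have h1 : ∀ᶠ w in nhds z, go Fl L w ∈ B :=
      (go_continuous hFl L hL1).continuousAt.eventually_mem (hBo.mem_nhds hL2)
    filter_upwards [h1, hDo.mem_nhds hz] with w hw hwD
    exact ⟨hwD, L, hL1, hw⟩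
  have hAc : IsOpen (D ρ \ A) := by
    rw [isOpen_iff_mem_nhds]
    rintro z ⟨hz, hzA⟩
    -- control fields at `z`
    have hsp : ∀ i : Fin 3, ∃ Ψ : E → E, Test B Ψ ∧ gr (Q Ψ) z = eb i := fun i =>
      hSpan ρ R P Q B z (eb i) hD hconn hL hBo hBne hBs hz
    choose Ψ hΨ hΨz using hsp
    have h1 := near (F := fun i => Fl (Ψ i)) (X := fun i => gr (Q (Ψ i)))
      (fun i => hFl (Ψ i) (hΨ i)) z hΨz
    filter_upwards [h1, hDo.mem_nhds hz] with w hw hwD
    refine ⟨hwD, ?_⟩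
    rintro ⟨_, L, hL1, hL2⟩
    obtain ⟨s, rfl⟩ := hw
    refine hzA ⟨hz, [fun x => s 0 • Ψ 0 x, fun x => s 1 • Ψ 1 x, fun x => s 2 • Ψ 2 x] ++ L, ?_, ?_⟩
    · intro Φ hΦ
      rcases List.mem_append.1 hΦ with h2 | h2
      · simp only [List.mem_cons, List.not_mem_nil, or_false] at h2
        rcases h2 with rfl | rfl | rfl
        · exact test_smul (hΨ 0) _
        · exact test_smul (hΨ 1) _
        · exact test_smul (hΨ 2) _
      · exact hL1 Φ h2
    · rw [go_append]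
      have e : go Fl [fun x => s 0 • Ψ 0 x, fun x => s 1 • Ψ 1 x, fun x => s 2 • Ψ 2 x] z =
          Fl (Ψ 2) (s 2, Fl (Ψ 1) (s 1, Fl (Ψ 0) (s 0, z))) := by
        show Fl (fun x => s 2 • Ψ 2 x) (1, Fl (fun x => s 1 • Ψ 1 x)
          (1, Fl (fun x => s 0 • Ψ 0 x) (1, z))) = _
        rw [flow_smul hL hFl (hΨ 0), flow_smul hL hFl (hΨ 1), flow_smul hL hFl (hΨ 2)]
      rw [e]
      exact hL2
  have hyA : y ∈ A := by
    by_contra hyn
    obtain ⟨b, hb⟩ := hBne
    have hbA : b ∈ A := ⟨hBs hb, [], by simp, hb⟩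
    have h1 := hconn.isPreconnected A (D ρ \ A) hAo hAc (by
      intro z hz
      by_cases h : z ∈ A
      · exact Or.inl h
      · exact Or.inr ⟨hz, h⟩) ⟨b, hBs hb, hbA⟩ ⟨y, hy, hy, hyn⟩
    obtain ⟨z, _, h2, h3⟩ := h1
    exact h3.2 h2
  obtain ⟨_, L, h1, h2⟩ := hyA
  exact ⟨L, h1, h2⟩

end MPfab
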